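import Pool.Agent.Lib.MP_7470b6_lc.Bip.BD

/-!
# Matchings of maximum weight
-/

open Finset

namespace Pool.Agent.Lib.MP_7470b6_lc.Bip

open Pool.Agent.Lib.MP_7470b6_lc.Crs

variable {V ι : Type} [Fintype V] [DecidableEq V] [Fintype ι] [DecidableEq ι] {g : MG V ι}

/-- Job BA. -/
theorem mem_E {i : ι} {v : V} : i ∈ g.E v ↔ g.a i = v ∨ g.b i = v := by
  simp [MG.E]

/-- Job BA. -/
theorem isM_mono {M M' : Finset ι} (h : g.IsM M) (hs : M' ⊆ M) : g.IsM M' := by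
  intro v i hi j hj h1 h2
  exact h v i (hs hi) j (hs hj) h1 h2

/-- Job BA. -/
theorem le_nu {M S : Finset ι} (h : g.IsM M) (hs : M ⊆ S) : (∑ i ∈ M, (g.w i : ℤ)) ≤ g.nu S := by
  classical
  unfold MG.nu
  have h1 : M ∈ S.powerset.filter (fun M => g.IsM M) := by
    simp only [Finset.mem_filter, Finset.mem_powerset]
    exact ⟨hs, h⟩
  have h2 := Finset.le_sup (f := fun M => ∑ i ∈ M, g.w i) h1
  have h3 : ((∑ i ∈ M, g.w i : ℕ) : ℤ) ≤
      (((S.powerset.filter (fun M => g.IsM M)).sup (fun M => ∑ i ∈ M, g.w i) : ℕ) : ℤ) := by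
    exact_mod_cast h2
  push_cast at h3
  exact h3

/-- Job BA. -/
theorem exists_opt (g : MG V ι) (S : Finset ι) :
    ∃ M, M ⊆ S ∧ g.IsM M ∧ g.nu S = ∑ i ∈ M, (g.w i : ℤ) := by
  classical
  have hne : (S.powerset.filter (fun M => g.IsM M)).Nonempty := by
    refine ⟨∅, ?_⟩
    simp only [Finset.mem_filter, Finset.mem_powerset, Finset.empty_subset, true_and]
    intro v i hi
    simp at hi
  obtain ⟨M, hM, hMs⟩ := Finset.exists_mem_eq_sup _ hne (fun M => ∑ i ∈ M, g.w i)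
  simp only [Finset.mem_filter, Finset.mem_powerset] at hM
  refine ⟨M, hM.1, hM.2, ?_⟩
  unfold MG.nu
  rw [hMs]
  push_cast
  rfl

/-- Job BA. -/
theorem nu_mono {S T : Finset ι} (h : S ⊆ T) : g.nu S ≤ g.nu T := by
  obtain ⟨M, h1, h2, h3⟩ := exists_opt g S
  rw [h3]
  exact le_nu h2 (h1.trans h)

/-- Job BA. -/
theorem nu_nonneg (S : Finset ι) : 0 ≤ g.nu S := by
  unfold MG.nu
  exact Int.natCast_nonneg _

/-- Job BA. -/
theorem D_nonneg (v : V) (S : Finset ι) : 0 ≤ g.D v S := by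
  unfold MG.D
  have := nu_mono (g := g) (Finset.sdiff_subset : S \ g.E v ⊆ S)
  linarith

/-- Job BA. No edge at `v`. -/
theorem D_zero {v : V} {S : Finset ι} (h : S ∩ g.E v = ∅) : g.D v S = 0 := by
  unfold MG.D
  have h1 : S \ g.E v = S := by
    rw [Finset.sdiff_eq_self_iff_disjoint, Finset.disjoint_iff_inter_eq_empty]
    exact h
  rw [h1, sub_self]

/-- Job BA. Both sides equal `ν(S) - ν(S - v) - ν(S - u) + ν(S - u - v)`. -/
theorem swap (u v : V) (S : Finset ι) :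
    g.D v S - g.D v (S \ g.E u) = g.D u S - g.D u (S \ g.E v) := by
  unfold MG.D
  rw [sdiff_right_comm]
  ring

/-- Job BA. Removing one edge at `v` does not increase the loss of `v`: `S.erase i \ E v = S \ E v`. -/
theorem D_erase_le {v : V} {i : ι} (hi : i ∈ g.E v) (S : Finset ι) : g.D v (S.erase i) ≤ g.D v S := by
  unfold MG.D
  have h1 : S.erase i \ g.E v = S \ g.E v := by
    ext j
    simp only [Finset.mem_sdiff, Finset.mem_erase]
    constructor
    · rintro ⟨⟨_, h2⟩, h3⟩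
      exact ⟨h2, h3⟩
    · rintro ⟨h2, h3⟩
      refine ⟨⟨?_, h2⟩, h3⟩
      rintro rfl
      exact h3 hi
  rw [h1]
  have := nu_mono (g := g) (Finset.erase_subset i S)
  linarith

/-- Job BA. -/
theorem dd_nonneg (v : V) (S : Finset ι) : 0 ≤ g.dd v S := by
  unfold MG.dd
  exact Int.natCast_nonneg _

/-- Job BA. -/
theorem le_dd {v : V} {S : Finset ι} {i : ι} (hi : i ∈ S) (hv : i ∈ g.E v) :
    (g.w i : ℤ) - g.D (g.ot i v) S ≤ g.dd v S := by
  unfold MG.dd
  have h1 : i ∈ S ∩ g.E v := Finset.mem_inter.2 ⟨hi, hv⟩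
  have h2 := Finset.le_sup (f := fun i => ((g.w i : ℤ) - g.D (g.ot i v) S).toNat) h1
  have h3 : (((g.w i : ℤ) - g.D (g.ot i v) S).toNat : ℤ) ≤
      (((S ∩ g.E v).sup (fun i => ((g.w i : ℤ) - g.D (g.ot i v) S).toNat) : ℕ) : ℤ) := by
    exact_mod_cast h2
  exact le_trans (Int.self_le_toNat _) h3

/-- Job BA. -/
theorem dd_le {v : V} {S : Finset ι} {r : ℤ} (hr : 0 ≤ r)
    (h : ∀ i ∈ S, i ∈ g.E v → (g.w i : ℤ) - g.D (g.ot i v) S ≤ r) : g.dd v S ≤ r := by
  unfold MG.dd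
  have h1 : (S ∩ g.E v).sup (fun i => ((g.w i : ℤ) - g.D (g.ot i v) S).toNat) ≤ r.toNat := by
    apply Finset.sup_le
    intro i hi
    rw [Finset.mem_inter] at hi
    exact Int.toNat_le_toNat (h i hi.1 hi.2)
  have h2 : (((S ∩ g.E v).sup (fun i => ((g.w i : ℤ) - g.D (g.ot i v) S).toNat) : ℕ) : ℤ) ≤
      (r.toNat : ℤ) := by exact_mod_cast h1
  rw [Int.toNat_of_nonneg hr] at h2
  exact h2

/-- Job BA. The vertex `v` is not covered by the maximum matching `M`. -/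
theorem D_uncovered {v : V} {M S : Finset ι} (hM : g.IsM M) (hs : M ⊆ S)
    (ho : g.nu S = ∑ i ∈ M, (g.w i : ℤ)) (hv : ∀ i ∈ M, i ∉ g.E v) : g.D v S = 0 := by
  apply le_antisymm _ (D_nonneg v S)
  unfold MG.D
  have h1 : M ⊆ S \ g.E v := by
    intro i hi
    exact Finset.mem_sdiff.2 ⟨hs hi, hv i hi⟩
  have h2 := le_nu hM h1
  rw [ho]
  linarith

/-- Job BA. Remove the edge from `M`. -/
theorem D_le_w {v : V} {M S : Finset ι} {i : ι} (hM : g.IsM M) (hs : M ⊆ S)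
    (ho : g.nu S = ∑ i ∈ M, (g.w i : ℤ)) (hi : i ∈ M) (hv : i ∈ g.E v) : g.D v S ≤ (g.w i : ℤ) := by
  unfold MG.D
  have h1 : M.erase i ⊆ S \ g.E v := by
    intro j hj
    rw [Finset.mem_erase] at hj
    refine Finset.mem_sdiff.2 ⟨hs hj.2, ?_⟩
    intro hjv
    exact hj.1 (hM v j hj.2 i hi hjv hv)
  have h2 := le_nu (isM_mono hM (Finset.erase_subset i M)) h1
  have h3 := Finset.add_sum_erase M (fun i => (g.w i : ℤ)) hi
  rw [ho]
  linarith

/-- Job BA. The maximum is only attained below the maximum of all weights... `ν(S) ≤ ν(S - i) + w i`. -/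
theorem nu_le_erase (S : Finset ι) (i : ι) : g.nu S ≤ g.nu (S.erase i) + (g.w i : ℤ) := by
  obtain ⟨M, h1, h2, h3⟩ := exists_opt g S
  have h4 : M.erase i ⊆ S.erase i := Finset.erase_subset_erase i h1
  have h5 := le_nu (isM_mono h2 (Finset.erase_subset i M)) h4
  rw [h3]
  by_cases hi : i ∈ M
  · have h6 := Finset.add_sum_erase M (fun i => (g.w i : ℤ)) hi
    linarith
  · rw [Finset.erase_eq_of_notMem hi] at h5
    have h7 : (0 : ℤ) ≤ (g.w i : ℤ) := Int.natCast_nonneg _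
    linarith

end Pool.Agent.Lib.MP_7470b6_lc.Bip
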