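import Pool.Agent.Lib.MP_7470b6_lc.Bip.BP

/-!
# Monotonicity
-/

open Finset

namespace Pool.Agent.Lib.MP_7470b6_lc.Bip

open Pool.Agent.Lib.MP_7470b6_lc.Crs

variable {V ι : Type} [Fintype V] [DecidableEq V] [Fintype ι] [DecidableEq ι] {g : MG V ι}
  {c : V → Bool}

/-- Job BB. Induction on the size of `S`.
Same colour, `u ≠ v`: if `D v S = 0` this is `D_nonneg`. Else (`exists_D`) there is `i ∈ S ∩ E v` with
`D v S = w i - D b (S \ E v)`, `b = ot i v`. `i ∉ E u` (its ends are `v` and `b`, and `c b ≠ c v = c u`), so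
`i ∈ S \ E u` and by `le_D` `D v (S \ E u) ≥ w i - D b ((S \ E u) \ E v)`. By induction for `S \ E v` (which is
smaller, as it does not contain `i`) and the vertices `u`, `b` of different colours
`D b ((S \ E v) \ E u) ≤ D b (S \ E v)`, and the two double differences are equal sets.
Different colours: if `D v (S \ E u) = 0` this is `D_nonneg`. Else there is `i ∈ (S \ E u) ∩ E v` with
`D v (S \ E u) = w i - D b ((S \ E u) \ E v)`, `b = ot i v ≠ u` since `i ∉ E u`, `c b = c u`. By induction for
`S \ E v` and `u`, `b` of the same colour `D b (S \ E v) ≤ D b ((S \ E v) \ E u)`, and `le_D` for `S`, `v`. -/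
theorem mono_aux (hB : TwoCol g c) : ∀ n : ℕ, ∀ S : Finset ι, S.card ≤ n → ∀ u v,
    (c u ≠ c v → g.D v (S \ g.E u) ≤ g.D v S) ∧
      (c u = c v → u ≠ v → g.D v S ≤ g.D v (S \ g.E u)) := by
  intro n
  induction n with
  | zero =>
    intro S hS u v
    have h0 : S = ∅ := Finset.card_eq_zero.1 (Nat.le_zero.1 hS)
    subst h0
    have h1 : (∅ : Finset ι) \ g.E u = ∅ := Finset.empty_sdiff _
    rw [h1]
    exact ⟨fun _ => le_refl _, fun _ _ => le_refl _⟩
  | succ n ih =>
    intro S hS u v
    have hsmall : ∀ i ∈ S, i ∈ g.E v → (S \ g.E v).card ≤ n := by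
      intro i hi hv
      have h1 : (S \ g.E v).card < S.card := by
        apply Finset.card_lt_card
        rw [Finset.ssubset_iff_of_subset Finset.sdiff_subset]
        exact ⟨i, hi, fun h => (Finset.mem_sdiff.1 h).2 hv⟩
      omega
    constructor
    · intro hc
      rcases le_or_gt (g.D v (S \ g.E u)) 0 with h0 | h0
      · exact h0.trans (D_nonneg v S)
      · obtain ⟨i, hi, hv, hD⟩ := exists_D h0
        obtain ⟨hiS, hiu⟩ := Finset.mem_sdiff.1 hi
        have hb1 : c (g.ot i v) ≠ c v := col_ot hB hv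
        have hb2 : c u = c (g.ot i v) := by
          cases h1 : c u <;> cases h2 : c v <;> cases h3 : c (g.ot i v) <;> simp_all
        have hb3 : u ≠ g.ot i v := by
          rintro rfl
          exact hiu (mem_ot hv)
        have h1 := (ih (S \ g.E v) (hsmall i hiS hv) u (g.ot i v)).2 hb2 hb3
        have h2 := le_D hiS hv
        rw [hD, sdiff_right_comm]
        linarith
    · intro hc hne
      rcases le_or_gt (g.D v S) 0 with h0 | h0
      · exact h0.trans (D_nonneg v _)
      · obtain ⟨i, hiS, hv, hD⟩ := exists_D h0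
        have hiu : i ∉ g.E u := fun h => Finset.disjoint_left.1 (E_disj hB hc hne) h hv
        have hi : i ∈ S \ g.E u := Finset.mem_sdiff.2 ⟨hiS, hiu⟩
        have hb1 : c (g.ot i v) ≠ c v := col_ot hB hv
        have hb2 : c u ≠ c (g.ot i v) := by
          rw [hc]
          exact hb1.symm
        have h1 := (ih (S \ g.E v) (hsmall i hiS hv) u (g.ot i v)).1 hb2
        have h2 := le_D hi hv
        rw [sdiff_right_comm] at h2
        rw [hD]
        linarith

/-- Job BB. Different colours. -/
theorem M1 (hB : TwoCol g c) {u v : V} (h : c u ≠ c v) (S : Finset ι) :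
    g.D v (S \ g.E u) ≤ g.D v S :=
  (mono_aux hB S.card S le_rfl u v).1 h

/-- Job BB. Same colour. -/
theorem M2 (hB : TwoCol g c) {u v : V} (h : c u = c v) (hne : u ≠ v) (S : Finset ι) :
    g.D v S ≤ g.D v (S \ g.E u) :=
  (mono_aux hB S.card S le_rfl u v).2 h hne

end Pool.Agent.Lib.MP_7470b6_lc.Bip
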