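import Pool.Agent.Lib.MP_7470b6_lc.Bip.BO

/-!
# Summation over a maximum matching, weak duality
-/

open Finset

namespace Pool.Agent.Lib.MP_7470b6_lc.Bip

open Pool.Agent.Lib.MP_7470b6_lc.Crs

variable {V ι : Type} [Fintype V] [DecidableEq V] [Fintype ι] [DecidableEq ι] {g : MG V ι}
  {c : V → Bool}

theorem bq_sum (hB : TwoCol g c) {M : Finset ι} (hM : g.IsM M) (F : V → ℤ) :
    ∑ v ∈ M.biUnion (fun i => ({g.a i, g.b i} : Finset V)), F v = ∑ i ∈ M, (F (g.a i) + F (g.b i)) := by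
  rw [sum_biUnion]
  · refine sum_congr rfl fun i _ => ?_
    refine sum_pair fun h => ?_
    have h1 := hB.ha i
    have h2 := hB.hb i
    rw [h] at h1
    rw [h1] at h2
    exact absurd h2 (by decide)
  · intro i hi j hj hij
    refine disjoint_left.2 fun v hv hv' => hij ?_
    refine hM v i hi j hj (mem_E.2 ?_) (mem_E.2 ?_)
    · simp only [mem_insert, mem_singleton] at hv
      rcases hv with h | h
      · exact Or.inl h.symm
      · exact Or.inr h.symm
    · simp only [mem_insert, mem_singleton] at hv'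
      rcases hv' with h | h
      · exact Or.inl h.symm
      · exact Or.inr h.symm

/-- Job BQ. Summation over the edges of a maximum matching `M`: `F` is `≤ 0` at the uncovered vertices
and `F (a i) + F (b i) ≤ w i` for the edges of `M`. (Send the covered vertices to their edges of `M`.) -/
theorem sum_le_nu (hB : TwoCol g c) {M S : Finset ι} (hM : g.IsM M)
    (ho : g.nu S = ∑ i ∈ M, (g.w i : ℤ)) (F : V → ℤ) (h0 : ∀ v, (∀ i ∈ M, i ∉ g.E v) → F v ≤ 0)
    (h1 : ∀ i ∈ M, F (g.a i) + F (g.b i) ≤ (g.w i : ℤ)) : ∑ v, F v ≤ g.nu S := by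
  rw [ho]
  have h2 := bq_sum hB hM F
  have h3 : ∑ v, F v ≤ ∑ v ∈ M.biUnion (fun i => ({g.a i, g.b i} : Finset V)), F v := by
    rw [← sum_sdiff (subset_univ (M.biUnion (fun i => ({g.a i, g.b i} : Finset V))))]
    have h4 : ∑ v ∈ univ \ M.biUnion (fun i => ({g.a i, g.b i} : Finset V)), F v ≤ 0 := by
      refine sum_nonpos fun v hv => h0 v fun i hi hv' => ?_
      refine (mem_sdiff.1 hv).2 (mem_biUnion.2 ⟨i, hi, ?_⟩)
      rcases mem_E.1 hv' with h | h
      · rw [mem_insert]; exact Or.inl h.symm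
      · rw [mem_insert, mem_singleton]; exact Or.inr h.symm
    linarith
  exact h3.trans (h2.le.trans (sum_le_sum h1))

/-- Job BQ. Weak duality (take a maximum matching; the vertices covered by different edges of it are
different). -/
theorem weak_dual (hB : TwoCol g c) {S : Finset ι} (y : V → ℤ) (h0 : ∀ v, 0 ≤ y v)
    (h1 : ∀ i ∈ S, (g.w i : ℤ) ≤ y (g.a i) + y (g.b i)) : g.nu S ≤ ∑ v, y v := by
  obtain ⟨M, hs, hM, ho⟩ := exists_opt g S
  rw [ho]
  have h2 := bq_sum hB hM y
  calc ∑ i ∈ M, (g.w i : ℤ) ≤ ∑ i ∈ M, (y (g.a i) + y (g.b i)) := sum_le_sum fun i hi => h1 i (hs hi)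
    _ = ∑ v ∈ M.biUnion (fun i => ({g.a i, g.b i} : Finset V)), y v := h2.symm
    _ ≤ ∑ v, y v := sum_le_sum_of_subset_of_nonneg (subset_univ _) fun v _ _ => h0 v

end Pool.Agent.Lib.MP_7470b6_lc.Bip
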