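import Pool.Agent.Lib.MP_7470b6_lc.Bip.BB
import Pool.Agent.Lib.MP_7470b6_lc.Bip.BQ

/-!
# The static identity and the exchange property
-/

open Finset

namespace Pool.Agent.Lib.MP_7470b6_lc.Bip

open Pool.Agent.Lib.MP_7470b6_lc.Crs

variable {V ι : Type} [Fintype V] [DecidableEq V] [Fintype ι] [DecidableEq ι] {g : MG V ι}
  {c : V → Bool}

/-- `i` is an edge of `S` at `u` contained in some maximum matching. -/
def TopE (g : MG V ι) (u : V) (i : ι) (S : Finset ι) : Prop :=
  i ∈ S ∧ i ∈ g.E u ∧ (g.w i : ℤ) + g.nu ((S \ g.E u) \ g.E (g.ot i u)) = g.nu S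

private theorem bc_ends (hB : TwoCol g c) (k : ι) (t : Bool) :
    ∃ x z, c x = t ∧ c z ≠ t ∧ k ∈ g.E x ∧ k ∈ g.E z ∧ g.ot k x = z ∧ g.ot k z = x ∧
      ∀ F : V → ℤ, F (g.a k) + F (g.b k) = F x + F z := by
  have ha := hB.ha k
  have hb := hB.hb k
  have hne : g.a k ≠ g.b k := fun h => by
    rw [h, hb] at ha
    exact absurd ha (by decide)
  have h1 : k ∈ g.E (g.a k) := mem_E.2 (Or.inl rfl)
  have h2 : k ∈ g.E (g.b k) := mem_E.2 (Or.inr rfl)
  have h3 : g.ot k (g.a k) = g.b k := by
    unfold MG.ot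
    rw [if_pos rfl]
  have h4 : g.ot k (g.b k) = g.a k := by
    unfold MG.ot
    rw [if_neg hne]
  cases t
  · exact ⟨g.b k, g.a k, hb, by rw [ha]; decide, h2, h1, h4, h3, fun F => add_comm _ _⟩
  · exact ⟨g.a k, g.b k, ha, by rw [hb]; decide, h1, h2, h3, h4, fun F => rfl⟩

/-- Job BC. Exchange property, from the static inequality for the smaller set `T = S \ E b`,
`b = ot i u`. Write `b' = ot j u`.
If `b' = b` the claim is `w j ≤ w i`, which holds as
`w j + ν(S \ E u \ E b) ≤ ν(S) = w i + ν(S \ E u \ E b)` (`add_le_nu`).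
Let `b' ≠ b`. Use `weak_dual` for the set `S \ E b'` with `y v = D v T` for `c v = c u`, and for `c v ≠ c u`:
`y b = D b S`, `y b' = 0`, and `y v = dd v T` otherwise.
Feasibility: an edge `k ∈ S \ E b'` has an end `v` with `c v = c u` and an end `z` with `c z ≠ c u`, `z ≠ b'`.
If `z ≠ b` then `k ∈ T` and `dd z T ≥ w k - D v T` (`le_dd`); if `z = b` then
`D b S ≥ w k - D v (S \ E b)` (`le_D`).
The sum: `∑ y = (∑ over all v of (if c v = c u then D v T else dd v T)) - dd b T - dd b' T + D b S`
`≤ ν(T) - dd b' T + D b S` (`hF`, `dd_nonneg`), `dd b' T ≥ w j - D u T` (`le_dd`, `j ∈ T` since `b' ≠ b`,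
`ot j b' = u`), and `D u T + D b S = ν(T) - ν(T \ E u) + ν(S) - ν(T) = ν(S) - ν(S \ E b \ E u) = w i`
(`hi`, with `S \ E u \ E b = S \ E b \ E u`).
So `ν(S \ E b') ≤ ν(T) - w j + w i`. -/
theorem exchange_step (hB : TwoCol g c) {S : Finset ι} {u : V} {i j : ι} (hi : TopE g u i S)
    (hjS : j ∈ S) (hju : j ∈ g.E u)
    (hF : ∑ v, (if c v = c u then g.D v (S \ g.E (g.ot i u)) else g.dd v (S \ g.E (g.ot i u))) ≤
      g.nu (S \ g.E (g.ot i u))) :
    (g.w j : ℤ) + g.nu (S \ g.E (g.ot j u)) ≤ (g.w i : ℤ) + g.nu (S \ g.E (g.ot i u)) := by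
  obtain ⟨hiS, hiu, hopt⟩ := hi
  by_cases hbb : g.ot j u = g.ot i u
  · have h1 := add_le_nu hjS hju
    rw [hbb] at h1
    rw [hbb]
    linarith
  set b := g.ot i u with hb
  set b' := g.ot j u with hb'
  set T := S \ g.E b with hT
  have hcb : c b ≠ c u := col_ot hB hiu
  have hcb' : c b' ≠ c u := col_ot hB hju
  set G : V → ℤ := fun v => if c v = c u then g.D v T else g.dd v T with hG
  set y : V → ℤ := fun v => if c v = c u then g.D v T else
    if v = b then g.D b S else if v = b' then 0 else g.dd v T with hy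
  have hy0 : ∀ v, 0 ≤ y v := by
    intro v
    simp only [hy]
    split_ifs
    · exact D_nonneg _ _
    · exact D_nonneg _ _
    · exact le_rfl
    · exact dd_nonneg _ _
  have hfeas : ∀ k ∈ S \ g.E b', (g.w k : ℤ) ≤ y (g.a k) + y (g.b k) := by
    intro k hk
    obtain ⟨hkS, hkb'⟩ := Finset.mem_sdiff.1 hk
    obtain ⟨x, z, hx, hz, hkx, hkz, hoxz, hozx, hF2⟩ := bc_ends hB k (c u)
    rw [hF2 y]
    have hzb' : z ≠ b' := fun h => hkb' (h ▸ hkz)
    have hyx : y x = g.D x T := by
      simp only [hy]
      rw [if_pos hx]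
    by_cases hzb : z = b
    · have hyz : y z = g.D b S := by
        simp only [hy]
        rw [if_neg hz, if_pos hzb]
      have h2 := le_D hkS (hzb ▸ hkz)
      rw [← hzb, hozx] at h2
      rw [hyx, hyz, hT, ← hzb]
      linarith
    · have hyz : y z = g.dd z T := by
        simp only [hy]
        rw [if_neg hz, if_neg hzb, if_neg hzb']
      have hkT : k ∈ T := by
        refine Finset.mem_sdiff.2 ⟨hkS, fun h => ?_⟩
        rcases (mem_E_iff hkx).1 h with h3 | h3
        · exact hcb (h3 ▸ hx)
        · exact hzb (by rw [h3, hoxz])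
      have h2 := le_dd (g := g) hkT hkz
      rw [hozx] at h2
      rw [hyx, hyz]
      linarith
  have h4 := weak_dual hB y hy0 hfeas
  have h5 : ∑ v, y v = ∑ v, G v + (g.D b S - g.dd b T) - g.dd b' T := by
    have h6 : ∀ v, y v = G v + (if v = b then g.D b S - g.dd b T else 0) +
        (if v = b' then - g.dd b' T else 0) := by
      intro v
      simp only [hy, hG]
      by_cases h7 : c v = c u
      · have h8 : v ≠ b := fun h => hcb (h ▸ h7)
        have h9 : v ≠ b' := fun h => hcb' (h ▸ h7)
        rw [if_pos h7, if_pos h7, if_neg h8, if_neg h9]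
        ring
      · rw [if_neg h7, if_neg h7]
        by_cases h8 : v = b
        · have h9 : v ≠ b' := fun h => hbb (by rw [← h, h8])
          rw [if_pos h8, if_pos h8, if_neg h9, h8]
          ring
        · rw [if_neg h8, if_neg h8]
          by_cases h9 : v = b'
          · rw [if_pos h9, if_pos h9, h9]
            ring
          · rw [if_neg h9, if_neg h9]
            ring
    rw [Finset.sum_congr rfl fun v _ => h6 v, Finset.sum_add_distrib, Finset.sum_add_distrib,
      Finset.sum_ite_eq', Finset.sum_ite_eq', if_pos (Finset.mem_univ _),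
      if_pos (Finset.mem_univ _)]
    ring
  have hjT : j ∈ T := by
    refine Finset.mem_sdiff.2 ⟨hjS, fun h => ?_⟩
    rcases (mem_E_iff hju).1 h with h3 | h3
    · exact ot_ne hB hiu h3
    · exact hbb h3.symm
  have h6 : (g.w j : ℤ) - g.D u T ≤ g.dd b' T := by
    have h7 := le_dd (g := g) hjT (mem_ot hju)
    rw [ot_ot hju] at h7
    exact h7
  have h7 : g.D u T + g.D b S = (g.w i : ℤ) := by
    have h8 : T \ g.E u = (S \ g.E u) \ g.E b := by
      rw [hT]
      ext k
      simp only [Finset.mem_sdiff]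
      tauto
    unfold MG.D
    rw [h8, ← hT]
    linarith
  have h8 := dd_nonneg (g := g) b T
  have h9 : ∑ v, G v ≤ g.nu T := hF
  linarith

/-- Job BC. Static inequality, from the exchange property for the same set. Take a maximum matching `M`
(`exists_opt`) and use `sum_le_nu` with `F v = if c v = t then D v S else dd v S`.
Uncovered `v`: if `c v = t`, `D_uncovered`. Else `dd_le` with `r = 0`: for an edge `k ∈ S` at `v` with other
end `z`: `w k - D z S ≤ 0`, since `D v (S \ E z) ≤ D v S = 0` by `M1` and `D_uncovered`, and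
`w k - D v (S \ E z) ≤ D z S` by `le_D` (at `z`; `ot k z = v`).
Covered: for `i ∈ M` exactly one of its ends `a`, `b` has colour `t`; call it `x` and the other `z`. To show
`D x S + dd z S ≤ w i`, i.e. `dd z S ≤ w i - D x S` by `dd_le`; `w i - D x S ≥ 0` by `D_le_w`; for an edge
`k ∈ S` at `z` with other end `x'`: `w k - D x' S ≤ w i - D x S` is `hE` for `u = z` (`opt_edge` gives `TopE`),
unfolding `D`. -/
theorem static_step (hB : TwoCol g c) {S : Finset ι} (t : Bool)
    (hE : ∀ u i j, TopE g u i S → j ∈ S → j ∈ g.E u →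
      (g.w j : ℤ) + g.nu (S \ g.E (g.ot j u)) ≤ (g.w i : ℤ) + g.nu (S \ g.E (g.ot i u))) :
    ∑ v, (if c v = t then g.D v S else g.dd v S) ≤ g.nu S := by
  obtain ⟨M, hs, hM, ho⟩ := exists_opt g S
  refine sum_le_nu hB hM ho (fun v => if c v = t then g.D v S else g.dd v S) ?_ ?_
  · intro v hv
    have hDv : g.D v S = 0 := D_uncovered hM hs ho hv
    by_cases hc : c v = t
    · simp only [if_pos hc]
      exact hDv.le
    · simp only [if_neg hc]
      refine dd_le le_rfl fun k hkS hkv => ?_
      have h1 := le_D hkS (mem_ot hkv)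
      rw [ot_ot hkv] at h1
      have h2 := M1 hB (col_ot hB hkv) S
      rw [hDv] at h2
      linarith
  · intro i hi
    obtain ⟨x, z, hx, hz, hix, hiz, hoxz, hozx, hF2⟩ := bc_ends hB i t
    rw [hF2 (fun v => if c v = t then g.D v S else g.dd v S)]
    simp only [if_pos hx, if_neg hz]
    have h1 : g.dd z S ≤ (g.w i : ℤ) - g.D x S := by
      refine dd_le ?_ fun k hkS hkz => ?_
      · have := D_le_w hM hs ho hi hix
        linarith
      · have h2 := hE z i k ⟨hs hi, hiz, opt_edge hM hs ho hi hiz⟩ hkS hkz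
        rw [hozx] at h2
        unfold MG.D
        linarith
    linarith

/-- Job BC. Strong induction on the size of `S`: the exchange property for `S` follows by
`exchange_step` from the static inequality for the smaller sets `S \ E (ot i u)` (`i` is removed), then
`static_step`. -/
theorem static (hB : TwoCol g c) (S : Finset ι) (t : Bool) :
    ∑ v, (if c v = t then g.D v S else g.dd v S) ≤ g.nu S := by
  induction h : S.card using Nat.strong_induction_on generalizing S t with
  | _ n ih =>
    refine static_step hB t fun u i j hi hj hju => ?_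
    refine exchange_step hB hi hj hju ?_
    refine ih (S \ g.E (g.ot i u)).card ?_ (S \ g.E (g.ot i u)) (c u) rfl
    rw [← h]
    refine Finset.card_lt_card ⟨Finset.sdiff_subset, fun h1 => ?_⟩
    exact (Finset.mem_sdiff.1 (h1 hi.1)).2 (mem_ot hi.2.1)

/-- Job BC. `exchange_step` with `static`. -/
theorem exchange (hB : TwoCol g c) {S : Finset ι} {u : V} {i j : ι} (hi : TopE g u i S)
    (hjS : j ∈ S) (hju : j ∈ g.E u) :
    (g.w j : ℤ) + g.nu (S \ g.E (g.ot j u)) ≤ (g.w i : ℤ) + g.nu (S \ g.E (g.ot i u)) := by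
  exact exchange_step hB hi hjS hju (static hB _ (c u))

/-- Job BC. Add `static` for both colours. -/
theorem static_sum (hB : TwoCol g c) (S : Finset ι) :
    ∑ v, (g.D v S + g.dd v S) ≤ 2 * g.nu S := by
  have h1 := static hB S true
  have h2 := static hB S false
  have h3 : ∑ v, (g.D v S + g.dd v S) =
      ∑ v, (if c v = true then g.D v S else g.dd v S) +
        ∑ v, (if c v = false then g.D v S else g.dd v S) := by
    rw [← Finset.sum_add_distrib]
    refine Finset.sum_congr rfl fun v _ => ?_
    cases hc : c v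
    · simp
      ring
    · simp
  rw [h3]
  linarith

end Pool.Agent.Lib.MP_7470b6_lc.Bip
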