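import Pool.Agent.Lib.MP_7470b6_lc.Crs.EVC

/-!
# Bipartite graphs, the Karp-Sipser constant: definitions

Finite multigraphs with natural weights. `D v S` is the loss of the maximum weight of a matching of
`S` when the vertex `v` is removed.
-/

open Finset

namespace Pool.Agent.Lib.MP_7470b6_lc.Bip

open Pool.Agent.Lib.MP_7470b6_lc.Crs

/-- A finite multigraph with weights: the edge `i` joins `a i` and `b i` and has weight `w i`. -/
structure MG (V ι : Type) where
  a : ι → V
  b : ι → V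
  w : ι → ℕ

variable {V ι : Type} [Fintype V] [DecidableEq V] [Fintype ι] [DecidableEq ι]

/-- The edges at the vertex `v`. -/
def MG.E (g : MG V ι) (v : V) : Finset ι := Finset.univ.filter (fun i => g.a i = v ∨ g.b i = v)

/-- The other end of the edge `i` at `v`. -/
def MG.ot (g : MG V ι) (i : ι) (v : V) : V := if g.a i = v then g.b i else g.a i

/-- Matchings. -/
def MG.IsM (g : MG V ι) (M : Finset ι) : Prop :=
  ∀ v, ∀ i ∈ M, ∀ j ∈ M, i ∈ g.E v → j ∈ g.E v → i = j

open Classical in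
/-- The maximum weight of a matching contained in `S`. -/
noncomputable def MG.nu (g : MG V ι) (S : Finset ι) : ℤ :=
  (((S.powerset.filter (fun M => g.IsM M)).sup (fun M => ∑ i ∈ M, g.w i) : ℕ) : ℤ)

/-- The loss of the vertex `v`. -/
noncomputable def MG.D (g : MG V ι) (v : V) (S : Finset ι) : ℤ := g.nu S - g.nu (S \ g.E v)

/-- The minimal dual value of the vertex `v`: the maximum of `0` and of `w i - D (ot i v) S` for the
edges `i ∈ S` at `v`. -/
noncomputable def MG.dd (g : MG V ι) (v : V) (S : Finset ι) : ℤ :=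
  (((S ∩ g.E v).sup (fun i => ((g.w i : ℤ) - g.D (g.ot i v) S).toNat) : ℕ) : ℤ)

/-- The edges join vertices of different colours. -/
structure TwoCol (g : MG V ι) (c : V → Bool) : Prop where
  ha : ∀ i, c (g.a i) = true
  hb : ∀ i, c (g.b i) = false

/-- Parallel edges have the same weight. -/
def MG.Par (g : MG V ι) : Prop := ∀ i j, ∀ v, i ∈ g.E v → j ∈ g.E v → g.ot i v = g.ot j v → g.w i = g.w j

/-- `1` if the edge `i` at `u` is good at level `s`: `D (ot i u) (S - u) + s < w i`. -/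
noncomputable def MG.gd (g : MG V ι) (u : V) (s : ℕ) (i : ι) (S : Finset ι) : ℝ :=
  if g.D (g.ot i u) (S \ g.E u) + (s : ℤ) < (g.w i : ℤ) then 1 else 0

/-- Number of present good edges at `u` at level `s`. -/
noncomputable def MG.cnt (g : MG V ι) (u : V) (s : ℕ) (S : Finset ι) : ℕ :=
  ((S ∩ g.E u).filter (fun i => g.D (g.ot i u) (S \ g.E u) + (s : ℤ) < (g.w i : ℤ))).card

/-- `al i u S`: value of the edge `i` at `u`, when `u` is removed from `S`. -/
noncomputable def MG.al (g : MG V ι) (i : ι) (u : V) (S : Finset ι) : ℤ :=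
  max 0 ((g.w i : ℤ) - g.D (g.ot i u) (S \ g.E u))

/-- `be i u S`: value of the edge `i` at `u`, when only `i` is removed from `S`. -/
noncomputable def MG.be (g : MG V ι) (i : ι) (u : V) (S : Finset ι) : ℤ :=
  max 0 ((g.w i : ℤ) - g.D (g.ot i u) (S.erase i))

/-- Expected good load of `u` at level `s`, given `S - u`. -/
noncomputable def MG.m (g : MG V ι) (p : ι → ℝ) (u : V) (s : ℕ) (S : Finset ι) : ℝ :=
  ∑ i ∈ g.E u, p i * g.gd u s i S

/-- Load of `u` at level `s`. -/
noncomputable def MG.dl (g : MG V ι) (p : ι → ℝ) (u : V) (s : ℕ) : ℝ :=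
  ∑ i ∈ g.E u, if s < g.w i then p i else 0

/-- `th p F v r S`: the conditional probability, given `S - v`, that `D v (S ∩ F) ≤ r`. -/
noncomputable def MG.th (g : MG V ι) (p : ι → ℝ) (F : Finset ι) (v : V) (r : ℕ) (S : Finset ι) : ℝ :=
  ∏ j ∈ g.E v ∩ F, (1 - p j *
    (if g.D (g.ot j v) ((S ∩ F) \ g.E v) + (r : ℤ) < (g.w j : ℤ) then 1 else 0))

/-- The interaction of the ends of the edges `i`, `j` at `u`. -/
noncomputable def MG.c2 (g : MG V ι) (u : V) (i j : ι) (S : Finset ι) : ℤ :=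
  max 0 (min ((g.w i : ℤ) - g.D (g.ot i u) (S \ g.E u)) ((g.w j : ℤ) - g.D (g.ot j u) (S \ g.E u))) -
  max 0 (min ((g.w i : ℤ) - g.D (g.ot i u) ((S \ g.E u) \ g.E (g.ot j u)))
    ((g.w j : ℤ) - g.D (g.ot j u) ((S \ g.E u) \ g.E (g.ot i u))))

/-- Expectation over the random set of edges. -/
noncomputable abbrev EV (p : ι → ℝ) (f : Finset ι → ℝ) : ℝ := ev (Finset.univ : Finset ι) p f

/-- Hypotheses on the probabilities: small, load at most `1` at every vertex. -/
structure LoadOk (g : MG V ι) (p : ι → ℝ) (eps : ℝ) : Prop where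
  nonneg : ∀ i, 0 ≤ p i
  small : ∀ i, p i ≤ eps
  load : ∀ v, ∑ i ∈ g.E v, p i ≤ 1

/-- The constant `c₀ < 1/e`. -/
noncomputable def c0 : ℝ := 0.3678

/-- The multiplier `lam`. -/
noncomputable def lam : ℝ := 0.0423

/-- `∑ i ∈ E u, p i * ∑ r < w i, E (th F (ot i u) r) ^ k` for the sets `F = F u i`. -/
noncomputable def MG.SS (g : MG V ι) (p : ι → ℝ) (F : V → ι → Finset ι) (k : ℕ) : ℝ :=
  ∑ u, ∑ i ∈ g.E u, p i * ∑ r ∈ range (g.w i), EV p (fun S => (g.th p (F u i) (g.ot i u) r S) ^ k)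

/-- All edges except those at `u`. -/
def MG.FA (g : MG V ι) (u : V) (_ : ι) : Finset ι := univ \ g.E u

/-- All edges except those parallel to `i`. -/
def MG.FM (g : MG V ι) (u : V) (i : ι) : Finset ι := univ \ (g.E (g.ot i u) ∩ g.E u)

/-- All edges. -/
def MG.FZ (_ : MG V ι) (_ : V) (_ : ι) : Finset ι := univ

/-- The weighted number of interactions. -/
noncomputable def MG.WW (g : MG V ι) (p : ι → ℝ) : ℝ :=
  ∑ u, ∑ i ∈ g.E u, ∑ j ∈ (g.E u).filter (fun j => g.ot j u ≠ g.ot i u),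
    p i * p j * EV p (fun S => (g.c2 u i j S : ℝ))

/-- The contribution of the parallel pairs: `x` is the load of the good edges parallel to `i`. -/
noncomputable def MG.XX (g : MG V ι) (p : ι → ℝ) (u : V) (i : ι) (s : ℕ) (S : Finset ι) : ℝ :=
  ∑ j ∈ g.E u ∩ g.E (g.ot i u), p j * g.gd u s j S

/-- The contribution of the parallel pairs. -/
noncomputable def MG.DG (g : MG V ι) (p : ι → ℝ) : ℝ :=
  ∑ u, ∑ i ∈ g.E u, p i * ∑ s ∈ range (g.w i), EV p (fun S => g.XX p u i s S)

end Pool.Agent.Lib.MP_7470b6_lc.Bip
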