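import Pool.Agent.Lib.MP_7470b6_lc.Bip.BC

/-!
# The inequality at a vertex
-/

open Finset

namespace Pool.Agent.Lib.MP_7470b6_lc.Bip

open Pool.Agent.Lib.MP_7470b6_lc.Crs

variable {V ι : Type} [Fintype V] [DecidableEq V] [Fintype ι] [DecidableEq ι] {g : MG V ι}
  {c : V → Bool}

/-- The number of levels below `x`. -/
private theorem be_level {x : ℤ} (hx : 0 ≤ x) (N : ℕ) :
    ∑ s ∈ range N, (if (s : ℤ) < x then (1 : ℤ) else 0) ≤ x := by
  have h1 : ∑ s ∈ range N, (if (s : ℤ) < x then (1 : ℤ) else 0) =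
      (((range N).filter (fun s : ℕ => (s : ℤ) < x)).card : ℤ) := by
    rw [Finset.card_filter]
    push_cast
    rfl
  rw [h1]
  have h2 : ((range N).filter (fun s : ℕ => (s : ℤ) < x)).card ≤ (range x.toNat).card := by
    apply Finset.card_le_card
    intro s hs
    rw [mem_filter] at hs
    rw [mem_range]
    omega
  rw [Finset.card_range] at h2
  have h3 : (((range N).filter (fun s : ℕ => (s : ℤ) < x)).card : ℤ) ≤ (x.toNat : ℤ) := by
    exact_mod_cast h2
  rw [Int.toNat_of_nonneg hx] at h3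
  exact h3

/-- Job BE. `min (card) 2 ≤ [s < f i₁] + [s < f i₂]` for every `s`, and `∑ s < N, [s < f] ≤ f` for
`f ≥ 0`. -/
theorem two_top {A : Finset ι} {f : ι → ℤ} {i₁ i₂ : ι} (h1 : ∀ j ∈ A, f j ≤ f i₁)
    (h2 : ∀ j ∈ A, j ≠ i₁ → f j ≤ f i₂) (hf1 : 0 ≤ f i₁) (hf2 : 0 ≤ f i₂) (N : ℕ) :
    ∑ s ∈ range N, ((min (A.filter (fun i => (s : ℤ) < f i)).card 2 : ℕ) : ℤ) ≤ f i₁ + f i₂ := by
  classical
  have key : ∀ s ∈ range N, ((min (A.filter (fun i => (s : ℤ) < f i)).card 2 : ℕ) : ℤ) ≤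
      (if (s : ℤ) < f i₁ then (1 : ℤ) else 0) + (if (s : ℤ) < f i₂ then (1 : ℤ) else 0) := by
    intro s _
    rcases (A.filter (fun i => (s : ℤ) < f i)).eq_empty_or_nonempty with h0 | ⟨j, hj⟩
    · rw [h0]
      simp only [Finset.card_empty]
      split_ifs <;> norm_num
    · rw [mem_filter] at hj
      have hs1 : (s : ℤ) < f i₁ := lt_of_lt_of_le hj.2 (h1 j hj.1)
      rw [if_pos hs1]
      by_cases hc : 1 < (A.filter (fun i => (s : ℤ) < f i)).card
      · obtain ⟨k, hk, hk1⟩ := Finset.exists_mem_ne hc i₁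
        rw [mem_filter] at hk
        have hs2 : (s : ℤ) < f i₂ := lt_of_lt_of_le hk.2 (h2 k hk.1 hk1)
        rw [if_pos hs2]
        have : min (A.filter (fun i => (s : ℤ) < f i)).card 2 ≤ 2 := min_le_right _ _
        have h3 : ((min (A.filter (fun i => (s : ℤ) < f i)).card 2 : ℕ) : ℤ) ≤ 2 := by
          exact_mod_cast this
        linarith
      · have : min (A.filter (fun i => (s : ℤ) < f i)).card 2 ≤ 1 :=
          le_trans (min_le_left _ _) (not_lt.mp hc)
        have h3 : ((min (A.filter (fun i => (s : ℤ) < f i)).card 2 : ℕ) : ℤ) ≤ 1 := by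
          exact_mod_cast this
        split_ifs <;> linarith
  calc ∑ s ∈ range N, ((min (A.filter (fun i => (s : ℤ) < f i)).card 2 : ℕ) : ℤ)
      ≤ ∑ s ∈ range N, ((if (s : ℤ) < f i₁ then (1 : ℤ) else 0) +
          (if (s : ℤ) < f i₂ then (1 : ℤ) else 0)) := Finset.sum_le_sum key
    _ = ∑ s ∈ range N, (if (s : ℤ) < f i₁ then (1 : ℤ) else 0) +
          ∑ s ∈ range N, (if (s : ℤ) < f i₂ then (1 : ℤ) else 0) := Finset.sum_add_distrib
    _ ≤ f i₁ + f i₂ := add_le_add (be_level hf1 N) (be_level hf2 N)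

/-- Job BE. As `two_top`, with only one element. -/
theorem one_top {A : Finset ι} {f : ι → ℤ} {i₁ : ι} (h1 : ∀ j ∈ A, j = i₁) (hf1 : 0 ≤ f i₁) (N : ℕ) :
    ∑ s ∈ range N, ((min (A.filter (fun i => (s : ℤ) < f i)).card 2 : ℕ) : ℤ) ≤ f i₁ := by
  classical
  have key : ∀ s ∈ range N, ((min (A.filter (fun i => (s : ℤ) < f i)).card 2 : ℕ) : ℤ) ≤
      (if (s : ℤ) < f i₁ then (1 : ℤ) else 0) := by
    intro s _
    rcases (A.filter (fun i => (s : ℤ) < f i)).eq_empty_or_nonempty with h0 | ⟨j, hj⟩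
    · rw [h0]
      simp only [Finset.card_empty]
      split_ifs <;> norm_num
    · rw [mem_filter] at hj
      have hs1 : (s : ℤ) < f i₁ := by rw [← h1 j hj.1]; exact hj.2
      rw [if_pos hs1]
      have hc : (A.filter (fun i => (s : ℤ) < f i)).card ≤ 1 := by
        rw [Finset.card_le_one]
        intro x hx y hy
        rw [h1 x (mem_filter.mp hx).1, h1 y (mem_filter.mp hy).1]
      have : min (A.filter (fun i => (s : ℤ) < f i)).card 2 ≤ 1 :=
        le_trans (min_le_left _ _) hc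
      exact_mod_cast this
  exact le_trans (Finset.sum_le_sum key) (be_level hf1 N)

/-- Job BE. `(s : ℤ) < max 0 x ↔ s < x`. -/
theorem cnt_eq (u : V) (s : ℕ) (S : Finset ι) :
    g.cnt u s S = ((S ∩ g.E u).filter (fun i => (s : ℤ) < g.al i u S)).card := by
  unfold MG.cnt MG.al
  congr 1
  apply Finset.filter_congr
  intro i _
  constructor
  · intro h
    rw [lt_max_iff]
    right
    linarith
  · intro h
    rw [lt_max_iff] at h
    rcases h with h | h
    · exfalso
      omega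
    · linarith

/-- `(S.erase i) \ E v = S \ E v` for an edge `i` at `v`. -/
private theorem be_erase_sdiff {i : ι} {v : V} (hi : i ∈ g.E v) (S : Finset ι) :
    (S.erase i) \ g.E v = S \ g.E v := by
  ext j
  rw [mem_sdiff, mem_sdiff, mem_erase]
  constructor
  · rintro ⟨⟨-, h1⟩, h2⟩
    exact ⟨h1, h2⟩
  · rintro ⟨h1, h2⟩
    refine ⟨⟨?_, h1⟩, h2⟩
    rintro rfl
    exact h2 hi

/-- Job BE. `M1` for `S.erase i`: `(S.erase i) \ E u = S \ E u`, so
`D b (S \ E u) ≤ D b (S.erase i)`, `b = ot i u`. -/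
theorem be_le_al (hB : TwoCol g c) {i : ι} {u : V} (hu : i ∈ g.E u) (S : Finset ι) :
    g.be i u S ≤ g.al i u S := by
  unfold MG.be MG.al
  have h1 := M1 hB (col_ot hB hu).symm (S.erase i)
  rw [be_erase_sdiff hu] at h1
  exact max_le_max (le_refl _) (by linarith)

/-- Job BE. `dd u S ≥ w i - D b S = w i - ν(S) + ν(S \ E b) = ν(S \ E b) - ν(S \ E u \ E b)`. -/
theorem top_dd {i : ι} {u : V} {S : Finset ι} (h : TopE g u i S) :
    g.D u (S \ g.E (g.ot i u)) ≤ g.dd u S := by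
  obtain ⟨h1, h2, h3⟩ := h
  have h4 := le_dd h1 h2
  have h5 : (S \ g.E (g.ot i u)) \ g.E u = (S \ g.E u) \ g.E (g.ot i u) := sdiff_right_comm _ _ _
  unfold MG.D at h4 ⊢
  rw [h5]
  linarith

/-- Job BE. Let `b = ot i u`, `q = D u (S \ E b)`. `ν(S - i) ≥ ν(S \ E u) + al j` (if `al j = 0` by
monotonicity, else by `add_le_nu` for `j ∈ S - i`, where `(S - i) \ E u = S \ E u`). Hence
`w i - D b (S - i) = w i - ν(S - i) + ν(S \ E b) ≤ w i + ν(S \ E b) - ν(S \ E u) - al j`
`= (w i - D b (S \ E u)) + q - al j ≤ al i + q - al j`, and `0 ≤ al i + q - al j`. -/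
theorem top_gain {i j : ι} {u : V} {S : Finset ι} (h : TopE g u i S) (hj : j ∈ S)
    (hju : j ∈ g.E u) (hne : j ≠ i) (hal : g.al j u S ≤ g.al i u S) :
    g.al j u S - g.D u (S \ g.E (g.ot i u)) ≤ g.al i u S - g.be i u S := by
  obtain ⟨h1, h2, h3⟩ := h
  have h5 : (S \ g.E (g.ot i u)) \ g.E u = (S \ g.E u) \ g.E (g.ot i u) := sdiff_right_comm _ _ _
  have hq : 0 ≤ g.D u (S \ g.E (g.ot i u)) := D_nonneg _ _
  -- the value of `j`
  have hj1 : j ∈ S.erase i := mem_erase.mpr ⟨hne, hj⟩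
  have h6 : g.nu (S \ g.E u) + g.al j u S ≤ g.nu (S.erase i) := by
    have h7 := add_le_nu hj1 hju
    rw [be_erase_sdiff h2] at h7
    have h8 : g.nu (S \ g.E u) ≤ g.nu (S.erase i) := by
      rw [← be_erase_sdiff h2]
      exact nu_mono sdiff_subset
    unfold MG.al MG.D
    rcases le_total ((g.w j : ℤ) - (g.nu (S \ g.E u) - g.nu ((S \ g.E u) \ g.E (g.ot j u)))) 0 with
      h9 | h9
    · rw [max_eq_left h9]
      linarith
    · rw [max_eq_right h9]
      linarith
  have h7 : (g.w i : ℤ) - g.D (g.ot i u) (S \ g.E u) ≤ g.al i u S := le_max_right _ _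
  have h8 : g.be i u S ≤ g.al i u S + g.D u (S \ g.E (g.ot i u)) - g.al j u S := by
    unfold MG.be
    refine max_le (by linarith) ?_
    have h9 : g.D (g.ot i u) (S.erase i) = g.nu (S.erase i) - g.nu (S \ g.E (g.ot i u)) := by
      unfold MG.D
      rw [be_erase_sdiff (mem_ot h2)]
    have h10 : g.D u (S \ g.E (g.ot i u)) =
        g.nu (S \ g.E (g.ot i u)) - g.nu ((S \ g.E u) \ g.E (g.ot i u)) := by
      unfold MG.D
      rw [h5]
    have h11 : g.D (g.ot i u) (S \ g.E u) =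
        g.nu (S \ g.E u) - g.nu ((S \ g.E u) \ g.E (g.ot i u)) := rfl
    rw [h9, h10]
    rw [h11] at h7
    linarith
  linarith

/-- Job BE. `be j ≤ q`: with `b' = ot j u`, `w j - D b' (S - j) = w j - ν(S - j) + ν(S \ E b')`,
`ν(S - j) ≥ ν(S)` (`add_le_nu` for `i ∈ S - j` and `TopE`), and by `exchange` and `TopE`
`w j - ν(S) + ν(S \ E b') ≤ w i - ν(S) + ν(S \ E b) = q`. -/
theorem second_gain (hB : TwoCol g c) {i j : ι} {u : V} {S : Finset ι} (h : TopE g u i S)
    (hj : j ∈ S) (hju : j ∈ g.E u) (hne : j ≠ i) :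
    g.al j u S - g.D u (S \ g.E (g.ot i u)) ≤ g.al j u S - g.be j u S := by
  have hex := exchange hB h hj hju
  obtain ⟨h1, h2, h3⟩ := h
  have h5 : (S \ g.E (g.ot i u)) \ g.E u = (S \ g.E u) \ g.E (g.ot i u) := sdiff_right_comm _ _ _
  have hi1 : i ∈ S.erase j := mem_erase.mpr ⟨hne.symm, h1⟩
  have h6 : g.nu S ≤ g.nu (S.erase j) := by
    have h7 := add_le_nu hi1 h2
    rw [be_erase_sdiff hju] at h7
    linarith
  have h8 : g.be j u S ≤ g.D u (S \ g.E (g.ot i u)) := by
    unfold MG.be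
    refine max_le (D_nonneg _ _) ?_
    have h9 : g.D (g.ot j u) (S.erase j) = g.nu (S.erase j) - g.nu (S \ g.E (g.ot j u)) := by
      unfold MG.D
      rw [be_erase_sdiff (mem_ot hju)]
    have h10 : g.D u (S \ g.E (g.ot i u)) =
        g.nu (S \ g.E (g.ot i u)) - g.nu ((S \ g.E u) \ g.E (g.ot i u)) := by
      unfold MG.D
      rw [h5]
    rw [h9, h10]
    linarith
  linarith

/-- Job BE. If `D u S = 0` all `al i u S` are `0` (`le_D`), so the left side is `0`; the right side is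
`≥ 0`. Else `exists_D` gives `i` with `TopE g u i S`, `al i = D u S ≥ al j` for all `j ∈ S ∩ E u` (`le_D`).
If `i` is the only edge of `S` at `u`: `one_top`. Otherwise let `j ≠ i` have maximal `al j`:
`two_top`, `top_dd`, `top_gain`, `second_gain`, and `be_le_al` for the other edges. -/
theorem per_vertex (hB : TwoCol g c) (u : V) (S : Finset ι) (N : ℕ) :
    2 * ∑ s ∈ range N, ((min (g.cnt u s S) 2 : ℕ) : ℤ) ≤
      2 * (g.D u S + g.dd u S) + ∑ i ∈ S ∩ g.E u, (g.al i u S - g.be i u S) := by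
  classical
  have hsum : ∀ B : Finset ι, B ⊆ S ∩ g.E u → 0 ≤ ∑ i ∈ B, (g.al i u S - g.be i u S) := by
    intro B hBs
    apply Finset.sum_nonneg
    intro i hi
    have := be_le_al hB (mem_inter.mp (hBs hi)).2 S
    linarith
  have hal0 : ∀ i, 0 ≤ g.al i u S := fun i => le_max_left _ _
  have hal1 : ∀ i ∈ S ∩ g.E u, g.al i u S ≤ g.D u S := by
    intro i hi
    rw [mem_inter] at hi
    exact max_le (D_nonneg _ _) (le_D hi.1 hi.2)
  have hcnt : ∀ s ∈ range N, ((min (g.cnt u s S) 2 : ℕ) : ℤ) =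
      ((min ((S ∩ g.E u).filter (fun i => (s : ℤ) < g.al i u S)).card 2 : ℕ) : ℤ) := by
    intro s _
    rw [cnt_eq]
  rw [Finset.sum_congr rfl hcnt]
  have hdd := dd_nonneg (g := g) u S
  have hD := D_nonneg (g := g) u S
  rcases hD.lt_or_eq with hpos | hzero
  · obtain ⟨i, hiS, hiu, hi⟩ := exists_D hpos
    have hali : g.al i u S = g.D u S := by
      unfold MG.al
      rw [← hi]
      exact max_eq_right hD
    have hT : TopE g u i S := by
      refine ⟨hiS, hiu, ?_⟩
      unfold MG.D at hi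
      linarith
    have hiA : i ∈ S ∩ g.E u := mem_inter.mpr ⟨hiS, hiu⟩
    by_cases hone : ∀ j ∈ S ∩ g.E u, j = i
    · have h1 := one_top (A := S ∩ g.E u) (f := fun i => g.al i u S) hone (hal0 i) N
      have h2 := hsum _ (Finset.Subset.refl _)
      rw [hali] at h1
      linarith
    · push Not at hone
      obtain ⟨j0, hj0, hj0i⟩ := hone
      obtain ⟨j, hj, hjmax⟩ := Finset.exists_max_image ((S ∩ g.E u).erase i)
        (fun i => g.al i u S) ⟨j0, mem_erase.mpr ⟨hj0i, hj0⟩⟩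
      have hj' := hj
      rw [mem_erase, mem_inter] at hj
      obtain ⟨hji, hjS, hju⟩ := hj
      have hjA : j ∈ S ∩ g.E u := mem_inter.mpr ⟨hjS, hju⟩
      have h1 := two_top (A := S ∩ g.E u) (f := fun i => g.al i u S) (i₁ := i) (i₂ := j)
        (by intro k hk; rw [hali]; exact hal1 k hk)
        (by intro k hk hki; exact hjmax k (mem_erase.mpr ⟨hki, hk⟩)) (hal0 i) (hal0 j) N
      have h2 := top_dd hT
      have h3 := top_gain hT hjS hju hji (by rw [hali]; exact hal1 j hjA)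
      have h4 := second_gain hB hT hjS hju hji
      have h5 : (g.al i u S - g.be i u S) + (g.al j u S - g.be j u S) ≤
          ∑ i ∈ S ∩ g.E u, (g.al i u S - g.be i u S) := by
        rw [← Finset.add_sum_erase _ _ hiA, ← Finset.add_sum_erase _ _ hj']
        have h6 := hsum (((S ∩ g.E u).erase i).erase j)
          ((Finset.erase_subset _ _).trans (Finset.erase_subset _ _))
        linarith
      linarith
  · have h1 : ∑ s ∈ range N,
        ((min ((S ∩ g.E u).filter (fun i => (s : ℤ) < g.al i u S)).card 2 : ℕ) : ℤ) = 0 := by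
      apply Finset.sum_eq_zero
      intro s _
      have h2 : (S ∩ g.E u).filter (fun i => (s : ℤ) < g.al i u S) = ∅ := by
        rw [Finset.filter_eq_empty_iff]
        intro i hi hs
        have h3 := hal1 i hi
        rw [← hzero] at h3
        omega
      rw [h2]
      simp
    rw [h1]
    have h2 := hsum _ (Finset.Subset.refl _)
    linarith

/-- Job BE. Sum `per_vertex` and use `static_sum`. -/
theorem det_main (hB : TwoCol g c) (S : Finset ι) (N : ℕ) :
    2 * ∑ u, ∑ s ∈ range N, ((min (g.cnt u s S) 2 : ℕ) : ℤ) ≤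
      4 * g.nu S + ∑ u, ∑ i ∈ S ∩ g.E u, (g.al i u S - g.be i u S) := by
  have h1 : ∑ u, (2 * ∑ s ∈ range N, ((min (g.cnt u s S) 2 : ℕ) : ℤ)) ≤
      ∑ u, (2 * (g.D u S + g.dd u S) + ∑ i ∈ S ∩ g.E u, (g.al i u S - g.be i u S)) :=
    Finset.sum_le_sum (fun u _ => per_vertex hB u S N)
  rw [← Finset.mul_sum, Finset.sum_add_distrib, ← Finset.mul_sum] at h1
  have h2 := static_sum hB S
  linarith

end Pool.Agent.Lib.MP_7470b6_lc.Bip
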