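import Pool.Agent.Lib.MP_7470b6_lc.Bip.BA

/-!
# Ends of edges
-/

open Finset

namespace Pool.Agent.Lib.MP_7470b6_lc.Bip

open Pool.Agent.Lib.MP_7470b6_lc.Crs

variable {V ι : Type} [Fintype V] [DecidableEq V] [Fintype ι] [DecidableEq ι] {g : MG V ι}
  {c : V → Bool}

/-- Job BO. -/
theorem col_ot (hB : TwoCol g c) {i : ι} {v : V} (hi : i ∈ g.E v) : c (g.ot i v) ≠ c v := by
  have h1 := mem_E.1 hi
  unfold MG.ot
  by_cases h : g.a i = v
  · rw [if_pos h, hB.hb i, ← h, hB.ha i]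
    simp
  · have h2 : g.b i = v := h1.resolve_left h
    rw [if_neg h, hB.ha i, ← h2, hB.hb i]
    simp

/-- Job BO. -/
theorem ot_ne (hB : TwoCol g c) {i : ι} {v : V} (hi : i ∈ g.E v) : g.ot i v ≠ v :=
  fun h => col_ot hB hi (congrArg c h)

/-- Job BO. -/
theorem mem_ot {i : ι} {v : V} (hi : i ∈ g.E v) : i ∈ g.E (g.ot i v) := by
  have _ := hi
  rw [mem_E]
  unfold MG.ot
  by_cases h : g.a i = v
  · rw [if_pos h]
    exact Or.inr rfl
  · rw [if_neg h]
    exact Or.inl rfl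

/-- Job BO. -/
theorem ot_ot {i : ι} {v : V} (hi : i ∈ g.E v) : g.ot i (g.ot i v) = v := by
  have h1 := mem_E.1 hi
  unfold MG.ot
  by_cases h : g.a i = v
  · rw [if_pos h]
    by_cases h2 : g.a i = g.b i
    · rw [if_pos h2, ← h2, h]
    · rw [if_neg h2, h]
  · rw [if_neg h, if_pos rfl]
    exact h1.resolve_left h

/-- Job BO. -/
theorem mem_E_iff {i : ι} {v z : V} (hi : i ∈ g.E v) : i ∈ g.E z ↔ z = v ∨ z = g.ot i v := by
  have h1 := mem_E.1 hi
  rw [mem_E]
  unfold MG.ot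
  by_cases h : g.a i = v
  · rw [if_pos h, h]
    constructor
    · rintro (h2 | h2)
      · exact Or.inl h2.symm
      · exact Or.inr h2.symm
    · rintro (h2 | h2)
      · exact Or.inl h2.symm
      · exact Or.inr h2.symm
  · have h2 : g.b i = v := h1.resolve_left h
    rw [if_neg h, h2]
    constructor
    · rintro (h3 | h3)
      · exact Or.inr h3.symm
      · exact Or.inl h3.symm
    · rintro (h3 | h3)
      · exact Or.inr h3.symm
      · exact Or.inl h3.symm

/-- Job BO. Vertices of the same colour have no common edge. -/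
theorem E_disj (hB : TwoCol g c) {u v : V} (h : c u = c v) (hne : u ≠ v) :
    Disjoint (g.E u) (g.E v) := by
  rw [Finset.disjoint_left]
  intro i hi hi'
  rcases (mem_E_iff hi).1 hi' with h1 | h1
  · exact hne h1.symm
  · exact col_ot hB hi (by rw [← h1, h])

/-- Job BO. Edges at `u` which are parallel to `i`. -/
theorem mem_par {i j : ι} {u : V} (hB : TwoCol g c) (hi : i ∈ g.E u) :
    j ∈ g.E u ∩ g.E (g.ot i u) ↔ j ∈ g.E u ∧ g.ot j u = g.ot i u := by
  rw [Finset.mem_inter]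
  constructor
  · rintro ⟨h1, h2⟩
    refine ⟨h1, ?_⟩
    rcases (mem_E_iff h1).1 h2 with h3 | h3
    · exact absurd h3 (ot_ne hB hi)
    · exact h3.symm
  · rintro ⟨h1, h2⟩
    refine ⟨h1, ?_⟩
    rw [← h2]
    exact mem_ot h1

/-- Job BO. Each edge has two directions. -/
theorem sum_dir (hB : TwoCol g c) (F : V → ι → ℝ) :
    ∑ u, ∑ i ∈ g.E u, F u i = ∑ u, ∑ i ∈ g.E u, F (g.ot i u) i := by
  have _ := hB
  rw [Finset.sum_sigma', Finset.sum_sigma']
  refine Finset.sum_bij' (fun x _ => ⟨g.ot x.2 x.1, x.2⟩) (fun x _ => ⟨g.ot x.2 x.1, x.2⟩) ?_ ?_ ?_ ?_ ?_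
  · intro x hx
    rw [Finset.mem_sigma] at hx ⊢
    exact ⟨Finset.mem_univ _, mem_ot hx.2⟩
  · intro x hx
    rw [Finset.mem_sigma] at hx ⊢
    exact ⟨Finset.mem_univ _, mem_ot hx.2⟩
  · intro x hx
    rw [Finset.mem_sigma] at hx
    change (⟨g.ot x.2 (g.ot x.2 x.1), x.2⟩ : (_ : V) × ι) = x
    rw [ot_ot hx.2]
  · intro x hx
    rw [Finset.mem_sigma] at hx
    change (⟨g.ot x.2 (g.ot x.2 x.1), x.2⟩ : (_ : V) × ι) = x
    rw [ot_ot hx.2]
  · intro x hx
    rw [Finset.mem_sigma] at hx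
    change F x.1 x.2 = F (g.ot x.2 (g.ot x.2 x.1)) x.2
    rw [ot_ot hx.2]

/-- Job BO. Each edge has two directions. -/
theorem sum_two (hB : TwoCol g c) (F : ι → ℝ) :
    ∑ u, ∑ i ∈ g.E u, F i = 2 * ∑ i, F i := by
  have h1 : ∑ u, ∑ i ∈ g.E u, F i = ∑ u, ∑ i, if i ∈ g.E u then F i else 0 := by
    refine Finset.sum_congr rfl fun u _ => ?_
    rw [← Finset.sum_filter]
    refine Finset.sum_congr ?_ fun _ _ => rfl
    ext i
    simp
  rw [h1, Finset.sum_comm, Finset.mul_sum]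
  refine Finset.sum_congr rfl fun i _ => ?_
  have h2 : (Finset.univ.filter fun u => i ∈ g.E u) = {g.a i, g.b i} := by
    ext u
    rw [Finset.mem_filter, mem_E, Finset.mem_insert, Finset.mem_singleton]
    constructor
    · rintro ⟨-, h3 | h3⟩
      · exact Or.inl h3.symm
      · exact Or.inr h3.symm
    · rintro (h3 | h3)
      · exact ⟨Finset.mem_univ _, Or.inl h3.symm⟩
      · exact ⟨Finset.mem_univ _, Or.inr h3.symm⟩
  have hne : g.a i ≠ g.b i := by
    intro h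
    have h4 := hB.ha i
    rw [h, hB.hb i] at h4
    exact absurd h4 (by decide)
  rw [← Finset.sum_filter, h2, Finset.sum_pair hne]
  ring

end Pool.Agent.Lib.MP_7470b6_lc.Bip
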