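import Pool.Agent.Lib.MP_7470b6_lc.Bip.BO

/-!
# The recursion for the loss
-/

open Finset

namespace Pool.Agent.Lib.MP_7470b6_lc.Bip

open Pool.Agent.Lib.MP_7470b6_lc.Crs

variable {V ι : Type} [Fintype V] [DecidableEq V] [Fintype ι] [DecidableEq ι] {g : MG V ι}
  {c : V → Bool}

private theorem add_le_nu' {i : ι} {u : V} {S : Finset ι} (hi : i ∈ S) (hu : i ∈ g.E u) :
    (g.w i : ℤ) + g.nu ((S \ g.E u) \ g.E (g.ot i u)) ≤ g.nu S := by
  obtain ⟨M, hs, hM, ho⟩ := exists_opt g ((S \ g.E u) \ g.E (g.ot i u))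
  have hu1 : ∀ k ∈ M, k ∉ g.E u := fun k hk =>
    (Finset.mem_sdiff.1 (Finset.mem_sdiff.1 (hs hk)).1).2
  have hu2 : ∀ k ∈ M, k ∉ g.E (g.ot i u) := fun k hk => (Finset.mem_sdiff.1 (hs hk)).2
  have hiM : i ∉ M := fun h => hu1 i h hu
  have hM' : g.IsM (insert i M) := by
    intro v j hj k hk hjv hkv
    rw [Finset.mem_insert] at hj hk
    rcases hj with rfl | hj
    · rcases hk with rfl | hk
      · rfl
      · rcases (mem_E_iff hu).1 hjv with rfl | rfl
        · exact absurd hkv (hu1 k hk)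
        · exact absurd hkv (hu2 k hk)
    · rcases hk with rfl | hk
      · rcases (mem_E_iff hu).1 hkv with rfl | rfl
        · exact absurd hjv (hu1 j hj)
        · exact absurd hjv (hu2 j hj)
      · exact hM v j hj k hk hjv hkv
  have h1 := le_nu hM' (show insert i M ⊆ S from Finset.insert_subset hi fun k hk =>
    (Finset.mem_sdiff.1 (Finset.mem_sdiff.1 (hs hk)).1).1)
  rw [Finset.sum_insert hiM, ← ho] at h1
  exact h1

/-- Job BP. `ν(S) ≥ w i + ν(S - u - ot i u)`: add the edge `i` to a maximum matching of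
`S \ E u \ E (ot i u)`. Then unfold `D`. -/
theorem le_D {i : ι} {u : V} {S : Finset ι} (hi : i ∈ S) (hu : i ∈ g.E u) :
    (g.w i : ℤ) - g.D (g.ot i u) (S \ g.E u) ≤ g.D u S := by
  have h := add_le_nu' hi hu
  unfold MG.D
  linarith

/-- Job BP. The same without `D`. -/
theorem add_le_nu {i : ι} {u : V} {S : Finset ι} (hi : i ∈ S) (hu : i ∈ g.E u) :
    (g.w i : ℤ) + g.nu ((S \ g.E u) \ g.E (g.ot i u)) ≤ g.nu S := by
  exact add_le_nu' hi hu

/-- Job BP. An edge of a maximum matching. (`M.erase i` is a matching of `S \ E u \ E (ot i u)`.) -/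
theorem opt_edge {i : ι} {u : V} {M S : Finset ι} (hM : g.IsM M) (hs : M ⊆ S)
    (ho : g.nu S = ∑ i ∈ M, (g.w i : ℤ)) (hi : i ∈ M) (hu : i ∈ g.E u) :
    (g.w i : ℤ) + g.nu ((S \ g.E u) \ g.E (g.ot i u)) = g.nu S := by
  refine le_antisymm (add_le_nu' (hs hi) hu) ?_
  have h1 : M.erase i ⊆ (S \ g.E u) \ g.E (g.ot i u) := by
    intro j hj
    have hji : j ≠ i := (Finset.mem_erase.1 hj).1
    have hjM : j ∈ M := (Finset.mem_erase.1 hj).2
    refine Finset.mem_sdiff.2 ⟨Finset.mem_sdiff.2 ⟨hs hjM, ?_⟩, ?_⟩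
    · intro h2
      exact hji (hM u j hjM i hi h2 hu)
    · intro h2
      exact hji (hM (g.ot i u) j hjM i hi h2 (mem_ot hu))
  have h2 := le_nu (isM_mono hM (Finset.erase_subset i M)) h1
  rw [ho, ← Finset.add_sum_erase M (fun i => (g.w i : ℤ)) hi]
  linarith

/-- Job BP. A maximum matching of `S` must have an edge at `u` (else `D u S = 0`, `D_uncovered`), use
`opt_edge`. -/
theorem exists_D {u : V} {S : Finset ι} (h : 0 < g.D u S) :
    ∃ i ∈ S, i ∈ g.E u ∧ g.D u S = (g.w i : ℤ) - g.D (g.ot i u) (S \ g.E u) := by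
  obtain ⟨M, hs, hM, ho⟩ := exists_opt g S
  by_cases h1 : ∀ i ∈ M, i ∉ g.E u
  · rw [D_uncovered hM hs ho h1] at h
    exact absurd h (lt_irrefl _)
  · push Not at h1
    obtain ⟨i, hi, hu⟩ := h1
    refine ⟨i, hs hi, hu, ?_⟩
    have h2 := opt_edge hM hs ho hi hu
    unfold MG.D
    linarith

/-- Job BP. From `exists_D`. -/
theorem D_le_of {u : V} {S : Finset ι} {r : ℤ} (hr : 0 ≤ r)
    (h : ∀ i ∈ S, i ∈ g.E u → (g.w i : ℤ) - g.D (g.ot i u) (S \ g.E u) ≤ r) : g.D u S ≤ r := by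
  by_contra h1
  rw [not_le] at h1
  obtain ⟨i, hi, hu, h2⟩ := exists_D (lt_of_le_of_lt hr h1)
  have h3 := h i hi hu
  linarith

/-- Job BP. From `le_D` and `D_le_of`. -/
theorem D_le_iff {u : V} {S : Finset ι} (r : ℕ) :
    g.D u S ≤ (r : ℤ) ↔
      ∀ i ∈ S, i ∈ g.E u → ¬ (g.D (g.ot i u) (S \ g.E u) + (r : ℤ) < (g.w i : ℤ)) := by
  constructor
  · intro h i hi hu h1
    have h2 := le_D hi hu
    linarith
  · intro h
    refine D_le_of (Int.natCast_nonneg r) fun i hi hu => ?_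
    have h1 := h i hi hu
    rw [not_lt] at h1
    linarith

/-- Job BP. Exactly one edge of `S` at `u`. -/
theorem D_single {u : V} {S : Finset ι} {j : ι} (h : S ∩ g.E u = {j}) :
    g.D u S = max 0 ((g.w j : ℤ) - g.D (g.ot j u) (S \ g.E u)) := by
  have hj : j ∈ S ∩ g.E u := by
    rw [h]
    exact Finset.mem_singleton_self j
  refine le_antisymm ?_ ?_
  · refine D_le_of (le_max_left _ _) fun i hi hu => ?_
    have h1 : i ∈ S ∩ g.E u := Finset.mem_inter.2 ⟨hi, hu⟩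
    rw [h, Finset.mem_singleton] at h1
    rw [h1]
    exact le_max_right _ _
  · exact max_le (D_nonneg u S) (le_D (Finset.mem_inter.1 hj).1 (Finset.mem_inter.1 hj).2)

end Pool.Agent.Lib.MP_7470b6_lc.Bip
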