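import Pool.Agent.Lib.MP_7470b6_lc.Bip.BD

/-!
# Numerical inequalities I
-/

open Finset

namespace Pool.Agent.Lib.MP_7470b6_lc.Bip

/-- Job NA. Monotonicity of `x * exp x` and `0.567143 * exp 0.567143 < 1 < 0.567144 * exp 0.567144`. -/
theorem Om_bounds {Om : ℝ} (h0 : 0 < Om) (h : Om * Real.exp Om = 1) :
    0.567143 < Om ∧ Om < 0.567144 := by
  constructor
  · by_contra hc
    push Not at hc
    have h1 : Om * Real.exp Om ≤ 0.567143 * Real.exp 0.567143 := by
      have := Real.exp_le_exp.mpr hc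
      have h2 := Real.exp_pos Om
      gcongr
    have h3 := Real.exp_bound (x := 0.567143) (by norm_num [abs_of_pos]) (n := 10) (by norm_num)
    norm_num [Finset.sum_range_succ, Nat.factorial, abs_le] at h3
    norm_num at h1
    linarith [h3.1, h3.2]
  · by_contra hc
    push Not at hc
    have h1 : 0.567144 * Real.exp 0.567144 ≤ Om * Real.exp Om := by
      have := Real.exp_le_exp.mpr hc
      have h2 := Real.exp_pos (0.567144 : ℝ)
      gcongr
    have h3 := Real.exp_bound (x := 0.567144) (by norm_num [abs_of_pos]) (n := 10) (by norm_num)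
    norm_num [Finset.sum_range_succ, Nat.factorial, abs_le] at h3
    norm_num at h1
    linarith [h3.1, h3.2]

/-- Job NA. `0.0423 * (1 / 0.3678 - 2 * 0.567143) ≤ 0.067143`. -/
theorem num_N3 {Om : ℝ} (h1 : 0.567143 < Om) (h2 : Om < 0.567144) :
    lam * (1 / c0 - 2 * Om) ≤ Om - 1 / 2 := by
  unfold lam c0
  norm_num at h1 h2 ⊢
  linarith

/-- Job NA. `h(x) = (2 + x) exp (-x) - (2 - x) ≤ x³/6 - x⁴/12 + x⁵/40` for `x ≥ 0`
(`exp (-x) ≤ 1 - x + x²/2 - x³/6 + x⁴/24` for `x ≥ 0`... use the Taylor bound of the right order). -/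
theorem num_h_pos {x : ℝ} (hx : 0 ≤ x) :
    (2 + x) * Real.exp (-x) - (2 - x) ≤ x ^ 3 / 6 - x ^ 4 / 12 + x ^ 5 / 40 := by
  have hS : 1 + x + x ^ 2 / 2 + x ^ 3 / 6 + x ^ 4 / 24 + x ^ 5 / 120 ≤ Real.exp x := by
    have h := Real.sum_le_exp_of_nonneg hx 6
    norm_num [Finset.sum_range_succ, Nat.factorial] at h
    linarith
  have hprod : (2 - x + x ^ 3 / 6 - x ^ 4 / 12 + x ^ 5 / 40) *
      (1 + x + x ^ 2 / 2 + x ^ 3 / 6 + x ^ 4 / 24 + x ^ 5 / 120)
      = (2 + x) + (x ^ 6 / 360 + x ^ 7 / 180 + x ^ 8 / 480 + x ^ 9 / 2880 + x ^ 10 / 4800) := by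
    ring
  have hS0 : 0 < 1 + x + x ^ 2 / 2 + x ^ 3 / 6 + x ^ 4 / 24 + x ^ 5 / 120 := by positivity
  have hR0 : 0 ≤ x ^ 6 / 360 + x ^ 7 / 180 + x ^ 8 / 480 + x ^ 9 / 2880 + x ^ 10 / 4800 := by positivity
  have hP0 : 0 < 2 - x + x ^ 3 / 6 - x ^ 4 / 12 + x ^ 5 / 40 := by
    by_contra hc
    push Not at hc
    have := mul_nonpos_of_nonpos_of_nonneg hc hS0.le
    linarith
  have h1 : (2 + x) ≤ (2 - x + x ^ 3 / 6 - x ^ 4 / 12 + x ^ 5 / 40) * Real.exp x := by
    have := mul_le_mul_of_nonneg_left hS hP0.le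
    linarith
  have h2 : (2 + x) * Real.exp (-x) ≤ 2 - x + x ^ 3 / 6 - x ^ 4 / 12 + x ^ 5 / 40 := by
    have h3 := mul_le_mul_of_nonneg_right h1 (Real.exp_pos (-x)).le
    have h4 : Real.exp x * Real.exp (-x) = 1 := by rw [← Real.exp_add]; simp
    rw [mul_assoc, h4, mul_one] at h3
    exact h3
  linarith

/-- Job NA. `h(x) ≤ 0` for `x ≤ 0`. -/
theorem num_h_neg {x : ℝ} (hx : x ≤ 0) : (2 + x) * Real.exp (-x) - (2 - x) ≤ 0 := by
  have hd : ∀ y : ℝ, HasDerivAt (fun y => (2 - y) - (2 + y) * Real.exp (-y))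
      (-1 - (1 * Real.exp (-y) + (2 + y) * (Real.exp (-y) * (-1)))) y := by
    intro y
    have h1 : HasDerivAt (fun y : ℝ => 2 - y) (-1) y := by
      simpa using (hasDerivAt_id y).const_sub 2
    have h2 : HasDerivAt (fun y : ℝ => 2 + y) 1 y := by
      simpa using (hasDerivAt_id y).const_add 2
    have h3 : HasDerivAt (fun y : ℝ => Real.exp (-y)) (Real.exp (-y) * (-1)) y := by
      exact (hasDerivAt_neg y).exp
    exact h1.sub (h2.mul h3)
  have hanti : Antitone (fun y : ℝ => (2 - y) - (2 + y) * Real.exp (-y)) := by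
    refine antitone_of_deriv_nonpos (fun y => (hd y).differentiableAt) fun y => ?_
    rw [(hd y).deriv]
    have h1 : y + 1 ≤ Real.exp y := Real.add_one_le_exp y
    have h2 : (y + 1) * Real.exp (-y) ≤ 1 := by
      have h3 := mul_le_mul_of_nonneg_right h1 (Real.exp_pos (-y)).le
      have h4 : Real.exp y * Real.exp (-y) = 1 := by rw [← Real.exp_add]; simp
      rwa [h4] at h3
    linarith
  have h := hanti hx
  simp only [neg_zero, Real.exp_zero] at h
  linarith

end Pool.Agent.Lib.MP_7470b6_lc.Bip
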