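import Pool.Agent.Lib.MP_7470b6_lc.Bip.BD

/-!
# Numerical inequalities II
-/

open Finset

namespace Pool.Agent.Lib.MP_7470b6_lc.Bip

private theorem e1_bounds : 0.36787 < Real.exp (-1) ∧ Real.exp (-1) < 0.36789 := by
  have h3 := Real.exp_bound (x := -1) (by norm_num) (n := 9) (by norm_num)
  norm_num [Finset.sum_range_succ, Nat.factorial, abs_le] at h3
  norm_num
  constructor <;> linarith [h3.1, h3.2]

/-- the case `M = 1` -/
private theorem case_one {K X : ℝ} (hK : 0.115123 ≤ K) (hX0 : 0 ≤ X) (hX1 : X ≤ 1) :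
    0.02674206 * X ≤ 1 * (1 - Real.exp (-X)) * (K - 0.0423 * 1 * (1 + Real.exp (-X))) := by
  -- lower bound for `1 - exp (-X)`
  have hE : Real.exp (-X) ≤ 1 - X + X ^ 2 / 2 - X ^ 3 / 8 := by
    have hS : 1 + X + X ^ 2 / 2 + X ^ 3 / 6 ≤ Real.exp X := by
      have h := Real.sum_le_exp_of_nonneg hX0 4
      norm_num [Finset.sum_range_succ, Nat.factorial] at h
      linarith
    have hq : 0 < 1 - X + X ^ 2 / 2 - X ^ 3 / 8 := by
      have h1 : X ^ 3 ≤ X ^ 2 := by
        have : X ^ 2 * X ≤ X ^ 2 * 1 := by gcongr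
        nlinarith
      nlinarith [sq_nonneg (X - 1)]
    have hprod : 1 ≤ (1 - X + X ^ 2 / 2 - X ^ 3 / 8) * (1 + X + X ^ 2 / 2 + X ^ 3 / 6) := by
      have e : (1 - X + X ^ 2 / 2 - X ^ 3 / 8) * (1 + X + X ^ 2 / 2 + X ^ 3 / 6)
          = 1 + X ^ 3 * (1 / 24 - X / 24 + X ^ 2 / 48 - X ^ 3 / 48) := by ring
      rw [e]
      have h2 : 0 ≤ 1 / 24 - X / 24 + X ^ 2 / 48 - X ^ 3 / 48 := by
        have h3 : 0 ≤ (1 - X) * (1 / 24 + X ^ 2 / 48) := by
          have : 0 ≤ 1 - X := by linarith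
          positivity
        nlinarith
      have : 0 ≤ X ^ 3 * (1 / 24 - X / 24 + X ^ 2 / 48 - X ^ 3 / 48) := by positivity
      linarith
    have h1 : 1 ≤ (1 - X + X ^ 2 / 2 - X ^ 3 / 8) * Real.exp X := by
      have := mul_le_mul_of_nonneg_left hS hq.le
      linarith
    have h3 := mul_le_mul_of_nonneg_right h1 (Real.exp_pos (-X)).le
    have h4 : Real.exp X * Real.exp (-X) = 1 := by rw [← Real.exp_add]; simp
    rw [mul_assoc, h4, mul_one, one_mul] at h3
    exact h3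
  set y : ℝ := 1 - Real.exp (-X) with hy
  have hyl : X * (1 - X / 2 + X ^ 2 / 8) ≤ y := by rw [hy]; nlinarith
  have hq0 : 0 ≤ X * (1 - X / 2 + X ^ 2 / 8) := by
    have : 0 ≤ 1 - X / 2 + X ^ 2 / 8 := by nlinarith [sq_nonneg X]
    positivity
  have hexp : Real.exp (-X) = 1 - y := by rw [hy]; ring
  rw [hexp]
  have h1 : 0.030523 + 0.0423 * y ≤ K - 0.0423 * 1 * (1 + (1 - y)) := by
    norm_num at hK ⊢
    linarith
  have h2 : 0.030523 + 0.0423 * (X * (1 - X / 2 + X ^ 2 / 8)) ≤ K - 0.0423 * 1 * (1 + (1 - y)) := by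
    refine le_trans ?_ h1
    gcongr
  have h3 : X * (1 - X / 2 + X ^ 2 / 8) * (0.030523 + 0.0423 * (X * (1 - X / 2 + X ^ 2 / 8)))
      ≤ 1 * y * (K - 0.0423 * 1 * (1 + (1 - y))) := by
    rw [one_mul]
    refine mul_le_mul hyl h2 ?_ (hq0.trans hyl)
    positivity
  refine le_trans ?_ h3
  have h4 : (0.02674206 : ℝ) ≤ (1 - X / 2 + X ^ 2 / 8) *
      (0.030523 + 0.0423 * (X * (1 - X / 2 + X ^ 2 / 8))) := by
    have e : (1 - X / 2 + X ^ 2 / 8) * (0.030523 + 0.0423 * (X * (1 - X / 2 + X ^ 2 / 8)))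
        = 0.030523 + X * (0.0270385 - 0.038484625 * X + 0.02115 * X ^ 2 - 0.0052875 * X ^ 3
          + 0.0423 / 64 * X ^ 4) := by ring
    rw [e]
    have h5 : 0 ≤ 0.0270385 - 0.038484625 * X + 0.02115 * X ^ 2 - 0.0052875 * X ^ 3
          + 0.0423 / 64 * X ^ 4 := by
      have h6 : X ^ 3 ≤ X ^ 2 := by
        have : X ^ 2 * X ≤ X ^ 2 * 1 := by gcongr
        nlinarith
      have h7 : 0 ≤ X ^ 4 := by positivity
      norm_num
      nlinarith [sq_nonneg (X - 1.2)]
    have : 0 ≤ X * (0.0270385 - 0.038484625 * X + 0.02115 * X ^ 2 - 0.0052875 * X ^ 3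
          + 0.0423 / 64 * X ^ 4) := mul_nonneg hX0 h5
    norm_num at this ⊢
    linarith
  calc 0.02674206 * X = X * 0.02674206 := by ring
    _ ≤ X * ((1 - X / 2 + X ^ 2 / 8) * (0.030523 + 0.0423 * (X * (1 - X / 2 + X ^ 2 / 8)))) := by
        gcongr
    _ = _ := by ring

/-- the case `M = exp (X - 1) (1 - eps)` -/
private theorem case_two {K X eps : ℝ} (hK : 0.115123 ≤ K) (he0 : 0 ≤ eps)
    (he : eps ≤ 0.0002) (hX0 : 0 ≤ X) (hX1 : X ≤ 1) :
    0.02674206 * X ≤ (Real.exp (X - 1) * (1 - eps)) * (1 - Real.exp (-X)) *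
      (K - 0.0423 * (Real.exp (X - 1) * (1 - eps)) * (1 + Real.exp (-X))) := by
  obtain ⟨he1, he2⟩ := e1_bounds
  set e1 : ℝ := Real.exp (-1) with he1d
  set w : ℝ := Real.exp X - 1 with hw
  have hX : Real.exp X = 1 + w := by rw [hw]; ring
  have ha : Real.exp (X - 1) = e1 * (1 + w) := by
    rw [← hX, he1d, ← Real.exp_add]; congr 1; ring
  have hae : Real.exp (X - 1) * Real.exp (-X) = e1 := by
    rw [he1d, ← Real.exp_add]; congr 1; ring
  have hw0 : X * (1 + X / 2) ≤ w := by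
    have h := Real.sum_le_exp_of_nonneg hX0 3
    norm_num [Finset.sum_range_succ, Nat.factorial] at h
    rw [hw]; nlinarith
  have hw1 : w ≤ 1.72 := by
    have h1 : Real.exp X ≤ Real.exp 1 := Real.exp_le_exp.mpr hX1
    have h2 := Real.exp_one_lt_d9
    rw [hw]
    norm_num at h2 ⊢
    linarith
  have hX2 : 0 ≤ X * (1 + X / 2) := by positivity
  have hX3 : X * (1 + X / 2) ≤ 1.5 := by norm_num; nlinarith
  have hwn : 0 ≤ w := hX2.trans hw0
  have e2 : (Real.exp (X - 1) * (1 - eps)) * (1 - Real.exp (-X)) *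
      (K - 0.0423 * (Real.exp (X - 1) * (1 - eps)) * (1 + Real.exp (-X)))
      = (1 - eps) * (e1 * w) * (K - 0.0423 * ((1 - eps) * (e1 * (2 + w)))) := by
    have h1 : (Real.exp (X - 1) * (1 - eps)) * (1 - Real.exp (-X))
        = (1 - eps) * (Real.exp (X - 1) - Real.exp (X - 1) * Real.exp (-X)) := by ring
    have h2 : 0.0423 * (Real.exp (X - 1) * (1 - eps)) * (1 + Real.exp (-X))
        = 0.0423 * ((1 - eps) * (Real.exp (X - 1) + Real.exp (X - 1) * Real.exp (-X))) := by ring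
    rw [h1, h2, hae, ha]
    ring
  rw [e2]
  have h1e : 0.9998 ≤ 1 - eps := by norm_num at he ⊢; linarith
  have h1e' : 1 - eps ≤ 1 := by linarith
  have h3 : 0.9998 * (0.36787 * w) ≤ (1 - eps) * (e1 * w) := by
    gcongr
  have h4 : (1 - eps) * (e1 * (2 + w)) ≤ 1 * (0.36789 * (2 + w)) := by
    gcongr
  have h5 : 0.115123 - 0.0423 * (1 * (0.36789 * (2 + w))) ≤ K - 0.0423 * ((1 - eps) * (e1 * (2 + w))) := by
    linarith
  have h6 : 0 ≤ 0.115123 - 0.0423 * (1 * (0.36789 * (2 + w))) := by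
    norm_num at hw1 ⊢; linarith
  have h7 : 0.9998 * (0.36787 * w) * (0.115123 - 0.0423 * (1 * (0.36789 * (2 + w))))
      ≤ (1 - eps) * (e1 * w) * (K - 0.0423 * ((1 - eps) * (e1 * (2 + w)))) := by
    refine mul_le_mul h3 h5 h6 ?_
    exact le_trans (by positivity) h3
  refine le_trans ?_ h7
  -- monotone in `w`
  set w0 : ℝ := X * (1 + X / 2) with hw0d
  have h8 : 0.9998 * (0.36787 * w0) * (0.115123 - 0.0423 * (1 * (0.36789 * (2 + w0))))
      ≤ 0.9998 * (0.36787 * w) * (0.115123 - 0.0423 * (1 * (0.36789 * (2 + w)))) := by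
    have h9 : 0 ≤ (w - w0) * (0.115123 - 0.0423 * 0.36789 * 2 - 0.0423 * 0.36789 * (w + w0)) := by
      refine mul_nonneg (by linarith) ?_
      norm_num at hw1 hX3 ⊢
      linarith
    nlinarith
  refine le_trans ?_ h8
  have h10 : (0.02674206 : ℝ) ≤ 0.9998 * 0.36787 * ((1 + X / 2) *
      (0.115123 - 0.0423 * (1 * (0.36789 * (2 + w0))))) := by
    rw [hw0d]
    have h11 : 0 ≤ X * (1 - X) := mul_nonneg hX0 (by linarith)
    have h12 : X ^ 3 ≤ X ^ 2 := by
      have : X ^ 2 * X ≤ X ^ 2 * 1 := by gcongr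
      nlinarith
    norm_num
    nlinarith
  calc 0.02674206 * X = X * 0.02674206 := by ring
    _ ≤ X * (0.9998 * 0.36787 * ((1 + X / 2) *
      (0.115123 - 0.0423 * (1 * (0.36789 * (2 + w0)))))) := by gcongr
    _ = 0.9998 * (0.36787 * (X * (1 + X / 2))) * (0.115123 - 0.0423 * (1 * (0.36789 * (2 + w0)))) := by
        ring
    _ = _ := by rw [← hw0d]

/-- a concave quadratic which is nonnegative at the ends of an interval -/
private theorem concave_quad {al be ga m0 M : ℝ} (hbe : 0 ≤ be) (h0 : m0 ≤ M) (h1 : M ≤ 1)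
    (f0 : ga ≤ al * m0 - be * m0 ^ 2) (f1 : ga ≤ al * 1 - be * 1 ^ 2) : ga ≤ al * M - be * M ^ 2 := by
  rcases eq_or_lt_of_le (h0.trans h1) with h | h
  · have : M = 1 := le_antisymm h1 (h ▸ h0)
    rw [this]; exact f1
  · have h2 : 0 ≤ (M - m0) * (1 - M) := mul_nonneg (by linarith) (by linarith)
    have h3 : 0 < 1 - m0 := by linarith
    have h4 : 0 ≤ (1 - m0) * (al * M - be * M ^ 2 - ga) := by
      have e : (1 - m0) * (al * M - be * M ^ 2 - ga)
          = (1 - M) * (al * m0 - be * m0 ^ 2 - ga) + (M - m0) * (al * 1 - be * 1 ^ 2 - ga)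
            + (1 - m0) * be * ((M - m0) * (1 - M)) := by ring
      rw [e]
      have a1 : 0 ≤ (1 - M) * (al * m0 - be * m0 ^ 2 - ga) := mul_nonneg (by linarith) (by linarith)
      have a2 : 0 ≤ (M - m0) * (al * 1 - be * 1 ^ 2 - ga) := mul_nonneg (by linarith) (by linarith)
      have a3 : 0 ≤ (1 - m0) * be * ((M - m0) * (1 - M)) := by positivity
      linarith
    have h5 := nonneg_of_mul_nonneg_right h4 h3
    linarith

/-- Job NC. The right side minus the left side is `K (M - t) - lam (M² - t²) - lam (1 - c0) X` with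
`K = Om - 1/2 + 2 lam Om ≥ 0.115123`. It decreases in `t` (`t ≤ 1`, `2 lam < K`), so let `t = M E`,
`E = exp (-X)`; now it is concave in `M`, so it is enough to check `M = 1` and `M = exp (X - 1) (1 - eps)`.
`M = 1`, `y = 1 - E ≥ X - X²/2 + X³/6 - X⁴/24`: `y (K - 2 lam + lam y) ≥ 0.02675 X`.
`M = exp (X - 1) (1 - eps)`: with `a = exp (X - 1)`, `e = exp (-1)`:
`(1 - eps) (a - e) (K - lam (1 - eps) (a + e)) ≥ 0.9998 (a - e) (K - lam (a + e)) ≥ 0.02675 X`
where `a = e * exp X`; e.g. at `X = 0.5` the two sides are `0.01763` and `0.01337`. (This function of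
`X` is a concave function of `a`, and `a` is convex in `X`; or use Taylor polynomials for `exp X`.) -/
theorem num_DI {Om X M t eps : ℝ} (h1 : 0.567143 < Om) (h2 : Om < 0.567144) (he0 : 0 ≤ eps)
    (he : eps ≤ 0.0002) (hX0 : 0 ≤ X) (hX1 : X ≤ 1) (hM0 : Real.exp (X - 1) * (1 - eps) ≤ M)
    (hM1 : M ≤ 1) (ht0 : 0 ≤ t) (ht : t ≤ M * Real.exp (-X)) :
    lam * ((M ^ 2 - t ^ 2) + (1 - c0) * X) ≤ (Om - 1 / 2 + 2 * lam * Om) * (M - t) := by
  have hK : 0.115123 ≤ Om - 1 / 2 + 2 * lam * Om := by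
    unfold lam; norm_num at h1 ⊢; linarith
  generalize Om - 1 / 2 + 2 * lam * Om = K at hK ⊢
  have hE0 := Real.exp_pos (-X)
  have hE1 : Real.exp (-X) ≤ 1 := Real.exp_le_one_iff.mpr (by linarith)
  set E : ℝ := Real.exp (-X) with hE
  have hlam : lam = 0.0423 := rfl
  have hc0 : c0 = 0.3678 := rfl
  rw [hlam, hc0]
  have he' : eps ≤ 1 := by norm_num at he; linarith
  have hm0 : 0 ≤ Real.exp (X - 1) * (1 - eps) :=
    mul_nonneg (Real.exp_pos _).le (by linarith)
  have hMn : 0 ≤ M := hm0.trans hM0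
  -- step 1
  have s1 : 0.02674206 * X ≤ M * (1 - E) * (K - 0.0423 * M * (1 + E)) := by
    have c1 := case_one hK hX0 hX1
    have c2 := case_two hK he0 he hX0 hX1
    rw [← hE] at c1 c2
    have c3 := concave_quad (al := (1 - E) * K) (be := (1 - E) * 0.0423 * (1 + E))
      (ga := 0.02674206 * X) (by
        have : 0 ≤ 1 - E := by linarith
        positivity) hM0 hM1 (by
        refine c2.trans (le_of_eq ?_)
        ring) (by
        refine c1.trans (le_of_eq ?_)
        ring)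
    refine c3.trans (le_of_eq ?_)
    ring
  -- step 2
  have s2 : 0 ≤ (M * E - t) * (K - 0.0423 * (M * E + t)) := by
    refine mul_nonneg (by linarith) ?_
    have h3 : M * E ≤ 1 := by nlinarith
    norm_num at hK ⊢
    linarith
  norm_num at hK s1 s2 ⊢
  nlinarith

end Pool.Agent.Lib.MP_7470b6_lc.Bip
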