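import Pool.Agent.Lib.MP_7470b6_lc.Bip.NK
import Pool.Agent.Lib.MP_7470b6_lc.Bip.NC

/-!
# Numerical inequalities IV
-/

open Finset

namespace Pool.Agent.Lib.MP_7470b6_lc.Bip

/-- Job NB. The right side is affine in `d`, and increasing in `t ≤ 1`, with derivative at most `d`:
replace `t` by `exp (-m)` with an error of at most `eps * d`, then combine `num_K0` and `num_K1`. -/
theorem num_cert {Om m d t eps : ℝ} (h1 : 0.567143 < Om) (h2 : Om < 0.567144)
    (h : Om * Real.exp Om = 1) (he0 : 0 ≤ eps) (he : eps ≤ 0.0002) (hm0 : 0 ≤ m) (hm1 : m ≤ 1)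
    (hd0 : 0 ≤ d) (hd1 : d ≤ 1) (ht0 : Real.exp (-m) * (1 - eps) ≤ t) (ht1 : t ≤ Real.exp (-m)) :
    (2 - 2 * Om - Om ^ 2 - 3 * eps) * d ≤ 2 - Real.exp (-m) * (2 + m) - Om * m + Om * (d * t) +
      lam * (m ^ 2 - 2 * Om * m - (d * t ^ 2 - 2 * Om * (d * t))) := by
  have k1 := num_K1 h1 h2 h hm0 hm1
  have k0 := num_K0 h1 h2 hm0 hm1
  have hE0 := Real.exp_pos (-m)
  have hE1 : Real.exp (-m) ≤ 1 := Real.exp_le_one_iff.mpr (by linarith)
  set T : ℝ := Real.exp (-m) with hT
  set A : ℝ := 2 - T * (2 + m) - Om * m + lam * (m ^ 2 - 2 * Om * m) with hA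
  have hlam : lam = 0.0423 := rfl
  -- `B t = Om t - lam t² + 2 lam Om t`
  have hB : Om * T - lam * T ^ 2 + 2 * lam * Om * T - 3 * eps ≤ Om * t - lam * t ^ 2 + 2 * lam * Om * t := by
    have hOm0 : 0 < Om := by norm_num at h1; linarith
    have h3 : 0 ≤ T - t := by linarith
    have h4 : T - t ≤ eps := by
      have : T * eps ≤ 1 * eps := by gcongr
      linarith
    have h5 : (T - t) * (Om + 2 * lam * Om - lam * (T + t)) ≤ eps * 3 := by
      have h6 : Om + 2 * lam * Om - lam * (T + t) ≤ 3 := by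
        have h7 : 2 * lam * Om ≤ 1 := by rw [hlam]; norm_num at h2 ⊢; linarith
        have h8 : 0 ≤ t := le_trans (mul_nonneg hE0.le (by norm_num at he; linarith)) ht0
        have h9 : 0 ≤ lam * (T + t) := by rw [hlam]; positivity
        norm_num at h2
        linarith
      calc _ ≤ (T - t) * 3 := by gcongr
        _ ≤ eps * 3 := by gcongr
    nlinarith
  have h10 : (2 - 2 * Om - Om ^ 2) * d ≤ (A + (Om * T - lam * T ^ 2 + 2 * lam * Om * T)) * d := by
    refine mul_le_mul_of_nonneg_right ?_ hd0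
    rw [hA]
    linarith
  have h11 : (A + (Om * T - lam * T ^ 2 + 2 * lam * Om * T) - 3 * eps) * d
      ≤ (A + (Om * t - lam * t ^ 2 + 2 * lam * Om * t)) * d := by
    refine mul_le_mul_of_nonneg_right ?_ hd0
    linarith
  have h12 : A * d ≤ A := by nlinarith
  have h13 : 2 - T * (2 + m) - Om * m + Om * (d * t) +
      lam * (m ^ 2 - 2 * Om * m - (d * t ^ 2 - 2 * Om * (d * t)))
      = A + (Om * t - lam * t ^ 2 + 2 * lam * Om * t) * d := by rw [hA]; ring
  rw [h13]
  nlinarith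

end Pool.Agent.Lib.MP_7470b6_lc.Bip
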