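import Pool.Agent.Lib.MP_7470b6_lc.Bip.NA

/-!
# Numerical inequalities III
-/

open Finset

namespace Pool.Agent.Lib.MP_7470b6_lc.Bip

private theorem exp_neg_ge {x : ℝ} (hx : 0 ≤ x) : 1 - x + x ^ 2 / 2 - x ^ 3 / 6 ≤ Real.exp (-x) := by
  -- antitone argument: `f y = exp (-y) - (1 - y + y²/2 - y³/6)`
  have q2 : ∀ y : ℝ, 0 ≤ y → Real.exp (-y) ≤ 1 - y + y ^ 2 / 2 := by
    intro y hy
    have hS : 1 + y + y ^ 2 / 2 ≤ Real.exp y := by
      have h := Real.sum_le_exp_of_nonneg hy 3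
      norm_num [Finset.sum_range_succ, Nat.factorial] at h
      linarith
    have hq : 0 < 1 - y + y ^ 2 / 2 := by nlinarith [sq_nonneg (y - 1)]
    have hprod : 1 ≤ (1 - y + y ^ 2 / 2) * (1 + y + y ^ 2 / 2) := by
      have e : (1 - y + y ^ 2 / 2) * (1 + y + y ^ 2 / 2) = 1 + y ^ 4 / 4 := by ring
      rw [e]; have : 0 ≤ y ^ 4 / 4 := by positivity
      linarith
    have h1 : 1 ≤ (1 - y + y ^ 2 / 2) * Real.exp y := by
      have := mul_le_mul_of_nonneg_left hS hq.le
      linarith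
    have h3 := mul_le_mul_of_nonneg_right h1 (Real.exp_pos (-y)).le
    have h4 : Real.exp y * Real.exp (-y) = 1 := by rw [← Real.exp_add]; simp
    rw [mul_assoc, h4, mul_one, one_mul] at h3
    exact h3
  have hd : ∀ y : ℝ, HasDerivAt (fun y => Real.exp (-y) - (1 - y + y ^ 2 / 2 - y ^ 3 / 6))
      (Real.exp (-y) * (-1) - (-1 + y - y ^ 2 / 2)) y := by
    intro y
    have h3 : HasDerivAt (fun y : ℝ => Real.exp (-y)) (Real.exp (-y) * (-1)) y :=
      (hasDerivAt_neg y).exp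
    have h4 : HasDerivAt (fun y : ℝ => 1 - y + y ^ 2 / 2 - y ^ 3 / 6) (-1 + y - y ^ 2 / 2) y := by
      have a1 : HasDerivAt (fun y : ℝ => 1 - y) (-1) y := by
        simpa using (hasDerivAt_id y).const_sub 1
      have a2 : HasDerivAt (fun y : ℝ => y ^ 2 / 2) y y := by
        exact ((hasDerivAt_pow 2 y).div_const 2).congr_deriv (by norm_num)
      have a3 : HasDerivAt (fun y : ℝ => y ^ 3 / 6) (y ^ 2 / 2) y := by
        exact ((hasDerivAt_pow 3 y).div_const 6).congr_deriv (by norm_num; ring)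
      exact (a1.add a2).sub a3
    exact h3.sub h4
  have hmono : MonotoneOn (fun y : ℝ => Real.exp (-y) - (1 - y + y ^ 2 / 2 - y ^ 3 / 6)) (Set.Ici 0) := by
    refine monotoneOn_of_deriv_nonneg (convex_Ici 0) (fun y _ => (hd y).continuousAt.continuousWithinAt)
      (fun y _ => (hd y).differentiableAt.differentiableWithinAt) fun y hy => ?_
    rw [interior_Ici] at hy
    rw [(hd y).deriv]
    have := q2 y (le_of_lt hy)
    linarith
  have h := hmono (Set.mem_Ici.mpr le_rfl) (Set.mem_Ici.mpr hx) hx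
  simp only [neg_zero, Real.exp_zero] at h
  norm_num at h
  linarith

/-- Job NK. `d = 1`, `t = exp (-m)`. With `x = m - Om`, `exp (-m) = Om * exp (-x)` the difference of the two
sides is `lam (x² - Om² (1 - exp (-x))²) - Om h(x)`. For `x ≤ 0` (`x ≥ -Om`): `h ≤ 0`, and
`0 ≤ Om (exp (-x) - 1) ≤ -x` by convexity (equality at `x = 0`; at `x = -Om` it says `1 - Om ≤ Om`).
For `0 ≤ x ≤ 1 - Om < 0.432858`: `num_h_pos`, `1 - exp (-x) ≤ x - x²/2 + x³/6`, and the remaining
polynomial inequality `0.567144 (x/6 - x²/12 + x³/40) ≤ 0.0423 (1 - 0.567144² (1 - x/2 + x²/6)²)` for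
`0 ≤ x ≤ 0.432858` (at the right end: `0.03321 ≤ 0.03333`). -/
theorem num_K1 {Om m : ℝ} (h1 : 0.567143 < Om) (h2 : Om < 0.567144) (h : Om * Real.exp Om = 1)
    (hm0 : 0 ≤ m) (hm1 : m ≤ 1) :
    2 - 2 * Om - Om ^ 2 ≤ 2 - Real.exp (-m) * (2 + m) - Om * m + Om * Real.exp (-m) +
      lam * (m ^ 2 - 2 * Om * m - (Real.exp (-m) ^ 2 - 2 * Om * Real.exp (-m))) := by
  have hOm0 : 0 < Om := by norm_num at h1; linarith
  obtain ⟨x, hx⟩ : ∃ x, x = m - Om := ⟨_, rfl⟩
  have hm : m = Om + x := by rw [hx]; ring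
  have hexpO : Real.exp (-Om) = Om := by
    have h3 : Real.exp Om * Real.exp (-Om) = 1 := by rw [← Real.exp_add]; simp
    have h4 := Real.exp_pos Om
    nlinarith [Real.exp_pos (-Om)]
  have hexp : Real.exp (-m) = Om * Real.exp (-x) := by
    rw [hm, neg_add, Real.exp_add, hexpO]
  have key : Om * ((2 + x) * Real.exp (-x) - (2 - x))
      ≤ lam * (x ^ 2 - Om ^ 2 * (1 - Real.exp (-x)) ^ 2) := by
    have hlam0 : (0:ℝ) ≤ lam := by unfold lam; norm_num
    rcases le_total x 0 with hx0 | hx0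
    · have a1 : Om * ((2 + x) * Real.exp (-x) - (2 - x)) ≤ 0 :=
        mul_nonpos_of_nonneg_of_nonpos hOm0.le (num_h_neg hx0)
      have a2 : 0 ≤ x ^ 2 - Om ^ 2 * (1 - Real.exp (-x)) ^ 2 := by
        -- convexity
        have hth : 0 ≤ -x / Om ∧ -x / Om ≤ 1 := by
          constructor
          · apply div_nonneg <;> linarith
          · rw [div_le_one hOm0]; linarith
        have hconv := convexOn_exp.2 (Set.mem_univ (0:ℝ)) (Set.mem_univ Om)
          (show 0 ≤ 1 - (-x / Om) by linarith [hth.2]) hth.1 (by ring)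
        simp only [smul_eq_mul, mul_zero, zero_add, Real.exp_zero, mul_one] at hconv
        have e1 : -x / Om * Om = -x := by field_simp
        rw [e1] at hconv
        have h5 : Om * Real.exp (-x) ≤ Om * (1 - -x / Om + -x / Om * Real.exp Om) := by gcongr
        have h6 : Om * (1 - -x / Om + -x / Om * Real.exp Om) = Om + x + -x / Om * (Om * Real.exp Om) := by
          field_simp
          ring
        rw [h6, h] at h5
        have h7 : Om * Real.exp (-x) - Om ≤ -x := by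
          have h8 : -x / Om ≤ 2 * (-x) := by
            rw [div_le_iff₀ hOm0]
            norm_num at h1
            nlinarith
          linarith
        have h9 : 1 ≤ Real.exp (-x) := Real.one_le_exp (by linarith)
        have h10 : 0 ≤ Om * Real.exp (-x) - Om := by nlinarith
        have h11 : (Om * Real.exp (-x) - Om) ^ 2 ≤ (-x) ^ 2 := by gcongr
        nlinarith
      have a3 := mul_nonneg hlam0 a2
      linarith
    · have hx1 : x ≤ 0.432858 := by
        rw [hx]; norm_num at h1 ⊢; linarith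
      have a1 := num_h_pos hx0
      have a2 := exp_neg_ge hx0
      have a3 : Real.exp (-x) ≤ 1 := Real.exp_le_one_iff.mpr (by linarith)
      have a4 : (1 - Real.exp (-x)) ^ 2 ≤ (x * (1 - x / 2 + x ^ 2 / 6)) ^ 2 := by
        have b1 : 0 ≤ 1 - Real.exp (-x) := by linarith
        have b2 : 1 - Real.exp (-x) ≤ x * (1 - x / 2 + x ^ 2 / 6) := by nlinarith
        gcongr
      have hO2 : Om ^ 2 ≤ 0.567144 ^ 2 := by gcongr
      have a5 : Om ^ 2 * (1 - Real.exp (-x)) ^ 2 ≤ 0.567144 ^ 2 * (x * (1 - x / 2 + x ^ 2 / 6)) ^ 2 :=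
        mul_le_mul hO2 a4 (sq_nonneg _) (by positivity)
      have a6 : lam * (x ^ 2 - 0.567144 ^ 2 * (x * (1 - x / 2 + x ^ 2 / 6)) ^ 2)
          ≤ lam * (x ^ 2 - Om ^ 2 * (1 - Real.exp (-x)) ^ 2) := by
        gcongr
      refine le_trans ?_ a6
      have hP : 0 ≤ x / 6 - x ^ 2 / 12 + x ^ 3 / 40 := by
        have : 0 ≤ x * (1 / 6 - x / 12 + x ^ 2 / 40) := by
          refine mul_nonneg hx0 ?_
          norm_num at hx1
          nlinarith [sq_nonneg x]
        nlinarith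
      have a7 : Om * ((2 + x) * Real.exp (-x) - (2 - x)) ≤ 0.567144 * (x ^ 2 * (x / 6 - x ^ 2 / 12 + x ^ 3 / 40)) := by
        have c1 : (2 + x) * Real.exp (-x) - (2 - x) ≤ x ^ 2 * (x / 6 - x ^ 2 / 12 + x ^ 3 / 40) := by
          refine a1.trans (le_of_eq ?_); ring
        have c2 : 0 ≤ x ^ 2 * (x / 6 - x ^ 2 / 12 + x ^ 3 / 40) := by positivity
        calc _ ≤ Om * (x ^ 2 * (x / 6 - x ^ 2 / 12 + x ^ 3 / 40)) := by gcongr
          _ ≤ _ := by gcongr
      refine a7.trans ?_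
      have a8 : 0.567144 * (x / 6 - x ^ 2 / 12 + x ^ 3 / 40) ≤
          0.0423 * (1 - 0.567144 ^ 2 * (1 - x / 2 + x ^ 2 / 6) ^ 2) := by
        -- value at the right end plus monotonicity
        have d0 : 0 ≤ 0.432858 - x := by linarith
        have d1 : 0.567144 * (x / 6 - x ^ 2 / 12 + x ^ 3 / 40)
            ≤ 0.567144 * (0.0585575 - (0.432858 - x) * 0.0945) := by
          have : x / 6 - x ^ 2 / 12 + x ^ 3 / 40 ≤ 0.0585575 - (0.432858 - x) * 0.0945 := by
            have p1 := mul_nonneg hx0 d0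
            have p2 := mul_nonneg hx0 (mul_nonneg hx0 d0)
            have p3 := mul_nonneg d0 d0
            have p4 := mul_nonneg d0 (mul_nonneg d0 hx0)
            norm_num at p1 p2 p3 p4 hx1 ⊢
            nlinarith
          gcongr
        have hu0 : 0 ≤ 1 - x / 2 + x ^ 2 / 6 := by norm_num at hx1; nlinarith
        have hu : 1 - x / 2 + x ^ 2 / 6 ≤ 0.8148 + (0.432858 - x) * 0.5 := by
          have p1 := mul_nonneg hx0 d0
          norm_num at p1 hx1 ⊢
          nlinarith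
        have d2 : (1 - x / 2 + x ^ 2 / 6) ^ 2 ≤ (0.8148 + (0.432858 - x) * 0.5) ^ 2 := by gcongr
        have d3 : (0.8148 + (0.432858 - x) * 0.5) ^ 2 ≤ 0.66390 + (0.432858 - x) * 0.9231 := by
          have p1 := mul_nonneg hx0 d0
          norm_num at p1 hx1 ⊢
          nlinarith
        norm_num at d0 d1 d2 d3 ⊢
        nlinarith
      calc 0.567144 * (x ^ 2 * (x / 6 - x ^ 2 / 12 + x ^ 3 / 40))
          = x ^ 2 * (0.567144 * (x / 6 - x ^ 2 / 12 + x ^ 3 / 40)) := by ring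
        _ ≤ x ^ 2 * (0.0423 * (1 - 0.567144 ^ 2 * (1 - x / 2 + x ^ 2 / 6) ^ 2)) := by gcongr
        _ = _ := by unfold lam; ring
  rw [hexp, hm]
  nlinarith

/-- Job NK. `d = 0`. (Derivative in `m` positive near `0`; use Taylor bounds for `exp (-m)`.) -/
theorem num_K0 {Om m : ℝ} (h1 : 0.567143 < Om) (h2 : Om < 0.567144) (hm0 : 0 ≤ m) (hm1 : m ≤ 1) :
    0 ≤ 2 - Real.exp (-m) * (2 + m) - Om * m + lam * (m ^ 2 - 2 * Om * m) := by
  have a1 := num_h_pos hm0
  have h3 : lam = 0.0423 := rfl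
  have h4 : 0 ≤ m * (0.3848 - m ^ 2 / 6 + m ^ 3 / 12 - m ^ 4 / 40) := by
    refine mul_nonneg hm0 ?_
    have b1 : m ^ 2 ≤ 1 := by nlinarith
    have b2 : m ^ 4 ≤ m ^ 3 := by
      have : m ^ 3 * m ≤ m ^ 3 * 1 := by gcongr
      nlinarith
    have b3 : 0 ≤ m ^ 3 := by positivity
    norm_num
    nlinarith
  have h5 : Om * m * (1 + 2 * lam) ≤ 0.61513 * m := by
    rw [h3]
    norm_num at h2 ⊢
    nlinarith
  have h6 : 0 ≤ lam * m ^ 2 := by rw [h3]; positivity
  norm_num at h4 h5 ⊢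
  nlinarith

end Pool.Agent.Lib.MP_7470b6_lc.Bip
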