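import Pool.Agent.Lib.MP_7470b6_lc.Crs.EVA
import Pool.Agent.Lib.MP_7470b6_lc.Crs.EVB

/-!
# Images of random sets
-/

open Finset

namespace Pool.Agent.Lib.MP_7470b6_lc.Bip

open Pool.Agent.Lib.MP_7470b6_lc.Crs

variable {ι α : Type} [DecidableEq ι] [DecidableEq α]

private lemma RA_congr {A : Finset α} {p q : α → ℝ} (h : ∀ i ∈ A, p i = q i)
    (f : Finset α → ℝ) : ev A p f = ev A q f := by
  unfold ev
  refine Finset.sum_congr rfl fun T _ => ?_
  congr 1
  refine Finset.prod_congr rfl fun i hi => ?_
  rw [h i hi]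

/-- Job RA. The image of a random set, for a monotone function. Induction on `A`, generalizing `f` and
`x`. `A = ∅`: `ev ∅ p _ = f ∅ ≤ ev B x f` (`ev_const`, `ev_mono`; `0 ≤ x a` by the hypothesis `hx`).
`insert i A`, `b = π i ∈ B`: let `x'` be `x` with `x b` replaced by `x b - p i`, and `f_b S = f (insert b S)`
(monotone). `ev (insert i A) p F = p i * ev A p (f_b ∘ image) + (1 - p i) * ev A p (f ∘ image)`, which is by
induction at most `p i * ev B x' f_b + (1 - p i) * ev B x' f`. Write `B = insert b (B.erase b)`,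
`u = ev (B.erase b) x f_b`, `v = ev (B.erase b) x f`, `v ≤ u`; `ev B x' f_b = u` and
`ev B x' f = x' b * u + (1 - x' b) * v` (`ev_insert`; `x'` agrees with `x` on `B.erase b`, needs a small
congruence lemma for the probabilities). Finally
`p u + (1 - p) (x' u + (1 - x') v) ≤ (p + x') u + (1 - p - x') v` for `x' = x b - p i ≥ 0`, `v ≤ u`. -/
theorem ev_image_le (A : Finset ι) (B : Finset α) (π : ι → α) (hπ : ∀ i ∈ A, π i ∈ B)
    (p : ι → ℝ) (hp : ∀ i ∈ A, 0 ≤ p i) (f : Finset α → ℝ) (hf : ∀ S T, S ⊆ T → f S ≤ f T)
    (x : α → ℝ) (hx : ∀ b ∈ B, ∑ i ∈ A.filter (fun i => π i = b), p i ≤ x b)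
    (hx1 : ∀ b ∈ B, x b ≤ 1) :
    ev A p (fun T => f (T.image π)) ≤ ev B x f := by
  induction A using Finset.induction_on generalizing f x with
  | empty =>
    rw [ev_empty, Finset.image_empty, ← ev_const B x (f ∅)]
    refine ev_mono (fun b hb => ⟨?_, hx1 b hb⟩) (fun T _ => hf _ _ (Finset.empty_subset T))
    have := hx b hb
    simpa using this
  | insert i A hi ih =>
    have hbB : π i ∈ B := hπ i (mem_insert_self i A)
    have hpi : 0 ≤ p i := hp i (mem_insert_self i A)
    have hpA : ∀ j ∈ A, 0 ≤ p j := fun j hj => hp j (mem_insert_of_mem hj)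
    have hsplit : ∀ a ∈ B, (if a = π i then p i else 0) +
        ∑ j ∈ A.filter (fun j => π j = a), p j ≤ x a := by
      intro a ha
      have h1 := hx a ha
      rw [Finset.filter_insert] at h1
      by_cases hab : π i = a
      · rw [if_pos hab, Finset.sum_insert (by simp [hi])] at h1
        rw [if_pos hab.symm]; exact h1
      · rw [if_neg hab] at h1
        rw [if_neg (fun h => hab h.symm)]; linarith
    have hnn : ∀ a, 0 ≤ ∑ j ∈ A.filter (fun j => π j = a), p j := fun a =>
      Finset.sum_nonneg fun j hj => hpA j (Finset.mem_filter.1 hj).1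
    obtain ⟨x', hx'⟩ : ∃ x' : α → ℝ, x' = Function.update x (π i) (x (π i) - p i) := ⟨_, rfl⟩
    have hxb : x' (π i) = x (π i) - p i := by rw [hx']; simp
    have hxne : ∀ a, a ≠ π i → x' a = x a := by
      intro a ha; rw [hx']; simp [Function.update_of_ne ha]
    have hsb := hsplit (π i) hbB
    rw [if_pos rfl] at hsb
    have hx'0 : 0 ≤ x' (π i) := by rw [hxb]; linarith [hnn (π i)]
    have hx'B : ∀ a ∈ B, ∑ j ∈ A.filter (fun j => π j = a), p j ≤ x' a := by
      intro a ha
      by_cases hab : a = π i
      · subst hab; rw [hxb]; linarith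
      · rw [hxne a hab]
        have := hsplit a ha
        rw [if_neg hab] at this
        linarith
    have hx'1 : ∀ a ∈ B, x' a ≤ 1 := by
      intro a ha
      by_cases hab : a = π i
      · subst hab; rw [hxb]; linarith [hx1 _ ha]
      · rw [hxne a hab]; exact hx1 a ha
    have hfb : ∀ S T : Finset α, S ⊆ T → f (insert (π i) S) ≤ f (insert (π i) T) :=
      fun S T h => hf _ _ (Finset.insert_subset_insert _ h)
    have hπA : ∀ j ∈ A, π j ∈ B := fun j hj => hπ j (mem_insert_of_mem hj)
    have ih1 := ih hπA hpA (fun S => f (insert (π i) S)) hfb x' hx'B hx'1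
    have ih2 := ih hπA hpA f hf x' hx'B hx'1
    rw [ev_insert hi]
    have him : ev A p (fun T => f ((insert i T).image π)) =
        ev A p (fun T => f (insert (π i) (T.image π))) := by
      refine ev_congr fun T _ => ?_
      rw [Finset.image_insert]
    rw [him]
    have hB : insert (π i) (B.erase (π i)) = B := Finset.insert_erase hbB
    have hnot := Finset.notMem_erase (π i) B
    have e1 : ev B x' (fun S => f (insert (π i) S)) =
        ev (B.erase (π i)) x (fun S => f (insert (π i) S)) := by
      conv_lhs => rw [← hB]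
      rw [ev_insert hnot]
      have : ev (B.erase (π i)) x' (fun T => f (insert (π i) (insert (π i) T))) =
          ev (B.erase (π i)) x' (fun T => f (insert (π i) T)) := by
        refine ev_congr fun T _ => ?_
        rw [Finset.insert_idem]
      rw [this]
      have h2 : ev (B.erase (π i)) x' (fun T => f (insert (π i) T)) =
          ev (B.erase (π i)) x (fun T => f (insert (π i) T)) :=
        RA_congr (fun a ha => hxne a (Finset.ne_of_mem_erase ha)) _
      rw [h2]; ring
    have e2 : ev B x' f = x' (π i) * ev (B.erase (π i)) x (fun S => f (insert (π i) S)) +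
        (1 - x' (π i)) * ev (B.erase (π i)) x f := by
      conv_lhs => rw [← hB]
      rw [ev_insert hnot]
      rw [RA_congr (p := x') (q := x) (fun a ha => hxne a (Finset.ne_of_mem_erase ha))
        (fun T => f (insert (π i) T)),
        RA_congr (p := x') (q := x) (fun a ha => hxne a (Finset.ne_of_mem_erase ha)) f]
    have e3 : ev B x f = x (π i) * ev (B.erase (π i)) x (fun S => f (insert (π i) S)) +
        (1 - x (π i)) * ev (B.erase (π i)) x f := by
      conv_lhs => rw [← hB]
      rw [ev_insert hnot]
    have hx01 : ∀ a ∈ B.erase (π i), 0 ≤ x a ∧ x a ≤ 1 := by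
      intro a ha
      have haB := Finset.mem_of_mem_erase ha
      have hne := Finset.ne_of_mem_erase ha
      refine ⟨?_, hx1 a haB⟩
      have := hx'B a haB
      rw [hxne a hne] at this
      linarith [hnn a]
    have huv : ev (B.erase (π i)) x f ≤ ev (B.erase (π i)) x (fun S => f (insert (π i) S)) :=
      ev_mono hx01 fun T _ => hf _ _ (Finset.subset_insert _ _)
    rw [e1] at ih1
    rw [e2] at ih2
    rw [e3]
    set u := ev (B.erase (π i)) x (fun S => f (insert (π i) S)) with hu
    set v := ev (B.erase (π i)) x f with hv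
    have hp1 : p i ≤ 1 := by
      have := hx1 _ hbB
      linarith [hnn (π i)]
    have h1 : p i * ev A p (fun T => f (insert (π i) (T.image π))) ≤ p i * u :=
      mul_le_mul_of_nonneg_left ih1 hpi
    have h2 : (1 - p i) * ev A p (fun T => f (T.image π)) ≤
        (1 - p i) * (x' (π i) * u + (1 - x' (π i)) * v) :=
      mul_le_mul_of_nonneg_left ih2 (by linarith)
    have h3 : 0 ≤ p i * x' (π i) * (u - v) :=
      mul_nonneg (mul_nonneg hpi hx'0) (by linarith)
    have h4 : x (π i) = p i + x' (π i) := by rw [hxb]; ring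
    rw [h4]
    nlinarith

end Pool.Agent.Lib.MP_7470b6_lc.Bip
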