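import Pool.Agent.Lib.MP_7470b6_lc.Bip.BO
import Pool.Agent.Lib.MP_7470b6_lc.Crs.POL

/-!
# The multigraph of copies of the edges of a bipartite graph
-/

open Finset

namespace Pool.Agent.Lib.MP_7470b6_lc.Bip

open Pool.Agent.Lib.MP_7470b6_lc.Crs

variable {V : Type} [Fintype V] [DecidableEq V]

open Classical in
/-- The maximum weight of a matching contained in `S`. -/
noncomputable def nuS (w : Sym2 V → ℕ) (S : Finset (Sym2 V)) : ℕ :=
  (S.powerset.filter (fun M => IsMatch M)).sup (fun M => ∑ e ∈ M, w e)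

/-- Every edge has an end of colour `true` and an end of colour `false`. -/
def Ends (G : SimpleGraph V) (c : V → Bool) (ea eb : Sym2 V → V) : Prop :=
  ∀ e ∈ edges G, e = s(ea e, eb e) ∧ c (ea e) = true ∧ c (eb e) = false

/-- `k` copies of every edge. -/
def cop (G : SimpleGraph V) (ea eb : Sym2 V → V) (w : Sym2 V → ℕ) (k : ℕ) :
    MG V ({e // e ∈ edges G} × Fin k) where
  a i := ea i.1.1
  b i := eb i.1.1
  w i := w i.1.1

/-- Job RB. -/
theorem exists_ends (G : SimpleGraph V) (c : V → Bool) (hc : ∀ u v, G.Adj u v → c u ≠ c v) :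
    ∃ ea eb, Ends G c ea eb := by
  classical
  refine ⟨fun e => if c (Quot.out e).1 = true then (Quot.out e).1 else (Quot.out e).2,
    fun e => if c (Quot.out e).1 = true then (Quot.out e).2 else (Quot.out e).1, ?_⟩
  intro e he
  have hq : s((Quot.out e).1, (Quot.out e).2) = e := Quot.out_eq e
  have hadj : G.Adj (Quot.out e).1 (Quot.out e).2 := by
    have h1 : e ∈ G.edgeSet := (Finset.mem_filter.1 he).2
    rw [← hq] at h1
    exact h1
  have hcc := hc _ _ hadj
  by_cases h : c (Quot.out e).1 = true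
  · simp only [if_pos h]
    refine ⟨hq.symm, ?_⟩
    rw [h] at hcc
    cases h2 : c (Quot.out e).2
    · exact ⟨h, rfl⟩
    · exact absurd h2.symm hcc
  · simp only [if_neg h]
    refine ⟨?_, ?_⟩
    · rw [Sym2.eq_swap]; exact hq.symm
    · have h1 : c (Quot.out e).1 = false := by simpa using h
      rw [h1] at hcc
      refine ⟨?_, h1⟩
      cases h2 : c (Quot.out e).2
      · exact absurd h2.symm hcc
      · rfl

/-- Job RB. -/
theorem nuS_mono (w : Sym2 V → ℕ) {S T : Finset (Sym2 V)} (h : S ⊆ T) : nuS w S ≤ nuS w T := by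
  classical
  unfold nuS
  refine Finset.sup_mono ?_
  intro M hM
  rw [Finset.mem_filter, Finset.mem_powerset] at hM ⊢
  exact ⟨hM.1.trans h, hM.2⟩

/-- Job RB. -/
theorem exists_nuS (w : Sym2 V → ℕ) (S : Finset (Sym2 V)) :
    ∃ M, M ⊆ S ∧ IsMatch M ∧ nuS w S = ∑ e ∈ M, w e := by
  classical
  have hne : (S.powerset.filter (fun M => IsMatch M)).Nonempty := by
    refine ⟨∅, ?_⟩
    rw [Finset.mem_filter, Finset.mem_powerset]
    refine ⟨Finset.empty_subset _, ?_⟩
    intro e he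
    exact absurd he (Finset.notMem_empty e)
  obtain ⟨M, hM, h⟩ := Finset.exists_mem_eq_sup _ hne (fun M => ∑ e ∈ M, w e)
  rw [Finset.mem_filter, Finset.mem_powerset] at hM
  exact ⟨M, hM.1, hM.2, h⟩

/-- Job RB. The edge `i` contains the vertex `v` iff `i.1` does. -/
theorem cop_mem_E {G : SimpleGraph V} {c : V → Bool} {ea eb : Sym2 V → V} (h : Ends G c ea eb)
    {w : Sym2 V → ℕ} {k : ℕ} (v : V) (i : {e // e ∈ edges G} × Fin k) :
    i ∈ (cop G ea eb w k).E v ↔ v ∈ i.1.1 := by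
  rw [mem_E]
  have h1 := (h i.1.1 i.1.2).1
  rw [show (v ∈ i.1.1) = (v ∈ s(ea i.1.1, eb i.1.1)) by rw [← h1], Sym2.mem_iff]
  change (ea i.1.1 = v ∨ eb i.1.1 = v) ↔ _
  constructor
  · rintro (h | h)
    · exact Or.inl h.symm
    · exact Or.inr h.symm
  · rintro (h | h)
    · exact Or.inl h.symm
    · exact Or.inr h.symm

/-- Job RB. -/
theorem cop_twoCol {G : SimpleGraph V} {c : V → Bool} {ea eb : Sym2 V → V} (h : Ends G c ea eb)
    {w : Sym2 V → ℕ} {k : ℕ} : TwoCol (cop G ea eb w k) c :=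
  ⟨fun i => (h i.1.1 i.1.2).2.1, fun i => (h i.1.1 i.1.2).2.2⟩

private theorem RB_edge {G : SimpleGraph V} {c : V → Bool} {ea eb : Sym2 V → V}
    (h : Ends G c ea eb) {w : Sym2 V → ℕ} {k : ℕ} {v : V} {i : {e // e ∈ edges G} × Fin k}
    (hi : i ∈ (cop G ea eb w k).E v) : i.1.1 = s(v, (cop G ea eb w k).ot i v) := by
  have h1 := (h i.1.1 i.1.2).1
  rw [mem_E] at hi
  change ea i.1.1 = v ∨ eb i.1.1 = v at hi
  unfold MG.ot
  change i.1.1 = s(v, if ea i.1.1 = v then eb i.1.1 else ea i.1.1)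
  by_cases h2 : ea i.1.1 = v
  · rw [if_pos h2, ← h2]; exact h1
  · rw [if_neg h2]
    have h3 : eb i.1.1 = v := hi.resolve_left h2
    rw [Sym2.eq_swap]
    rw [← h3]
    exact h1

/-- Job RB. Parallel edges are copies of the same edge. -/
theorem cop_par {G : SimpleGraph V} {c : V → Bool} {ea eb : Sym2 V → V} (h : Ends G c ea eb)
    {w : Sym2 V → ℕ} {k : ℕ} : (cop G ea eb w k).Par := by
  intro i j v hi hj hij
  have h1 := RB_edge h hi
  have h2 := RB_edge h hj
  rw [← hij, ← h1] at h2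
  change w i.1.1 = w j.1.1
  rw [h2]

/-- Job RB. `PF_vertex`. (`matchingPolytope G` is `PF (edges G)` by definition, `x e ≤ 1` also follows
from `PF_vertex`.) -/
theorem cop_load {G : SimpleGraph V} {c : V → Bool} {ea eb : Sym2 V → V} (h : Ends G c ea eb)
    {w : Sym2 V → ℕ} {k : ℕ} (hk : 0 < k) {x : Sym2 V → ℝ} (hx : x ∈ matchingPolytope G) :
    LoadOk (cop G ea eb w k) (fun i => x i.1.1 / k) (1 / k) := by
  classical
  have hx' : x ∈ PF (edges G) := hx
  have hk' : (0 : ℝ) < k := by exact_mod_cast hk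
  have hkey : ∀ v, ∑ e ∈ edges G, (if v ∈ e then x e else 0) ≤ 1 := by
    intro v
    have h1 := PF_vertex hx' v
    rw [Finset.sum_filter] at h1
    refine le_trans (le_of_eq (Finset.sum_congr rfl fun e _ => ?_)) h1
    by_cases hv : v ∈ e
    · rw [if_pos hv, if_pos hv]
    · rw [if_neg hv, if_neg hv]
  refine ⟨fun i => div_nonneg (PF_nonneg hx' _) hk'.le, fun i => ?_, fun v => ?_⟩
  · have h1 : x i.1.1 ≤ 1 := by
      have h2 := hkey (ea i.1.1)
      have h3 : ea i.1.1 ∈ i.1.1 := by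
        have h4 := (h i.1.1 i.1.2).1
        rw [show (ea i.1.1 ∈ i.1.1) = (ea i.1.1 ∈ s(ea i.1.1, eb i.1.1)) by rw [← h4]]
        exact Sym2.mem_mk_left _ _
      have h5 := Finset.single_le_sum (f := fun e => if ea i.1.1 ∈ e then x e else 0)
        (s := edges G) (fun e _ => by
          by_cases hv : ea i.1.1 ∈ e
          · simp only [if_pos hv]; exact PF_nonneg hx' e
          · simp only [if_neg hv]; exact le_rfl) i.1.2
      simp only [if_pos h3] at h5
      exact h5.trans h2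
    exact div_le_div_of_nonneg_right h1 hk'.le
  · have h1 : ∑ i ∈ (cop G ea eb w k).E v, x i.1.1 / k =
        ∑ e : {e // e ∈ edges G}, ∑ _j : Fin k, if v ∈ e.1 then x e.1 / k else 0 := by
      rw [← Finset.sum_product', ← Finset.sum_filter]
      refine Finset.sum_congr ?_ fun _ _ => rfl
      ext i
      rw [cop_mem_E h, Finset.mem_filter]
      simp
    rw [h1]
    have h2 : ∀ e : {e // e ∈ edges G}, (∑ _j : Fin k, if v ∈ e.1 then x e.1 / k else 0) =
        if v ∈ e.1 then x e.1 else 0 := by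
      intro e
      rw [Finset.sum_const, Finset.card_univ, Fintype.card_fin, nsmul_eq_mul]
      split_ifs
      · field_simp
      · simp
    rw [Finset.sum_congr rfl fun e _ => h2 e]
    have h3 : ∑ e : {e // e ∈ edges G}, (if v ∈ e.1 then x e.1 else 0) =
        ∑ e ∈ edges G, if v ∈ e then x e else 0 :=
      Finset.sum_coe_sort (edges G) (fun e => if v ∈ e then x e else 0)
    rw [h3]
    exact hkey v

/-- Job RB. -/
theorem cop_sum {G : SimpleGraph V} {ea eb : Sym2 V → V} {w : Sym2 V → ℕ} {k : ℕ} (hk : 0 < k)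
    {x : Sym2 V → ℝ} :
    ∑ i : {e // e ∈ edges G} × Fin k, x i.1.1 / k * ((cop G ea eb w k).w i : ℝ) =
      ∑ e ∈ edges G, x e * (w e : ℝ) := by
  have hk' : (0 : ℝ) < k := by exact_mod_cast hk
  rw [Fintype.sum_prod_type]
  rw [← Finset.sum_coe_sort (edges G) (fun e => x e * (w e : ℝ))]
  refine Finset.sum_congr rfl fun e _ => ?_
  have h1 : ∀ j : Fin k, x e.1 / k * ((cop G ea eb w k).w (e, j) : ℝ) =
      x e.1 / k * (w e.1 : ℝ) := fun j => rfl
  rw [Finset.sum_congr rfl fun j _ => h1 j, Finset.sum_const, Finset.card_univ,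
    Fintype.card_fin, nsmul_eq_mul]
  field_simp

/-- Job RB. `i ↦ i.1.1` is injective on a matching `M` of `cop` contained in `T`, and its image is a matching
contained in the image of `T`. -/
theorem cop_nu_le {G : SimpleGraph V} {c : V → Bool} {ea eb : Sym2 V → V} (h : Ends G c ea eb)
    {w : Sym2 V → ℕ} {k : ℕ} (T : Finset ({e // e ∈ edges G} × Fin k)) :
    (cop G ea eb w k).nu T ≤ (nuS w (T.image (fun i => i.1.1)) : ℤ) := by
  classical
  unfold MG.nu
  rw [Nat.cast_le]
  refine Finset.sup_le fun M hM => ?_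
  rw [Finset.mem_filter, Finset.mem_powerset] at hM
  obtain ⟨hMT, hMM⟩ := hM
  have hinj : Set.InjOn (fun i : {e // e ∈ edges G} × Fin k => i.1.1) M := by
    intro i hi j hj hij
    have h1 : ea i.1.1 ∈ i.1.1 := by
      have h4 := (h i.1.1 i.1.2).1
      rw [show (ea i.1.1 ∈ i.1.1) = (ea i.1.1 ∈ s(ea i.1.1, eb i.1.1)) by rw [← h4]]
      exact Sym2.mem_mk_left _ _
    refine hMM (ea i.1.1) i hi j hj ((cop_mem_E h _ _).2 h1) ((cop_mem_E h _ _).2 ?_)
    have hij' : i.1.1 = j.1.1 := hij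
    rw [← hij']
    exact h1
  have hsum : ∑ i ∈ M, (cop G ea eb w k).w i =
      ∑ e ∈ M.image (fun i => i.1.1), w e := by
    rw [Finset.sum_image hinj]
    rfl
  rw [hsum]
  unfold nuS
  refine Finset.le_sup (f := fun M => ∑ e ∈ M, w e) ?_
  rw [Finset.mem_filter, Finset.mem_powerset]
  refine ⟨Finset.image_subset_image hMT, ?_⟩
  intro e he f hf v hve hvf
  rw [Finset.mem_image] at he hf
  obtain ⟨i, hi, rfl⟩ := he
  obtain ⟨j, hj, rfl⟩ := hf
  have := hMM v i hi j hj ((cop_mem_E h _ _).2 hve) ((cop_mem_E h _ _).2 hvf)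
  rw [this]

end Pool.Agent.Lib.MP_7470b6_lc.Bip
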