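import Pool.Agent.Lib.MP_7470b6_lc.Bip.XC

/-!
# Number of good edges
-/

open Finset

namespace Pool.Agent.Lib.MP_7470b6_lc.Bip

open Pool.Agent.Lib.MP_7470b6_lc.Crs

variable {V ι : Type} [Fintype V] [DecidableEq V] [Fintype ι] [DecidableEq ι] {g : MG V ι}
  {c : V → Bool} {p : ι → ℝ} {eps : ℝ}

/-- Job XE. For `p ≥ 0`: `exp (-p) * (2 + p) ≥ 2 - p`. -/
theorem exp_two {x : ℝ} (hx : 0 ≤ x) : 2 - x ≤ Real.exp (-x) * (2 + x) := by
  have hder : ∀ t : ℝ, HasDerivAt (fun t : ℝ => Real.exp (-t) * (2 + t) + t)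
      (1 - Real.exp (-t) * (1 + t)) t := by
    intro t
    have h1 : HasDerivAt (fun t : ℝ => Real.exp (-t)) (Real.exp (-t) * (-1)) t :=
      (hasDerivAt_neg t).exp
    have h2 : HasDerivAt (fun t : ℝ => 2 + t) 1 t := (hasDerivAt_id t).const_add 2
    have h3 := (h1.mul h2).add (hasDerivAt_id t)
    refine h3.congr_deriv ?_
    ring
  have hmono : MonotoneOn (fun t : ℝ => Real.exp (-t) * (2 + t) + t) (Set.Ici 0) := by
    refine monotoneOn_of_deriv_nonneg (convex_Ici 0)
      (fun t _ => (hder t).continuousAt.continuousWithinAt)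
      (fun t _ => (hder t).differentiableAt.differentiableWithinAt) ?_
    intro t ht
    rw [(hder t).deriv]
    have h1 : 1 + t ≤ Real.exp t := by linarith [Real.add_one_le_exp t]
    have h2 : Real.exp (-t) * (1 + t) ≤ Real.exp (-t) * Real.exp t :=
      mul_le_mul_of_nonneg_left h1 (Real.exp_pos _).le
    rw [← Real.exp_add, neg_add_cancel, Real.exp_zero] at h2
    linarith
  have := hmono (Set.mem_Ici.2 le_rfl) (Set.mem_Ici.2 hx) hx
  simp only [neg_zero, Real.exp_zero, add_zero, one_mul] at this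
  linarith

private theorem XE_res {B K : Finset ι} (hK : K ⊆ B) (p : ι → ℝ) (f : Finset ι → ℝ) :
    ev B p (fun T => f (T ∩ K)) = ev K p f := by
  have hd : Disjoint (B \ K) K := Finset.sdiff_disjoint
  have hB : (B \ K) ∪ K = B := Finset.sdiff_union_of_subset hK
  conv_lhs => rw [← hB]
  rw [ev_union hd]
  have h1 : ∀ S ⊆ B \ K, ev K p (fun T => f ((S ∪ T) ∩ K)) = ev K p f := by
    intro S hS
    refine ev_congr fun T hT => ?_
    congr 1
    ext i
    simp only [Finset.mem_inter, Finset.mem_union]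
    constructor
    · rintro ⟨h | h, hi⟩
      · exact absurd hi (Finset.mem_sdiff.1 (hS h)).2
      · exact h
    · intro h
      exact ⟨Or.inr h, hT h⟩
  rw [ev_congr h1, ev_const]

private theorem XE_ind (K : Finset ι) (p : ι → ℝ) (hp : ∀ i, 0 ≤ p i ∧ p i ≤ 1) :
    ev K p (fun T => if T = ∅ then (1 : ℝ) else 0) ≤ Real.exp (-∑ i ∈ K, p i) ∧
    ev K p (fun T => 2 - ((min T.card 2 : ℕ) : ℝ)) ≤
      Real.exp (-∑ i ∈ K, p i) * (2 + ∑ i ∈ K, p i) := by
  induction K using Finset.induction_on with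
  | empty =>
    rw [ev_empty, ev_empty]
    simp
  | insert i K hi ih =>
    obtain ⟨ih1, ih2⟩ := ih
    have hpi := hp i
    have hm : 0 ≤ ∑ j ∈ K, p j := Finset.sum_nonneg fun j _ => (hp j).1
    have h1 : ev K p (fun T => if insert i T = ∅ then (1 : ℝ) else 0) = 0 := by
      rw [ev_congr (g := fun _ => (0 : ℝ)) fun T _ => if_neg (Finset.insert_ne_empty i T)]
      exact ev_const _ _ _
    have h2 : ev K p (fun T => 2 - ((min (insert i T).card 2 : ℕ) : ℝ)) =
        ev K p (fun T => if T = ∅ then (1 : ℝ) else 0) := by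
      refine ev_congr fun T hT => ?_
      have hiT : i ∉ T := fun h => hi (hT h)
      rw [Finset.card_insert_of_notMem hiT]
      by_cases hT0 : T = ∅
      · rw [if_pos hT0, hT0]
        norm_num
      · rw [if_neg hT0]
        have : 1 ≤ T.card := Finset.card_pos.2 (Finset.nonempty_iff_ne_empty.2 hT0)
        rw [min_eq_right (by omega)]
        norm_num
    set m := ∑ j ∈ K, p j with hmdef
    have hs : ∑ j ∈ insert i K, p j = p i + m := Finset.sum_insert hi
    have he : Real.exp (-(p i + m)) = Real.exp (-p i) * Real.exp (-m) := by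
      rw [← Real.exp_add]; congr 1; ring
    have he0 := Real.exp_pos (-m)
    have he1 : 1 - p i ≤ Real.exp (-p i) := by linarith [Real.add_one_le_exp (-p i)]
    have he2 := exp_two hpi.1
    rw [ev_insert hi, ev_insert hi, h1, h2, hs, he]
    constructor
    · rw [mul_zero, zero_add]
      calc (1 - p i) * ev K p (fun T => if T = ∅ then (1 : ℝ) else 0)
          ≤ (1 - p i) * Real.exp (-m) := mul_le_mul_of_nonneg_left ih1 (by linarith)
        _ ≤ Real.exp (-p i) * Real.exp (-m) := mul_le_mul_of_nonneg_right he1 he0.le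
    · have a1 : p i * ev K p (fun T => if T = ∅ then (1 : ℝ) else 0) ≤ p i * Real.exp (-m) :=
        mul_le_mul_of_nonneg_left ih1 hpi.1
      have a2 : (1 - p i) * ev K p (fun T => 2 - ((min T.card 2 : ℕ) : ℝ)) ≤
          (1 - p i) * (Real.exp (-m) * (2 + m)) := mul_le_mul_of_nonneg_left ih2 (by linarith)
      have a3 : p i + (1 - p i) * (2 + m) ≤ Real.exp (-p i) * (2 + (p i + m)) := by
        have : m * (1 - p i) ≤ m * Real.exp (-p i) := mul_le_mul_of_nonneg_left he1 hm
        nlinarith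
      have a4 : Real.exp (-m) * (p i + (1 - p i) * (2 + m)) ≤
          Real.exp (-m) * (Real.exp (-p i) * (2 + (p i + m))) :=
        mul_le_mul_of_nonneg_left a3 he0.le
      nlinarith

/-- Job XE. Expectation of `min (T ∩ K).card 2` for a random subset `T` of `B ⊇ K`, with `m = ∑ i ∈ K, p i`.
Induction on `K` for the two statements `P(T ∩ K = ∅) ≤ exp (-m)` and
`E (2 - min ((T ∩ K).card) 2) = 2 P(0) + P(1) ≤ exp (-m) (2 + m)`: adding an element of probability `p` gives
`(1 - p) E(2 - min) + p P(T ∩ K = ∅) ≤ exp (-m) ((1 - p) (2 + m) + p) ≤ exp (-m - p) (2 + m + p)`,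
which follows from `exp_two` and `exp (-p) ≥ 1 - p`. (Reduce to `B = K` first, or do the induction on
`B`.) -/
theorem ev_card_ge {B K : Finset ι} (hK : K ⊆ B) (hp : ∀ i, 0 ≤ p i ∧ p i ≤ 1) :
    2 - Real.exp (-∑ i ∈ K, p i) * (2 + ∑ i ∈ K, p i) ≤
      ev B p (fun T => ((min (T ∩ K).card 2 : ℕ) : ℝ)) := by
  have h1 := XE_res hK p (fun T => ((min T.card 2 : ℕ) : ℝ))
  have h2 := (XE_ind K p hp).2
  rw [ev_sub, ev_const] at h2
  rw [h1]
  linarith

omit [Fintype V] in
private theorem XE_m (u : V) (s : ℕ) (S : Finset ι) :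
    g.m p u s S = ∑ i ∈ (g.E u).filter (fun i => g.D (g.ot i u) (S \ g.E u) + (s : ℤ) < (g.w i : ℤ)),
      p i := by
  unfold MG.m MG.gd
  rw [Finset.sum_filter]
  refine Finset.sum_congr rfl fun i _ => ?_
  split_ifs <;> simp

/-- Job XE. `univ = (univ \ E u) ∪ E u`, `ev_union`; given `S \ E u` the count is
`(T ∩ K).card` with `K` the set of the good edges at `u`, `∑ i ∈ K, p i = m u s S`. -/
theorem cnt_lower (hp : ∀ i, 0 ≤ p i ∧ p i ≤ 1) (u : V) (s : ℕ) :
    EV p (fun S => 2 - Real.exp (-g.m p u s S) * (2 + g.m p u s S)) ≤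
      EV p (fun S => ((min (g.cnt u s S) 2 : ℕ) : ℝ)) := by
  have hd : Disjoint (univ \ g.E u) (g.E u) := Finset.sdiff_disjoint
  have hU : (univ \ g.E u) ∪ g.E u = univ := Finset.sdiff_union_of_subset (Finset.subset_univ _)
  unfold EV
  rw [← hU, ev_union hd, ev_union hd]
  refine ev_mono (fun i _ => hp i) fun S hS => ?_
  have hsd : ∀ T ⊆ g.E u, (S ∪ T) \ g.E u = S := by
    intro T hT
    ext i
    simp only [Finset.mem_sdiff, Finset.mem_union]
    constructor
    · rintro ⟨h | h, hi⟩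
      · exact h
      · exact absurd (hT h) hi
    · intro h
      exact ⟨Or.inl h, (Finset.mem_sdiff.1 (hS h)).2⟩
  have hin : ∀ T ⊆ g.E u, (S ∪ T) ∩ g.E u = T := by
    intro T hT
    ext i
    simp only [Finset.mem_inter, Finset.mem_union]
    constructor
    · rintro ⟨h | h, hi⟩
      · exact absurd hi (Finset.mem_sdiff.1 (hS h)).2
      · exact h
    · intro h
      exact ⟨Or.inr h, hT h⟩
  set K := (g.E u).filter (fun i => g.D (g.ot i u) S + (s : ℤ) < (g.w i : ℤ)) with hK
  have h1 : ev (g.E u) p (fun T => 2 - Real.exp (-g.m p u s (S ∪ T)) * (2 + g.m p u s (S ∪ T))) =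
      2 - Real.exp (-∑ i ∈ K, p i) * (2 + ∑ i ∈ K, p i) := by
    rw [ev_congr (g := fun _ => 2 - Real.exp (-∑ i ∈ K, p i) * (2 + ∑ i ∈ K, p i)) ?_, ev_const]
    intro T hT
    rw [XE_m, hsd T hT]
  have h2 : ev (g.E u) p (fun T => ((min (g.cnt u s (S ∪ T)) 2 : ℕ) : ℝ)) =
      ev (g.E u) p (fun T => ((min (T ∩ K).card 2 : ℕ) : ℝ)) := by
    refine ev_congr fun T hT => ?_
    have : g.cnt u s (S ∪ T) = (T ∩ K).card := by
      unfold MG.cnt
      rw [hsd T hT, hin T hT]
      congr 1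
      ext i
      rw [Finset.mem_filter, Finset.mem_inter, hK, Finset.mem_filter]
      constructor
      · rintro ⟨h, h'⟩
        exact ⟨h, hT h, h'⟩
      · rintro ⟨h, _, h'⟩
        exact ⟨h, h'⟩
    rw [this]
  rw [h1, h2]
  exact ev_card_ge (Finset.filter_subset _ _) hp

/-- Job XE. `m` and `th` at the same vertex: `K` the set of the good edges at `u` at level `s`,
`m = ∑ i ∈ K, p i`, `th univ u s S = ∏ i ∈ K, (1 - p i)`. -/
theorem th_bounds (hp : LoadOk g p eps) (he0 : 0 ≤ eps) (he : eps ≤ 0.0002) (u : V) (s : ℕ)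
    (S : Finset ι) :
    Real.exp (-g.m p u s S) * (1 - eps) ≤ g.th p univ u s S ∧
      g.th p univ u s S ≤ Real.exp (-g.m p u s S) := by
  have hth : g.th p univ u s S =
      ∏ i ∈ (g.E u).filter (fun i => g.D (g.ot i u) (S \ g.E u) + (s : ℤ) < (g.w i : ℤ)),
        (1 - p i) := by
    unfold MG.th
    rw [Finset.inter_univ, Finset.inter_univ, Finset.prod_filter]
    refine Finset.prod_congr rfl fun i _ => ?_
    split_ifs <;> simp
  rw [hth, XE_m]
  set K := (g.E u).filter (fun i => g.D (g.ot i u) (S \ g.E u) + (s : ℤ) < (g.w i : ℤ)) with hK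
  have hKE : K ⊆ g.E u := Finset.filter_subset _ _
  have hle : ∑ i ∈ K, p i ≤ 1 :=
    (Finset.sum_le_sum_of_subset_of_nonneg hKE fun i _ _ => hp.nonneg i).trans (hp.load u)
  refine ⟨?_, ?_⟩
  · exact prod_ge K p (fun i _ => hp.nonneg i) (fun i _ => hp.small i) he0 (by linarith) le_rfl hle
  · exact prod_le K p (fun i _ => p01 hp he i)

/-- Job XE. A good edge at level `s` has `s < w i`, as `D ≥ 0`. -/
theorem m_bounds (hp : LoadOk g p eps) (u : V) (s : ℕ) (S : Finset ι) :
    0 ≤ g.m p u s S ∧ g.m p u s S ≤ g.dl p u s ∧ g.dl p u s ≤ 1 := by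
  refine ⟨?_, ?_, ?_⟩
  · rw [XE_m]
    exact Finset.sum_nonneg fun i _ => hp.nonneg i
  · unfold MG.m MG.dl MG.gd
    refine Finset.sum_le_sum fun i _ => ?_
    by_cases h : g.D (g.ot i u) (S \ g.E u) + (s : ℤ) < (g.w i : ℤ)
    · have hD := D_nonneg (g := g) (g.ot i u) (S \ g.E u)
      have hsw : s < g.w i := by
        have : (s : ℤ) < (g.w i : ℤ) := by linarith
        exact_mod_cast this
      rw [if_pos h, if_pos hsw, mul_one]
    · rw [if_neg h, mul_zero]
      split_ifs
      · exact hp.nonneg i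
      · exact le_rfl
  · refine le_trans (Finset.sum_le_sum fun i _ => ?_) (hp.load u)
    split_ifs
    · exact le_rfl
    · exact hp.nonneg i

end Pool.Agent.Lib.MP_7470b6_lc.Bip
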