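import Pool.Agent.Lib.MP_7470b6_lc.Bip.XF

/-!
# The second moment
-/

open Finset

namespace Pool.Agent.Lib.MP_7470b6_lc.Bip

open Pool.Agent.Lib.MP_7470b6_lc.Crs

variable {V ι : Type} [Fintype V] [DecidableEq V] [Fintype ι] [DecidableEq ι] {g : MG V ι}
  {c : V → Bool} {p : ι → ℝ} {eps : ℝ}

/-- Job XG. Parallel edges (same `ot`, same weight) have `gd u s i = gd u s j`, and `gd * gd = gd`;
`lev_gd`; `x ≤ x² + (1 - c0) x` for `c0 ≤ x ≤ 1`; the edges `i` and `j` have the same `th` sum. -/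
theorem par_bound (hP : g.Par) (hp : LoadOk g p eps) (he : eps ≤ 0.0002) {u : V} {i j : ι}
    (hi : i ∈ g.E u) (hj : j ∈ g.E u) (heq : g.ot j u = g.ot i u) {N : ℕ} (hN : ∀ i, g.w i ≤ N) :
    ∑ s ∈ range N, EV p (fun S => g.gd u s i S * g.gd u s j S) ≤
      (1 / 2) * ∑ r ∈ range (g.w i), EV p (fun S => (g.th p (g.FA u i) (g.ot i u) r S) ^ 2) +
      (1 / 2) * ∑ r ∈ range (g.w j), EV p (fun S => (g.th p (g.FA u j) (g.ot j u) r S) ^ 2) +
      (1 - c0) * ∑ s ∈ range (g.w i), EV p (fun S => g.gd u s j S) := by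
  have hw : g.w j = g.w i := hP j i u hj hi heq
  have hgd : ∀ s S, g.gd u s j S = g.gd u s i S := by
    intro s S
    unfold MG.gd
    rw [heq, hw]
  have hgg : ∀ s S, g.gd u s i S * g.gd u s j S = g.gd u s i S := by
    intro s S
    rw [hgd]
    unfold MG.gd
    split_ifs <;> norm_num
  have h1 : ∑ s ∈ range N, EV p (fun S => g.gd u s i S * g.gd u s j S) =
      ∑ r ∈ range (g.w i), EV p (fun S => g.th p (g.FA u i) (g.ot i u) r S) := by
    rw [← lev_gd (hN i)]
    refine Finset.sum_congr rfl fun s _ => ?_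
    exact ev_congr fun S _ => hgg s S
  have h2 : ∑ s ∈ range (g.w i), EV p (fun S => g.gd u s j S) =
      ∑ r ∈ range (g.w i), EV p (fun S => g.th p (g.FA u i) (g.ot i u) r S) := by
    rw [← lev_gd']
    refine Finset.sum_congr rfl fun s _ => ?_
    exact ev_congr fun S _ => hgd s S
  have h3 : ∑ r ∈ range (g.w j), EV p (fun S => (g.th p (g.FA u j) (g.ot j u) r S) ^ 2) =
      ∑ r ∈ range (g.w i), EV p (fun S => (g.th p (g.FA u i) (g.ot i u) r S) ^ 2) := by
    rw [hw, heq]
    rfl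
  have h4 : ∑ r ∈ range (g.w i), EV p (fun S => g.th p (g.FA u i) (g.ot i u) r S) ≤
      ∑ r ∈ range (g.w i), EV p (fun S => (g.th p (g.FA u i) (g.ot i u) r S) ^ 2) +
      (1 - c0) * ∑ r ∈ range (g.w i), EV p (fun S => g.th p (g.FA u i) (g.ot i u) r S) := by
    rw [Finset.mul_sum, ← Finset.sum_add_distrib]
    refine Finset.sum_le_sum fun r _ => ?_
    rw [← ev_const_mul, ← ev_add]
    refine ev_mono (fun k _ => p01 hp he k) fun S _ => ?_
    have h5 := c0_le_th hp he (g.FA u i) (g.ot i u) r S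
    have h6 : 0 < c0 := by
      unfold c0
      norm_num
    nlinarith
  rw [h1, h2, h3]
  linarith

/-- Job XG. Expand `m² = ∑ i j, p i p j gd i gd j`; pairs with different `ot`: `pair_bound`, the others:
`par_bound`; `∑ j ∈ E u, p j ≤ 1`: with `q i = ∑ r < w i, E (th FA (ot i u) r)²`,
`∑ i j, p i p j (q i / 2 + q j / 2) = (∑ j, p j) ∑ i, p i q i ≤ ∑ i, p i q i`. -/
theorem second_moment (hB : TwoCol g c) (hP : g.Par) (hp : LoadOk g p eps) (he : eps ≤ 0.0002)
    {N : ℕ} (hN : ∀ i, g.w i ≤ N) :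
    ∑ u, ∑ s ∈ range N, EV p (fun S => (g.m p u s S) ^ 2) ≤
      g.SS p g.FA 2 + (1 - c0) * g.DG p + (1 - 2 * c0) * g.WW p := by
  set q : V → ι → ℝ := fun u i =>
    ∑ r ∈ range (g.w i), EV p (fun S => (g.th p (g.FA u i) (g.ot i u) r S) ^ 2) with hq
  have hU : ∀ u, ∑ s ∈ range N, EV p (fun S => (g.m p u s S) ^ 2) ≤
      ∑ i ∈ g.E u, p i * q u i +
        (1 - c0) * (∑ i ∈ g.E u, p i * ∑ s ∈ range (g.w i), EV p (fun S => g.XX p u i s S)) +
        (1 - 2 * c0) * ∑ i ∈ g.E u, ∑ j ∈ (g.E u).filter (fun j => g.ot j u ≠ g.ot i u),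
          p i * p j * EV p (fun S => (g.c2 u i j S : ℝ)) := by
    intro u
    have hm : ∀ s S, (g.m p u s S) ^ 2 =
        ∑ i ∈ g.E u, ∑ j ∈ g.E u, (p i * p j) * (g.gd u s i S * g.gd u s j S) := by
      intro s S
      rw [MG.m, pow_two, Finset.sum_mul_sum]
      refine Finset.sum_congr rfl fun i _ => Finset.sum_congr rfl fun j _ => ?_
      ring
    have h1 : ∑ s ∈ range N, EV p (fun S => (g.m p u s S) ^ 2) =
        ∑ i ∈ g.E u, ∑ j ∈ g.E u, (p i * p j) *
          ∑ s ∈ range N, EV p (fun S => g.gd u s i S * g.gd u s j S) := by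
      have h2 : ∀ s, EV p (fun S => (g.m p u s S) ^ 2) =
          ∑ i ∈ g.E u, ∑ j ∈ g.E u, (p i * p j) *
            EV p (fun S => g.gd u s i S * g.gd u s j S) := by
        intro s
        refine (ev_congr fun S _ => hm s S).trans ?_
        rw [ev_sum]
        refine Finset.sum_congr rfl fun i _ => ?_
        rw [ev_sum]
        refine Finset.sum_congr rfl fun j _ => ?_
        rw [ev_const_mul]
      rw [Finset.sum_congr rfl fun s _ => h2 s, Finset.sum_comm]
      refine Finset.sum_congr rfl fun i _ => ?_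
      rw [Finset.sum_comm]
      refine Finset.sum_congr rfl fun j _ => ?_
      rw [Finset.mul_sum]
    have h3 : ∀ i ∈ g.E u, ∀ j ∈ g.E u, (p i * p j) *
        ∑ s ∈ range N, EV p (fun S => g.gd u s i S * g.gd u s j S) ≤
        p i * p j * ((1 / 2) * q u i) + p i * p j * ((1 / 2) * q u j) +
        (if g.ot j u = g.ot i u then
          (1 - c0) * (p i * (p j * ∑ s ∈ range (g.w i), EV p (fun S => g.gd u s j S)))
        else (1 - 2 * c0) * (p i * p j * EV p (fun S => (g.c2 u i j S : ℝ)))) := by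
      intro i hi j hj
      have hpp : 0 ≤ p i * p j := mul_nonneg (hp.nonneg i) (hp.nonneg j)
      by_cases h4 : g.ot j u = g.ot i u
      · rw [if_pos h4]
        have h5 := mul_le_mul_of_nonneg_left (par_bound hP hp he hi hj h4 hN) hpp
        refine h5.trans (le_of_eq ?_)
        simp only [hq]
        ring
      · rw [if_neg h4]
        have h5 := mul_le_mul_of_nonneg_left (pair_bound hB hp he hi hj h4 hN) hpp
        refine h5.trans (le_of_eq ?_)
        simp only [hq]
        ring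
    have hq0 : ∀ i, 0 ≤ q u i := fun i => Finset.sum_nonneg fun r _ =>
      ev_nonneg (fun k => p01 hp he k) fun S => by positivity
    have hpq : 0 ≤ ∑ i ∈ g.E u, p i * q u i :=
      Finset.sum_nonneg fun i _ => mul_nonneg (hp.nonneg i) (hq0 i)
    rw [h1]
    refine (Finset.sum_le_sum fun i hi => Finset.sum_le_sum fun j hj => h3 i hi j hj).trans ?_
    simp only [Finset.sum_add_distrib]
    have e1 : ∑ i ∈ g.E u, ∑ j ∈ g.E u, p i * p j * ((1 / 2) * q u i) =
        (1 / 2) * ((∑ j ∈ g.E u, p j) * ∑ i ∈ g.E u, p i * q u i) := by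
      have e4 : ∀ i ∈ g.E u, ∑ j ∈ g.E u, p i * p j * ((1 / 2) * q u i) =
          (1 / 2) * (∑ j ∈ g.E u, p j) * (p i * q u i) := by
        intro i _
        have e5 : ∀ j ∈ g.E u, p i * p j * ((1 / 2) * q u i) = p j * ((1 / 2) * (p i * q u i)) :=
          fun j _ => by ring
        rw [Finset.sum_congr rfl e5, ← Finset.sum_mul]
        ring
      rw [Finset.sum_congr rfl e4, ← Finset.mul_sum]
      ring
    have e2 : ∑ i ∈ g.E u, ∑ j ∈ g.E u, p i * p j * ((1 / 2) * q u j) =
        (1 / 2) * ((∑ j ∈ g.E u, p j) * ∑ i ∈ g.E u, p i * q u i) := by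
      rw [← e1, Finset.sum_comm]
      refine Finset.sum_congr rfl fun i _ => Finset.sum_congr rfl fun j _ => ?_
      ring
    have e3 : ∑ i ∈ g.E u, ∑ j ∈ g.E u, (if g.ot j u = g.ot i u then
          (1 - c0) * (p i * (p j * ∑ s ∈ range (g.w i), EV p (fun S => g.gd u s j S)))
        else (1 - 2 * c0) * (p i * p j * EV p (fun S => (g.c2 u i j S : ℝ)))) =
        (1 - c0) * (∑ i ∈ g.E u, p i * ∑ s ∈ range (g.w i), EV p (fun S => g.XX p u i s S)) +
        (1 - 2 * c0) * ∑ i ∈ g.E u, ∑ j ∈ (g.E u).filter (fun j => g.ot j u ≠ g.ot i u),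
          p i * p j * EV p (fun S => (g.c2 u i j S : ℝ)) := by
      rw [Finset.mul_sum, Finset.mul_sum, ← Finset.sum_add_distrib]
      refine Finset.sum_congr rfl fun i hi => ?_
      rw [Finset.sum_ite]
      congr 1
      · have h6 : (g.E u).filter (fun j => g.ot j u = g.ot i u) = g.E u ∩ g.E (g.ot i u) := by
          ext j
          rw [mem_par hB hi, Finset.mem_filter]
        have h7 : ∀ s, EV p (fun S => g.XX p u i s S) =
            ∑ j ∈ g.E u ∩ g.E (g.ot i u), p j * EV p (fun S => g.gd u s j S) := by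
          intro s
          unfold MG.XX
          rw [EV, ev_sum]
          refine Finset.sum_congr rfl fun j _ => ?_
          rw [ev_const_mul]
        rw [h6, Finset.sum_congr rfl fun s _ => h7 s, Finset.sum_comm, Finset.mul_sum,
          Finset.mul_sum]
        refine Finset.sum_congr rfl fun j _ => ?_
        rw [Finset.mul_sum]
      · rw [Finset.mul_sum]
    rw [e1, e2, e3]
    have h8 : (∑ j ∈ g.E u, p j) * ∑ i ∈ g.E u, p i * q u i ≤ 1 * ∑ i ∈ g.E u, p i * q u i :=
      mul_le_mul_of_nonneg_right (hp.load u) hpq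
    linarith
  refine (Finset.sum_le_sum fun u _ => hU u).trans (le_of_eq ?_)
  rw [Finset.sum_add_distrib, Finset.sum_add_distrib, ← Finset.mul_sum, ← Finset.mul_sum]
  rfl

end Pool.Agent.Lib.MP_7470b6_lc.Bip
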