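import Pool.Agent.Lib.MP_7470b6_lc.Bip.XF

/-!
# Interactions are bounded by the effect of the edges at the centre
-/

open Finset

namespace Pool.Agent.Lib.MP_7470b6_lc.Bip

open Pool.Agent.Lib.MP_7470b6_lc.Crs

variable {V ι : Type} [Fintype V] [DecidableEq V] [Fintype ι] [DecidableEq ι] {g : MG V ι}
  {c : V → Bool} {p : ι → ℝ} {eps : ℝ}

private theorem XH_FM (u : V) (i : ι) (S : Finset ι) :
    S ∩ g.FM u i = S \ (g.E (g.ot i u) ∩ g.E u) := by
  ext x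
  simp [MG.FM]

private theorem XH_FA (u : V) (i : ι) (S : Finset ι) : S ∩ g.FA u i = S \ g.E u := by
  ext x
  simp [MG.FA]

private theorem XH_FMA (u : V) (i : ι) (S : Finset ι) :
    (S ∩ g.FM u i) \ g.E u = S ∩ g.FA u i := by
  rw [XH_FM, XH_FA]
  ext x
  simp only [mem_sdiff, mem_inter]
  tauto

private theorem XH_bool {x y z : Bool} (h1 : x ≠ z) (h2 : y ≠ z) : x = y := by
  cases x <;> cases y <;> cases z <;> simp_all

private theorem XH_filter (hB : TwoCol g c) {u : V} {i : ι} (hi : i ∈ g.E u) :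
    (g.E u).filter (fun j => g.ot j u ≠ g.ot i u) = g.E u \ g.E (g.ot i u) := by
  ext j
  rw [mem_filter, mem_sdiff]
  constructor
  · rintro ⟨h1, h2⟩
    refine ⟨h1, fun h3 => ?_⟩
    rcases (mem_E_iff h1).1 h3 with h4 | h4
    · exact ot_ne hB hi h4
    · exact h2 h4.symm
  · rintro ⟨h1, h2⟩
    refine ⟨h1, fun h3 => h2 ?_⟩
    rw [← h3]
    exact mem_ot h1

/-- Job XH. Let `b = ot i u`, `b' = ot j u`, `S' = S ∩ FM u i = S \ (E b ∩ E u)`, `T = S \ E u`, and suppose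
`j` is the only edge of `S \ E b` at `u`, i.e. `S' ∩ E u = {j}`, `S' \ E u = T`.
By `swap` for `S'`: `D b S' - D b T = D u S' - D u (S' \ E b)`; by `D_single` (`j ∉ E b`)
`D u S' = max 0 (w j - D b' T)` and `D u (S' \ E b) = max 0 (w j - D b' (T \ E b))`.
With `X = D b (T \ E b')`, `Y = D b' (T \ E b)`, `d = X - D b T = Y - D b' T ≥ 0` (`swap`, `M2`),
`A = w i - X`, `B = w j - Y`: `w i - D b T = A + d` and
`w i - D b S' = A + d - (max 0 (B + d) - max 0 B)`; `cap_le`. -/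
theorem c2_le_effect (hB : TwoCol g c) {u : V} {i j : ι} (hi : i ∈ g.E u) (hj : j ∈ g.E u)
    (hne : g.ot j u ≠ g.ot i u) {S : Finset ι} (hS : S ∩ (g.E u \ g.E (g.ot i u)) = {j}) :
    g.c2 u i j S ≤ max 0 ((g.w i : ℤ) - g.D (g.ot i u) (S ∩ g.FA u i)) -
      max 0 ((g.w i : ℤ) - g.D (g.ot i u) (S ∩ g.FM u i)) := by
  have hcb : c (g.ot j u) = c (g.ot i u) := XH_bool (col_ot hB hj) (col_ot hB hi)
  have hd := M2 hB hcb hne (S \ g.E u)
  have hsw := swap (g := g) (g.ot j u) (g.ot i u) (S \ g.E u)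
  have hjm : j ∈ S ∩ (g.E u \ g.E (g.ot i u)) := by rw [hS]; exact mem_singleton_self j
  have hjb : j ∉ g.E (g.ot i u) := (mem_sdiff.1 (mem_inter.1 hjm).2).2
  have e1 : (S ∩ g.FM u i) ∩ g.E u = {j} := by
    rw [← hS, XH_FM]
    ext x
    simp only [mem_sdiff, mem_inter]
    tauto
  have e2 : ((S ∩ g.FM u i) \ g.E (g.ot i u)) ∩ g.E u = {j} := by
    rw [← hS, XH_FM]
    ext x
    simp only [mem_sdiff, mem_inter]
    tauto
  have e3 : (S ∩ g.FM u i) \ g.E u = S \ g.E u := by rw [XH_FMA, XH_FA]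
  have e4 : ((S ∩ g.FM u i) \ g.E (g.ot i u)) \ g.E u = (S \ g.E u) \ g.E (g.ot i u) := by
    rw [sdiff_right_comm, e3]
  have hsw2 := swap (g := g) u (g.ot i u) (S ∩ g.FM u i)
  have hs1 := D_single e1
  have hs2 := D_single e2
  rw [e3] at hs1
  rw [e4] at hs2
  rw [e3, hs1, hs2] at hsw2
  have key := cap_le ((g.w i : ℤ) - g.D (g.ot i u) ((S \ g.E u) \ g.E (g.ot j u)))
    ((g.w j : ℤ) - g.D (g.ot j u) ((S \ g.E u) \ g.E (g.ot i u)))
    (g.D (g.ot i u) ((S \ g.E u) \ g.E (g.ot j u)) - g.D (g.ot i u) (S \ g.E u)) (by linarith)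
  have a1 : (g.w i : ℤ) - g.D (g.ot i u) ((S \ g.E u) \ g.E (g.ot j u)) +
      (g.D (g.ot i u) ((S \ g.E u) \ g.E (g.ot j u)) - g.D (g.ot i u) (S \ g.E u)) =
      (g.w i : ℤ) - g.D (g.ot i u) (S \ g.E u) := by ring
  have a2 : (g.w j : ℤ) - g.D (g.ot j u) ((S \ g.E u) \ g.E (g.ot i u)) +
      (g.D (g.ot i u) ((S \ g.E u) \ g.E (g.ot j u)) - g.D (g.ot i u) (S \ g.E u)) =
      (g.w j : ℤ) - g.D (g.ot j u) (S \ g.E u) := by linarith
  rw [a1, a2] at key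
  have a3 : (g.w i : ℤ) - g.D (g.ot i u) (S \ g.E u) -
      (max 0 ((g.w j : ℤ) - g.D (g.ot j u) (S \ g.E u)) -
        max 0 ((g.w j : ℤ) - g.D (g.ot j u) ((S \ g.E u) \ g.E (g.ot i u)))) =
      (g.w i : ℤ) - g.D (g.ot i u) (S ∩ g.FM u i) := by linarith
  rw [a3] at key
  rw [XH_FA, MG.c2]
  exact key

/-- Job XH. `M1` for `S ∩ FM u i`: `(S ∩ FM u i) \ E u = S ∩ FA u i`. -/
theorem effect_nonneg (hB : TwoCol g c) {u : V} {i : ι} (hi : i ∈ g.E u) (S : Finset ι) :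
    0 ≤ max 0 ((g.w i : ℤ) - g.D (g.ot i u) (S ∩ g.FA u i)) -
      max 0 ((g.w i : ℤ) - g.D (g.ot i u) (S ∩ g.FM u i)) := by
  have h := M1 hB (u := u) (v := g.ot i u) (fun h => col_ot hB hi h.symm) (S ∩ g.FM u i)
  rw [XH_FMA] at h
  have h2 : max 0 ((g.w i : ℤ) - g.D (g.ot i u) (S ∩ g.FM u i)) ≤
      max 0 ((g.w i : ℤ) - g.D (g.ot i u) (S ∩ g.FA u i)) :=
    max_le_max le_rfl (by linarith)
  linarith

/-- Job XH. `ev_single` with `K = E u \ E (ot i u)`, `q = c0` (`prod_ge_c0`), `f` = the effect,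
`h j = c2 u i j` (`c2_bounds`: nonnegative), which only depends on `S \ E u`; `pos_th`. -/
theorem effect_lower (hB : TwoCol g c) (hp : LoadOk g p eps) (he : eps ≤ 0.0002) {u : V} {i : ι}
    (hi : i ∈ g.E u) :
    c0 * ∑ j ∈ (g.E u).filter (fun j => g.ot j u ≠ g.ot i u), p j * EV p (fun S => (g.c2 u i j S : ℝ)) ≤
      ∑ r ∈ range (g.w i), EV p (fun S => g.th p (g.FA u i) (g.ot i u) r S) -
      ∑ r ∈ range (g.w i), EV p (fun S => g.th p (g.FM u i) (g.ot i u) r S) := by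
  rw [pos_th, pos_th, ← ev_sub, XH_filter hB hi]
  have h01 := fun i => p01 hp he i
  refine ev_single h01 (f := fun S =>
    ((max 0 ((g.w i : ℤ) - g.D (g.ot i u) (S ∩ g.FA u i)) : ℤ) : ℝ) -
      ((max 0 ((g.w i : ℤ) - g.D (g.ot i u) (S ∩ g.FM u i)) : ℤ) : ℝ))
    (h := fun j S => (g.c2 u i j S : ℝ)) ?_ ?_ ?_ ?_ ?_
  · intro j _
    refine prod_ge_c0 _ p (fun k _ => hp.nonneg k) (fun k _ => hp.small k) he ?_
    refine le_trans (sum_le_sum_of_subset_of_nonneg ?_ fun k _ _ => hp.nonneg k) (hp.load u)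
    intro k hk
    exact (mem_sdiff.1 (mem_of_mem_erase hk)).1
  · intro S
    have h := effect_nonneg hB hi S
    have h2 : ((0 : ℤ) : ℝ) ≤ ((max 0 ((g.w i : ℤ) - g.D (g.ot i u) (S ∩ g.FA u i)) -
      max 0 ((g.w i : ℤ) - g.D (g.ot i u) (S ∩ g.FM u i)) : ℤ) : ℝ) := Int.cast_le.2 h
    rw [Int.cast_sub, Int.cast_zero] at h2
    exact h2
  · intro j hj S
    rw [← XH_filter hB hi, mem_filter] at hj
    have h := (c2_bounds hB hi hj.1 hj.2 S).1
    exact_mod_cast h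
  · intro j _ T T' hTT
    have h : T \ g.E u = T' \ g.E u := by
      ext x
      have hx : x ∈ T ∩ (univ \ (g.E u \ g.E (g.ot i u))) ↔
          x ∈ T' ∩ (univ \ (g.E u \ g.E (g.ot i u))) := by rw [hTT]
      simp only [mem_inter, mem_sdiff, mem_univ, true_and] at hx ⊢
      tauto
    simp only [MG.c2, h]
  · intro j hj S hS
    rw [← XH_filter hB hi, mem_filter] at hj
    have h := c2_le_effect hB hi hj.1 hj.2 hS
    have h2 : ((g.c2 u i j S : ℤ) : ℝ) ≤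
      ((max 0 ((g.w i : ℤ) - g.D (g.ot i u) (S ∩ g.FA u i)) -
      max 0 ((g.w i : ℤ) - g.D (g.ot i u) (S ∩ g.FM u i)) : ℤ) : ℝ) := Int.cast_le.2 h
    rw [Int.cast_sub] at h2
    exact h2

/-- Job XH. Sum `effect_lower`. -/
theorem WW_le (hB : TwoCol g c) (hp : LoadOk g p eps) (he : eps ≤ 0.0002) :
    c0 * g.WW p ≤ g.SS p g.FA 1 - g.SS p g.FM 1 := by
  rw [MG.WW, MG.SS, MG.SS, mul_sum, ← sum_sub_distrib]
  refine sum_le_sum fun u _ => ?_
  rw [mul_sum, ← sum_sub_distrib]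
  refine sum_le_sum fun i hi => ?_
  have h := effect_lower hB hp he hi
  have h1 : ∑ j ∈ (g.E u).filter (fun j => g.ot j u ≠ g.ot i u),
      p i * p j * EV p (fun S => (g.c2 u i j S : ℝ)) =
      p i * ∑ j ∈ (g.E u).filter (fun j => g.ot j u ≠ g.ot i u),
        p j * EV p (fun S => (g.c2 u i j S : ℝ)) := by
    rw [mul_sum]
    exact sum_congr rfl fun j _ => by ring
  simp only [pow_one]
  rw [h1, ← mul_sub]
  have h2 := mul_le_mul_of_nonneg_left h (hp.nonneg i)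
  linarith

/-- Job XH. `c2_bounds`. -/
theorem WW_nonneg (hB : TwoCol g c) (hp : LoadOk g p eps) (he : eps ≤ 0.0002) : 0 ≤ g.WW p := by
  rw [MG.WW]
  refine sum_nonneg fun u _ => sum_nonneg fun i hi => sum_nonneg fun j hj => ?_
  rw [mem_filter] at hj
  refine mul_nonneg (mul_nonneg (hp.nonneg i) (hp.nonneg j)) (ev_nonneg (fun i => p01 hp he i) ?_)
  intro S
  exact_mod_cast (c2_bounds hB hi hj.1 hj.2 S).1

/-- Job XH. `y² - x² ≤ 2 (y - x)` for `0 ≤ x ≤ y ≤ 1`, with `thM_le_thA`. -/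
theorem SS2_le (hB : TwoCol g c) (hp : LoadOk g p eps) (he : eps ≤ 0.0002) :
    g.SS p g.FA 2 - g.SS p g.FM 2 ≤ 2 * (g.SS p g.FA 1 - g.SS p g.FM 1) := by
  rw [MG.SS, MG.SS, MG.SS, MG.SS, ← sum_sub_distrib, ← sum_sub_distrib, mul_sum]
  refine sum_le_sum fun u _ => ?_
  rw [← sum_sub_distrib, ← sum_sub_distrib, mul_sum]
  refine sum_le_sum fun i hi => ?_
  rw [← mul_sub, ← mul_sub, ← sum_sub_distrib, ← sum_sub_distrib, mul_left_comm]
  refine mul_le_mul_of_nonneg_left ?_ (hp.nonneg i)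
  rw [mul_sum]
  refine sum_le_sum fun r _ => ?_
  simp only [pow_one]
  have h1 : EV p (fun S => (g.th p (g.FA u i) (g.ot i u) r S) ^ 2) -
      EV p (fun S => (g.th p (g.FM u i) (g.ot i u) r S) ^ 2) =
      EV p (fun S => (g.th p (g.FA u i) (g.ot i u) r S) ^ 2 -
        (g.th p (g.FM u i) (g.ot i u) r S) ^ 2) := by
    rw [← ev_sub]
  have h2 : 2 * (EV p (fun S => g.th p (g.FA u i) (g.ot i u) r S) -
      EV p (fun S => g.th p (g.FM u i) (g.ot i u) r S)) =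
      EV p (fun S => 2 * (g.th p (g.FA u i) (g.ot i u) r S -
        g.th p (g.FM u i) (g.ot i u) r S)) := by
    rw [← ev_sub, ← ev_const_mul]
  rw [h1, h2]
  refine ev_mono (fun i _ => p01 hp he i) ?_
  intro S _
  have a1 := thM_le_thA hB hp he hi r S
  have a2 := th_le_one hp he (g.FA u i) (g.ot i u) r S
  have a3 := c0_le_th hp he (g.FM u i) (g.ot i u) r S
  have a4 : (0 : ℝ) ≤ c0 := by norm_num [c0]
  nlinarith

end Pool.Agent.Lib.MP_7470b6_lc.Bip
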