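import Pool.Agent.Lib.MP_7470b6_lc.Bip.XC
import Pool.Agent.Lib.MP_7470b6_lc.Bip.NB

/-!
# Parallel edges
-/

open Finset

namespace Pool.Agent.Lib.MP_7470b6_lc.Bip

open Pool.Agent.Lib.MP_7470b6_lc.Crs

variable {V ι : Type} [Fintype V] [DecidableEq V] [Fintype ι] [DecidableEq ι] {g : MG V ι}
  {c : V → Bool} {p : ι → ℝ} {eps : ℝ}

theorem xi_gd (u : V) (s : ℕ) (j : ι) (S : Finset ι) : 0 ≤ g.gd u s j S ∧ g.gd u s j S ≤ 1 := by
  unfold MG.gd
  split_ifs <;> norm_num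

/-- Job XI. -/
theorem XX_bounds (hp : LoadOk g p eps) (u : V) (i : ι) (s : ℕ) (S : Finset ι) :
    0 ≤ g.XX p u i s S ∧ g.XX p u i s S ≤ 1 := by
  unfold MG.XX
  constructor
  · exact sum_nonneg fun j _ => mul_nonneg (hp.nonneg j) (xi_gd u s j S).1
  · calc ∑ j ∈ g.E u ∩ g.E (g.ot i u), p j * g.gd u s j S
        ≤ ∑ j ∈ g.E u ∩ g.E (g.ot i u), p j :=
          sum_le_sum fun j _ => mul_le_of_le_one_right (hp.nonneg j) (xi_gd u s j S).2
      _ ≤ ∑ j ∈ g.E u, p j :=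
        sum_le_sum_of_subset_of_nonneg inter_subset_left fun j _ _ => hp.nonneg j
      _ ≤ 1 := hp.load u

theorem xi_c0 : 0 < c0 := by unfold c0; norm_num

/-- Job XI. `th_split` and `prod_le`: the good edges parallel to `i` have load `XX`. -/
theorem thZ_le (hp : LoadOk g p eps) (he : eps ≤ 0.0002) {u : V} {i : ι} (hi : i ∈ g.E u) (s : ℕ)
    (S : Finset ι) : g.th p univ u s S ≤
      g.th p (univ \ (g.E u ∩ g.E (g.ot i u))) u s S * Real.exp (-g.XX p u i s S) := by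
  rw [th_split hi s S]
  have h0 : 0 ≤ g.th p (univ \ (g.E u ∩ g.E (g.ot i u))) u s S :=
    (xi_c0.le).trans (c0_le_th hp he _ _ _ _)
  refine mul_le_mul_of_nonneg_left ?_ h0
  unfold MG.XX
  refine prod_le (g.E u ∩ g.E (g.ot i u)) (fun j => p j * g.gd u s j S) fun j _ => ?_
  have h1 := p01 hp he j
  have h2 := xi_gd (g := g) u s j S
  exact ⟨mul_nonneg h1.1 h2.1, mul_le_one₀ h1.2 h2.1 h2.2⟩

/-- Job XI. `prod_ge` for the good edges at `u` not parallel to `i`, whose load is at most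
`1 - XX` (the load of `u` is at most `1`), `L = 1 - XX`. -/
theorem thM_ge (hp : LoadOk g p eps) (he0 : 0 ≤ eps) (he : eps ≤ 0.0002) {u : V} {i : ι}
    (hi : i ∈ g.E u) (s : ℕ) (S : Finset ι) :
    Real.exp (g.XX p u i s S - 1) * (1 - eps) ≤
      g.th p (univ \ (g.E u ∩ g.E (g.ot i u))) u s S := by
  set b := g.ot i u with hb
  have e1 : g.E u ∩ (univ \ (g.E u ∩ g.E b)) = g.E u \ (g.E u ∩ g.E b) := by
    ext j
    simp only [mem_inter, mem_sdiff, mem_univ, true_and]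
  have e2 : (S ∩ (univ \ (g.E u ∩ g.E b))) \ g.E u = S \ g.E u := by
    ext j
    simp only [mem_inter, mem_sdiff, mem_univ, true_and]
    tauto
  have hth : g.th p (univ \ (g.E u ∩ g.E b)) u s S =
      ∏ j ∈ g.E u \ (g.E u ∩ g.E b), (1 - p j * g.gd u s j S) := by
    unfold MG.th MG.gd
    rw [e1, e2]
  rw [hth]
  have hX := (XX_bounds hp u i s S)
  have hle : ∀ j, p j * g.gd u s j S ≤ p j := fun j =>
    mul_le_of_le_one_right (hp.nonneg j) (xi_gd u s j S).2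
  have hsum : ∑ j ∈ g.E u \ (g.E u ∩ g.E b), p j * g.gd u s j S ≤ 1 - g.XX p u i s S := by
    have h1 : ∑ j ∈ g.E u \ (g.E u ∩ g.E b), p j * g.gd u s j S + g.XX p u i s S =
        ∑ j ∈ g.E u, p j * g.gd u s j S := by
      unfold MG.XX
      rw [← hb]
      exact sum_sdiff inter_subset_left
    have h2 : ∑ j ∈ g.E u, p j * g.gd u s j S ≤ 1 :=
      (sum_le_sum fun j _ => hle j).trans (hp.load u)
    linarith
  have h := prod_ge (g.E u \ (g.E u ∩ g.E b)) (fun j => p j * g.gd u s j S) (eps := eps)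
    (L := 1 - g.XX p u i s S)
    (fun j _ => mul_nonneg (hp.nonneg j) (xi_gd u s j S).1)
    (fun j _ => (hle j).trans (hp.small j)) he0
    (he.trans (by norm_num)) hsum (by linarith [hX.1])
  have e3 : -(1 - g.XX p u i s S) = g.XX p u i s S - 1 := by ring
  rw [e3] at h
  exact h

theorem xi_lin (A B C : V → ι → ℕ → ℝ) (l k : ℝ) :
    l * ((∑ u, ∑ i ∈ g.E u, p i * ∑ r ∈ range (g.w i), A u i r -
      ∑ u, ∑ i ∈ g.E u, p i * ∑ r ∈ range (g.w i), B u i r) +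
      k * ∑ u, ∑ i ∈ g.E u, p i * ∑ r ∈ range (g.w i), C u i r) =
    ∑ u, ∑ i ∈ g.E u, p i * ∑ r ∈ range (g.w i), l * ((A u i r - B u i r) + k * C u i r) := by
  simp only [mul_sum, ← sum_sub_distrib, ← sum_add_distrib]
  refine sum_congr rfl fun u _ => sum_congr rfl fun i _ => sum_congr rfl fun r _ => ?_
  ring

/-- Job XI. `SS_swap` for `FM` and `FZ` (`FM (ot i u) i = univ \ (E u ∩ E (ot i u))` by `ot_ot`), then
`num_DI` pointwise with `X = XX`, `M = th (FM)`, `t = th univ` (`thZ_le`, `thM_ge`, `th_le_one`,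
`th ≥ c0 ≥ 0`), `ev_mono`. -/
theorem par_effect (hB : TwoCol g c) (hp : LoadOk g p eps) (he0 : 0 ≤ eps) (he : eps ≤ 0.0002)
    {Om : ℝ} (h1 : 0.567143 < Om) (h2 : Om < 0.567144) :
    lam * ((g.SS p g.FM 2 - g.SS p g.FZ 2) + (1 - c0) * g.DG p) ≤
      (Om - 1 / 2 + 2 * lam * Om) * (g.SS p g.FM 1 - g.SS p g.FZ 1) := by
  rw [SS_swap hB g.FM 2, SS_swap hB g.FZ 2, SS_swap hB g.FM 1, SS_swap hB g.FZ 1]
  unfold MG.DG
  rw [xi_lin (fun u i r => EV p (fun S => (g.th p (g.FM (g.ot i u) i) u r S) ^ 2))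
    (fun u i r => EV p (fun S => (g.th p (g.FZ (g.ot i u) i) u r S) ^ 2))
    (fun u i r => EV p (fun S => g.XX p u i r S)) lam (1 - c0)]
  have hR := xi_lin (g := g) (p := p) (fun u i r => EV p (fun S => (g.th p (g.FM (g.ot i u) i) u r S) ^ 1))
    (fun u i r => EV p (fun S => (g.th p (g.FZ (g.ot i u) i) u r S) ^ 1))
    (fun u i r => 0) (Om - 1 / 2 + 2 * lam * Om) 0
  rw [zero_mul, add_zero] at hR
  rw [hR]
  refine sum_le_sum fun u _ => sum_le_sum fun i hi =>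
    mul_le_mul_of_nonneg_left (sum_le_sum fun r _ => ?_) (hp.nonneg i)
  have eM : g.FM (g.ot i u) i = univ \ (g.E u ∩ g.E (g.ot i u)) := by
    unfold MG.FM
    rw [ot_ot hi]
  have eZ : g.FZ (g.ot i u) i = univ := rfl
  rw [eM, eZ]
  have eL : EV p (fun S => lam * (((g.th p (univ \ (g.E u ∩ g.E (g.ot i u))) u r S) ^ 2 -
      (g.th p univ u r S) ^ 2) + (1 - c0) * g.XX p u i r S)) =
      lam * ((EV p (fun S => (g.th p (univ \ (g.E u ∩ g.E (g.ot i u))) u r S) ^ 2) -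
      EV p (fun S => (g.th p univ u r S) ^ 2)) + (1 - c0) * EV p (fun S => g.XX p u i r S)) := by
    unfold EV
    rw [ev_const_mul, ev_add, ev_sub, ev_const_mul]
  have eR : EV p (fun S => (Om - 1 / 2 + 2 * lam * Om) *
      (g.th p (univ \ (g.E u ∩ g.E (g.ot i u))) u r S - g.th p univ u r S)) =
      (Om - 1 / 2 + 2 * lam * Om) *
      ((EV p (fun S => (g.th p (univ \ (g.E u ∩ g.E (g.ot i u))) u r S) ^ 1) -
      EV p (fun S => (g.th p univ u r S) ^ 1)) + 0 * 0) := by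
    unfold EV
    rw [ev_const_mul, ev_sub]
    simp only [pow_one, zero_mul, add_zero]
  rw [← eL, ← eR]
  unfold EV
  refine ev_mono (fun i _ => p01 hp he i) fun S _ => ?_
  have hX := XX_bounds hp u i r S
  exact num_DI h1 h2 he0 he hX.1 hX.2 (thM_ge hp he0 he hi r S) (th_le_one hp he _ _ _ _)
    ((xi_c0.le).trans (c0_le_th hp he _ _ _ _)) (thZ_le hp he hi r S)

end Pool.Agent.Lib.MP_7470b6_lc.Bip
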