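import Pool.Agent.Lib.MP_7470b6_lc.Bip.XD
import Pool.Agent.Lib.MP_7470b6_lc.Bip.XE
import Pool.Agent.Lib.MP_7470b6_lc.Bip.XG
import Pool.Agent.Lib.MP_7470b6_lc.Bip.XH
import Pool.Agent.Lib.MP_7470b6_lc.Bip.XI

/-!
# The main inequality for multigraphs
-/

open Finset

namespace Pool.Agent.Lib.MP_7470b6_lc.Bip

open Pool.Agent.Lib.MP_7470b6_lc.Crs

variable {V ι : Type} [Fintype V] [DecidableEq V] [Fintype ι] [DecidableEq ι] {g : MG V ι}
  {c : V → Bool} {p : ι → ℝ} {eps : ℝ}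

theorem second_main (hB : TwoCol g c) (hP : g.Par) (hp : LoadOk g p eps) (he0 : 0 ≤ eps)
    (he : eps ≤ 0.0002) {Om : ℝ} (h1 : 0.567143 < Om) (h2 : Om < 0.567144) {N : ℕ}
    (hN : ∀ i, g.w i ≤ N) :
    lam * (∑ u, ∑ s ∈ range N, EV p (fun S => (g.m p u s S) ^ 2) - g.SS p g.FZ 2 -
      2 * Om * (g.SS p g.FA 1 - g.SS p g.FZ 1)) ≤
      (Om - 1 / 2) * (g.SS p g.FA 1 - g.SS p g.FZ 1) := by
  have hl : (0 : ℝ) < lam := by unfold lam; norm_num
  have hc : (0 : ℝ) < c0 := by unfold c0; norm_num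
  have hc2 : (0 : ℝ) ≤ 1 - 2 * c0 := by unfold c0; norm_num
  have e1 := second_moment hB hP hp he hN
  have e2 := WW_le hB hp he
  have e3 := SS2_le hB hp he
  have e4 := par_effect hB hp he0 he h1 h2
  have e5 := num_N3 h1 h2
  have e6 := WW_nonneg hB hp he
  set R := ∑ u, ∑ s ∈ range N, EV p (fun S => (g.m p u s S) ^ 2) with hR
  set A1 := g.SS p g.FA 1
  set M1 := g.SS p g.FM 1
  set Z1 := g.SS p g.FZ 1
  set A2 := g.SS p g.FA 2
  set M2 := g.SS p g.FM 2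
  set Z2 := g.SS p g.FZ 2
  set W := g.WW p
  set D := g.DG p
  have hAM : 0 ≤ A1 - M1 := le_trans (mul_nonneg hc.le e6) e2
  have hW : (1 - 2 * c0) * W ≤ (1 / c0 - 2) * (A1 - M1) := by
    have h3 : W ≤ (A1 - M1) / c0 := by
      rw [le_div_iff₀ hc]; linarith
    calc (1 - 2 * c0) * W ≤ (1 - 2 * c0) * ((A1 - M1) / c0) := mul_le_mul_of_nonneg_left h3 hc2
      _ = (1 / c0 - 2) * (A1 - M1) := by field_simp
  have h4 : R - Z2 ≤ 1 / c0 * (A1 - M1) + (M2 - Z2) + (1 - c0) * D := by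
    have : 1 / c0 * (A1 - M1) = (1 / c0 - 2) * (A1 - M1) + 2 * (A1 - M1) := by ring
    linarith
  have h5 : lam * (R - Z2) ≤ lam * (1 / c0 * (A1 - M1) + (M2 - Z2) + (1 - c0) * D) :=
    mul_le_mul_of_nonneg_left h4 hl.le
  have h6 : lam * (1 / c0 - 2 * Om) * (A1 - M1) ≤ (Om - 1 / 2) * (A1 - M1) :=
    mul_le_mul_of_nonneg_right e5 hAM
  nlinarith [h5, h6, e4]

theorem main_multi (hB : TwoCol g c) (hP : g.Par) (hp : LoadOk g p eps) (he0 : 0 ≤ eps)
    (he : eps ≤ 0.0002) {Om : ℝ} (h0 : 0 < Om) (h : Om * Real.exp Om = 1) :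
    (2 - 2 * Om - Om ^ 2 - 3 * eps) * ∑ i, p i * (g.w i : ℝ) ≤
      EV p (fun S => (g.nu S : ℝ)) := by
  obtain ⟨h1, h2⟩ := Om_bounds h0 h
  obtain ⟨N, hN⟩ : ∃ N : ℕ, ∀ i, g.w i ≤ N := ⟨∑ i, g.w i, fun i =>
    Finset.single_le_sum (f := g.w) (fun j _ => Nat.zero_le _) (Finset.mem_univ i)⟩
  have hp01 : ∀ i, 0 ≤ p i ∧ p i ≤ 1 := p01 hp he
  have e1 := nu_lower hB hp01 N
  have e2 : ∑ u, ∑ s ∈ range N,
      EV p (fun S => 2 - Real.exp (-g.m p u s S) * (2 + g.m p u s S)) ≤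
      ∑ u, ∑ s ∈ range N, EV p (fun S => ((min (g.cnt u s S) 2 : ℕ) : ℝ)) :=
    Finset.sum_le_sum fun u _ => Finset.sum_le_sum fun s _ => cnt_lower hp01 u s
  have e3 := second_main hB hP hp he0 he h1 h2 hN
  have e4 : ∑ u, ∑ s ∈ range N, (2 - 2 * Om - Om ^ 2 - 3 * eps) * g.dl p u s ≤
      ∑ u, ∑ s ∈ range N, (EV p (fun S => 2 - Real.exp (-g.m p u s S) * (2 + g.m p u s S)) -
        Om * EV p (fun S => g.m p u s S) + Om * (g.dl p u s * EV p (fun S => (g.th p univ u s S) ^ 1)) +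
        lam * (EV p (fun S => (g.m p u s S) ^ 2) - 2 * Om * EV p (fun S => g.m p u s S) -
          (g.dl p u s * EV p (fun S => (g.th p univ u s S) ^ 2) -
            2 * Om * (g.dl p u s * EV p (fun S => (g.th p univ u s S) ^ 1))))) := by
    refine Finset.sum_le_sum fun u _ => Finset.sum_le_sum fun s _ => ?_
    have h3 : EV p (fun S => (2 - Real.exp (-g.m p u s S) * (2 + g.m p u s S)) -
        Om * g.m p u s S + Om * (g.dl p u s * (g.th p univ u s S) ^ 1) +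
        lam * ((g.m p u s S) ^ 2 - 2 * Om * g.m p u s S -
          (g.dl p u s * (g.th p univ u s S) ^ 2 -
            2 * Om * (g.dl p u s * (g.th p univ u s S) ^ 1)))) =
        (EV p (fun S => 2 - Real.exp (-g.m p u s S) * (2 + g.m p u s S)) -
        Om * EV p (fun S => g.m p u s S) + Om * (g.dl p u s * EV p (fun S => (g.th p univ u s S) ^ 1)) +
        lam * (EV p (fun S => (g.m p u s S) ^ 2) - 2 * Om * EV p (fun S => g.m p u s S) -
          (g.dl p u s * EV p (fun S => (g.th p univ u s S) ^ 2) -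
            2 * Om * (g.dl p u s * EV p (fun S => (g.th p univ u s S) ^ 1))))) := by
      simp only [EV, ev_add, ev_sub, ev_const_mul]
    rw [← h3, ← ev_const univ p ((2 - 2 * Om - Om ^ 2 - 3 * eps) * g.dl p u s)]
    refine ev_mono (fun i _ => hp01 i) fun S _ => ?_
    obtain ⟨hm0, hmd, hd1⟩ := m_bounds hp u s S
    obtain ⟨ht0, ht1⟩ := th_bounds hp he0 he u s S
    have := num_cert h1 h2 h he0 he hm0 (hmd.trans hd1) (hm0.trans hmd) hd1 ht0 ht1
    rw [pow_one]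
    exact this
  have e5 := sum_m (p := p) hN
  have e6 := sum_dl (p := p) hB hN 1
  have e7 := sum_dl (p := p) hB hN 2
  have e8 := sum_dl_one (p := p) hB hN
  simp only [Finset.sum_add_distrib, Finset.sum_sub_distrib, ← Finset.mul_sum] at e4
  rw [e5, e6, e7, e8] at e4
  linarith

end Pool.Agent.Lib.MP_7470b6_lc.Bip
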