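import Pool.Agent.Lib.MP_7470b6_lc.Bip.RA
import Pool.Agent.Lib.MP_7470b6_lc.Bip.RB
import Pool.Agent.Lib.MP_7470b6_lc.Bip.XM
import Pool.Agent.Lib.MP_7470b6_lc.For.ForMain

/-!
# Bipartite graphs: the main theorem
-/

open Finset Filter Topology

namespace Pool.Agent.Lib.MP_7470b6_lc.Bip

open Pool.Agent.Lib.MP_7470b6_lc.Crs

variable {V : Type} [Fintype V]

theorem gamma_copies [DecidableEq V] (G : SimpleGraph V) (c : V → Bool)
    (hc : ∀ u v, G.Adj u v → c u ≠ c v) {x : Sym2 V → ℝ} (hx : x ∈ matchingPolytope G)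
    (w : Sym2 V → ℕ) {Om : ℝ} (h0 : 0 < Om) (h : Om * Real.exp Om = 1) (k : ℕ) (hk : 5000 ≤ k) :
    (2 - 2 * Om - Om ^ 2 - 3 * (1 / (k : ℝ))) * ∑ e ∈ edges G, x e * (w e : ℝ) ≤
      ev (edges G) x (fun S => (nuS w S : ℝ)) := by
  obtain ⟨ea, eb, hE⟩ := exists_ends G c hc
  have hk0 : 0 < k := by omega
  have hkr : (5000 : ℝ) ≤ k := by exact_mod_cast hk
  have hkp : (0 : ℝ) < k := by linarith
  have h1 : (1 / (k : ℝ)) ≤ 0.0002 := by
    rw [div_le_iff₀ hkp]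
    linarith
  have hL := cop_load (w := w) hE hk0 hx
  have h2 := main_multi (cop_twoCol hE) (cop_par hE) hL
    (by positivity) h1 h0 h
  rw [cop_sum hk0] at h2
  refine h2.trans ?_
  have hp01 : ∀ i, 0 ≤ (fun i : {e // e ∈ edges G} × Fin k => x i.1.1 / k) i ∧
      (fun i : {e // e ∈ edges G} × Fin k => x i.1.1 / k) i ≤ 1 := p01 hL h1
  have h3 : EV (fun i : {e // e ∈ edges G} × Fin k => x i.1.1 / k)
      (fun S => ((cop G ea eb w k).nu S : ℝ)) ≤
      EV (fun i : {e // e ∈ edges G} × Fin k => x i.1.1 / k)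
        (fun S => (nuS w (S.image (fun i => i.1.1)) : ℝ)) := by
    refine ev_mono (fun i _ => hp01 i) fun S _ => ?_
    have h5 := cop_nu_le hE (w := w) S
    exact_mod_cast h5
  refine h3.trans ?_
  have h6 : ∀ e ∈ edges G, ∑ i ∈ (univ : Finset ({e // e ∈ edges G} × Fin k)).filter
      (fun i => i.1.1 = e), x i.1.1 / k ≤ x e := by
    intro e he
    have h4 : (univ : Finset ({e // e ∈ edges G} × Fin k)).filter (fun i => i.1.1 = e) =
        ({(⟨e, he⟩ : {e // e ∈ edges G})} : Finset _) ×ˢ (univ : Finset (Fin k)) := by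
      ext ⟨⟨e', he'⟩, j⟩
      simp only [mem_filter, mem_univ, true_and, mem_product, mem_singleton, and_true]
      exact ⟨fun h => Subtype.ext h, fun h => congrArg Subtype.val h⟩
    rw [h4, Finset.sum_product, Finset.sum_singleton]
    simp only [Finset.sum_const, Finset.card_univ, Fintype.card_fin, nsmul_eq_mul]
    rw [mul_div_cancel₀ _ hkp.ne']
  have h7 : ∀ i ∈ (univ : Finset ({e // e ∈ edges G} × Fin k)), i.1.1 ∈ edges G :=
    fun i _ => i.1.2
  have h8 : ∀ S T : Finset (Sym2 V), S ⊆ T → (nuS w S : ℝ) ≤ (nuS w T : ℝ) := by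
    intro S T hST
    exact_mod_cast nuS_mono w hST
  have h9 := ev_image_le (univ : Finset ({e // e ∈ edges G} × Fin k)) (edges G)
    (fun i => i.1.1) h7 (fun i => x i.1.1 / k) (fun i _ => (hp01 i).1)
    (fun S => (nuS w S : ℝ)) h8 x h6 (fun e he => (For.poly_mem hx e he).2)
  exact h9

theorem gamma_nat [DecidableEq V] (G : SimpleGraph V) (c : V → Bool)
    (hc : ∀ u v, G.Adj u v → c u ≠ c v) {x : Sym2 V → ℝ} (hx : x ∈ matchingPolytope G)
    (w : Sym2 V → ℕ) {Om : ℝ} (h0 : 0 < Om) (h : Om * Real.exp Om = 1) :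
    (2 - 2 * Om - Om ^ 2) * ∑ e ∈ edges G, x e * (w e : ℝ) ≤
      ev (edges G) x (fun S => (nuS w S : ℝ)) := by
  have h1 : Tendsto (fun k : ℕ => (2 - 2 * Om - Om ^ 2 - 3 * (1 / (k : ℝ))) *
      ∑ e ∈ edges G, x e * (w e : ℝ)) atTop
      (𝓝 ((2 - 2 * Om - Om ^ 2 - 3 * 0) * ∑ e ∈ edges G, x e * (w e : ℝ))) :=
    (tendsto_const_nhds.sub (tendsto_one_div_atTop_nhds_zero_nat.const_mul 3)).mul_const _
  rw [mul_zero, sub_zero] at h1
  refine le_of_tendsto h1 ?_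
  filter_upwards [eventually_ge_atTop 5000] with k hk
  exact gamma_copies G c hc hx w h0 h k hk

theorem main_bip (G : SimpleGraph V) (c : V → Bool) (hc : ∀ u v, G.Adj u v → c u ≠ c v)
    (x : Sym2 V → ℝ) (hx : x ∈ matchingPolytope G) {Om : ℝ} (h0 : 0 < Om)
    (h : Om * Real.exp Om = 1) :
    ∃ μ, IsScheme G μ ∧ Balanced G x μ (2 - 2 * Om - Om ^ 2) := by
  classical
  have hx01 := For.poly_mem hx
  refine For.exists_of_weights hx01 ?_
  intro w hw
  have hex : ∀ S : Finset (Sym2 V), ∃ M, (M ⊆ S ∧ IsMatch M) ∧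
      ∀ M', M' ⊆ S → IsMatch M' → ∑ e ∈ M', w e ≤ ∑ e ∈ M, w e := by
    intro S
    obtain ⟨M, hM, hmax⟩ := Finset.exists_max_image (S.powerset.filter (fun M => IsMatch M))
      (fun M => ∑ e ∈ M, w e) ⟨∅, by
        rw [Finset.mem_filter]
        exact ⟨Finset.empty_mem_powerset S, fun e he => absurd he (Finset.notMem_empty e)⟩⟩
    refine ⟨M, ?_, ?_⟩
    · simpa using hM
    · intro M' h1 h2
      exact hmax M' (by simp [h1, h2])
  choose M hM hmax using hex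
  refine ⟨M, fun S _ => hM S, ?_⟩
  have hev : ∑ S ∈ (edges G).powerset, prob G x S * ∑ e ∈ M S, w e =
      ev (edges G) x (fun S => ∑ e ∈ M S, w e) := by
    unfold ev prob
    refine Finset.sum_congr rfl fun S _ => ?_
    congr 1
  rw [hev]
  set E := ev (edges G) x (fun S => ∑ e ∈ M S, w e) with hE
  set ga := 2 - 2 * Om - Om ^ 2 with hga
  obtain ⟨hO1, hO2⟩ := Om_bounds h0 h
  have hga0 : 0 ≤ ga := by
    rw [hga]; nlinarith
  have key : ∀ N : ℕ, 0 < N → ga * ∑ e ∈ edges G, w e * x e -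
      ga * (∑ e ∈ edges G, x e) * (1 / (N : ℝ)) ≤ E := by
    intro N hN
    have hNp : (0 : ℝ) < N := by exact_mod_cast hN
    have h1 := gamma_nat G c hc hx (fun e => ⌊(N : ℝ) * w e⌋₊) h0 h
    have h2 : ev (edges G) x (fun S => (nuS (fun e => ⌊(N : ℝ) * w e⌋₊) S : ℝ)) ≤
        ev (edges G) x (fun S => (N : ℝ) * ∑ e ∈ M S, w e) := by
      refine ev_mono hx01 fun S _ => ?_
      obtain ⟨M', hM1, hM2, hM3⟩ := exists_nuS (fun e => ⌊(N : ℝ) * w e⌋₊) S
      rw [hM3, Nat.cast_sum]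
      calc ∑ e ∈ M', ((⌊(N : ℝ) * w e⌋₊ : ℕ) : ℝ) ≤ ∑ e ∈ M', (N : ℝ) * w e :=
            Finset.sum_le_sum fun e _ => Nat.floor_le (mul_nonneg hNp.le (hw e))
        _ = (N : ℝ) * ∑ e ∈ M', w e := by rw [Finset.mul_sum]
        _ ≤ (N : ℝ) * ∑ e ∈ M S, w e :=
            mul_le_mul_of_nonneg_left (hmax S M' hM1 hM2) hNp.le
    rw [ev_const_mul] at h2
    have h3 : ∑ e ∈ edges G, x e * ((N : ℝ) * w e - 1) ≤
        ∑ e ∈ edges G, x e * ((⌊(N : ℝ) * w e⌋₊ : ℕ) : ℝ) := by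
      refine Finset.sum_le_sum fun e he => ?_
      refine mul_le_mul_of_nonneg_left ?_ (hx01 e he).1
      have := Nat.lt_floor_add_one ((N : ℝ) * w e)
      linarith
    have h4 : ∑ e ∈ edges G, x e * ((N : ℝ) * w e - 1) =
        (N : ℝ) * ∑ e ∈ edges G, w e * x e - ∑ e ∈ edges G, x e := by
      rw [Finset.mul_sum, ← Finset.sum_sub_distrib]
      refine Finset.sum_congr rfl fun e _ => ?_
      ring
    rw [h4] at h3
    have h5 : ga * ((N : ℝ) * ∑ e ∈ edges G, w e * x e - ∑ e ∈ edges G, x e) ≤ N * E :=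
      (mul_le_mul_of_nonneg_left h3 hga0).trans (h1.trans h2)
    have h6 : ga * ∑ e ∈ edges G, w e * x e - ga * (∑ e ∈ edges G, x e) * (1 / (N : ℝ)) =
        (ga * ((N : ℝ) * ∑ e ∈ edges G, w e * x e - ∑ e ∈ edges G, x e)) / N := by
      field_simp
    rw [h6, div_le_iff₀ hNp]
    linarith
  have h1 : Tendsto (fun N : ℕ => ga * ∑ e ∈ edges G, w e * x e -
      ga * (∑ e ∈ edges G, x e) * (1 / (N : ℝ))) atTop
      (𝓝 (ga * ∑ e ∈ edges G, w e * x e - ga * (∑ e ∈ edges G, x e) * 0)) :=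
    tendsto_const_nhds.sub (tendsto_one_div_atTop_nhds_zero_nat.const_mul _)
  rw [mul_zero, sub_zero] at h1
  refine le_of_tendsto h1 ?_
  filter_upwards [eventually_gt_atTop 0] with N hN
  exact key N hN

end Pool.Agent.Lib.MP_7470b6_lc.Bip
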