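import Pool.Agent.Lib.MP_7470b6_lc.Bip.BP
import Pool.Agent.Lib.MP_7470b6_lc.Crs.EVA
import Pool.Agent.Lib.MP_7470b6_lc.Crs.EVB

/-!
# Expectations
-/

open Finset

namespace Pool.Agent.Lib.MP_7470b6_lc.Bip

open Pool.Agent.Lib.MP_7470b6_lc.Crs

variable {V ι : Type} [Fintype V] [DecidableEq V] [Fintype ι] [DecidableEq ι] {g : MG V ι}
  {c : V → Bool} {p : ι → ℝ}

/-- Job XA. Fubini. Induction on `B` with `ev_insert`. -/
theorem ev_union {A B : Finset ι} (h : Disjoint A B) (p : ι → ℝ) (f : Finset ι → ℝ) :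
    ev (A ∪ B) p f = ev A p (fun S => ev B p (fun T => f (S ∪ T))) := by
  induction B using Finset.induction_on generalizing f with
  | empty => simp only [ev_empty, Finset.union_empty]
  | insert i B hi ih =>
    rw [Finset.disjoint_insert_right] at h
    have hi2 : i ∉ A ∪ B := fun h2 => by
      rcases Finset.mem_union.1 h2 with h3 | h3
      · exact h.1 h3
      · exact hi h3
    rw [Finset.union_insert, ev_insert hi2, ih h.2, ih h.2, ← ev_const_mul, ← ev_const_mul, ← ev_add]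
    apply ev_congr
    intro S _
    rw [ev_insert hi]
    simp only [Finset.union_insert]

/-- Job XA. A product over independent edges (`K` is a subset of `B`). Induction on `B` or `ev_prod`. -/
theorem ev_prod_lin {B K : Finset ι} (hK : K ⊆ B) (p a : ι → ℝ) :
    ev B p (fun T => ∏ j ∈ K, (if j ∈ T then a j else 1)) = ∏ j ∈ K, (1 - p j * (1 - a j)) := by
  rw [ev_prod (A := B) (p := p) K (fun j T => if j ∈ T then a j else 1) (fun j => {j})]
  · refine Finset.prod_congr rfl fun j hj => ?_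
    have h1 : (fun T : Finset ι => if j ∈ T then a j else 1) =
        fun T : Finset ι => 1 + (a j - 1) * (if j ∈ T then 1 else 0) := by
      funext T
      split_ifs <;> ring
    rw [h1, ev_add, ev_const, ev_const_mul, ev_mem (hK hj)]
    ring
  · intro j _ T T' h
    have h1 : j ∈ T ↔ j ∈ T' := by
      have h2 := congrArg (fun S : Finset ι => j ∈ S) h
      simpa using h2
    simp only [h1]
  · intro b _ c _ hbc
    exact Finset.disjoint_singleton.2 hbc

private theorem XA_dep {v : V} {S T : Finset ι} (hT : T ⊆ g.E v) {h : Finset ι → ℝ}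
    (hh : DepOn h (univ \ g.E v)) : h (S ∪ T) = h S := by
  apply hh
  ext x
  simp only [Finset.mem_inter, Finset.mem_union, Finset.mem_sdiff, Finset.mem_univ, true_and]
  constructor
  · rintro ⟨h1 | h1, h2⟩
    · exact ⟨h1, h2⟩
    · exact absurd (hT h1) h2
  · rintro ⟨h1, h2⟩
    exact ⟨Or.inl h1, h2⟩

private theorem XA_sdiff {v : V} {S T F : Finset ι} (hT : T ⊆ g.E v) :
    ((S ∪ T) ∩ F) \ g.E v = (S ∩ F) \ g.E v := by
  ext x
  simp only [Finset.mem_inter, Finset.mem_union, Finset.mem_sdiff]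
  constructor
  · rintro ⟨⟨h1 | h1, h2⟩, h3⟩
    · exact ⟨⟨h1, h2⟩, h3⟩
    · exact absurd (hT h1) h3
  · rintro ⟨⟨h1, h2⟩, h3⟩
    exact ⟨⟨Or.inl h1, h2⟩, h3⟩

private theorem XA_th {v : V} {r : ℕ} {S T F : Finset ι} (hT : T ⊆ g.E v) :
    g.th p F v r (S ∪ T) = g.th p F v r S := by
  unfold MG.th
  rw [XA_sdiff hT]

open Classical in
private theorem XA_ind {v : V} {r : ℕ} {S T F : Finset ι} (hS : S ⊆ univ \ g.E v) (hT : T ⊆ g.E v) :
    (if g.D v ((S ∪ T) ∩ F) ≤ (r : ℤ) then (1 : ℝ) else 0) = ∏ j ∈ g.E v ∩ F,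
      (if j ∈ T then (1 - (if g.D (g.ot j v) ((S ∩ F) \ g.E v) + (r : ℤ) < (g.w j : ℤ) then 1 else 0))
        else 1) := by
  have hiff := D_le_iff (g := g) (u := v) (S := (S ∪ T) ∩ F) r
  simp only [XA_sdiff hT] at hiff
  by_cases h0 : g.D v ((S ∪ T) ∩ F) ≤ (r : ℤ)
  · rw [if_pos h0]
    have h := hiff.1 h0
    symm
    refine Finset.prod_eq_one fun j hj => ?_
    obtain ⟨hjv, hjF⟩ := Finset.mem_inter.1 hj
    by_cases hjT : j ∈ T
    · have h1 := h j (Finset.mem_inter.2 ⟨Finset.mem_union_right _ hjT, hjF⟩) hjv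
      rw [if_pos hjT, if_neg h1, sub_zero]
    · rw [if_neg hjT]
  · rw [if_neg h0]
    have h := mt hiff.2 h0
    symm
    rw [Finset.prod_eq_zero_iff]
    push Not at h
    obtain ⟨j, hj, hjv, hlt⟩ := h
    obtain ⟨hjST, hjF⟩ := Finset.mem_inter.1 hj
    have hjT : j ∈ T := by
      rcases Finset.mem_union.1 hjST with h1 | h1
      · exact absurd hjv (Finset.mem_sdiff.1 (hS h1)).2
      · exact h1
    refine ⟨j, Finset.mem_inter.2 ⟨hjv, hjF⟩, ?_⟩
    rw [if_pos hjT, if_pos hlt, sub_self]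

private theorem XA_split (v : V) (f : Finset ι → ℝ) :
    EV p f = ev (univ \ g.E v) p (fun S => ev (g.E v) p (fun T => f (S ∪ T))) := by
  rw [← ev_union Finset.sdiff_disjoint]
  have h : univ \ g.E v ∪ g.E v = univ := Finset.sdiff_union_of_subset (Finset.subset_univ _)
  rw [h]

/-- Job XA. Given `S \ E v`, `D v (S ∩ F) ≤ r` iff no `j ∈ S ∩ F ∩ E v` satisfies
`D (ot j v) ((S ∩ F) \ E v) + r < w j` (`D_le_iff`). Write `univ = (univ \ E v) ∪ E v`, `ev_union`; for
`S ⊆ univ \ E v`, `T ⊆ E v` one has `((S ∪ T) ∩ F) \ E v = S ∩ F`, `h (S ∪ T) = h S`, and the indicator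
is the product over `j ∈ E v ∩ F` of `if j ∈ T then (1 - [D (ot j v) (S ∩ F) + r < w j]) else 1`;
`ev_prod_lin`. Finally `th p F v r S'` only depends on `S' \ E v`. -/
theorem P1 (F : Finset ι) (v : V) (r : ℕ) {h : Finset ι → ℝ} (hh : DepOn h (univ \ g.E v)) :
    EV p (fun S => (if g.D v (S ∩ F) ≤ (r : ℤ) then 1 else 0) * h S) =
      EV p (fun S => g.th p F v r S * h S) := by
  rw [XA_split (g := g) v, XA_split (g := g) v]
  apply ev_congr
  intro S hS
  have h1 : ev (g.E v) p (fun T => g.th p F v r (S ∪ T) * h (S ∪ T)) = g.th p F v r S * h S := by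
    rw [ev_congr (g := fun _ => g.th p F v r S * h S) fun T hT => by rw [XA_th hT, XA_dep hT hh]]
    exact ev_const _ _ _
  rw [h1]
  rw [ev_congr (g := fun T => h S * ∏ j ∈ g.E v ∩ F,
      (if j ∈ T then (1 - (if g.D (g.ot j v) ((S ∩ F) \ g.E v) + (r : ℤ) < (g.w j : ℤ) then 1 else 0))
        else 1)) fun T hT => by rw [XA_ind hS hT, XA_dep hT hh, mul_comm]]
  rw [ev_const_mul, ev_prod_lin Finset.inter_subset_left, mul_comm]
  congr 1
  unfold MG.th
  refine Finset.prod_congr rfl fun j _ => ?_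
  ring

/-- Job XA. -/
theorem P1' (F : Finset ι) (v : V) (r : ℕ) :
    EV p (fun S => if g.D v (S ∩ F) ≤ (r : ℤ) then (1 : ℝ) else 0) =
      EV p (fun S => g.th p F v r S) := by
  have h := P1 (g := g) (p := p) F v r (h := fun _ => (1 : ℝ)) (fun _ _ _ => rfl)
  simpa only [mul_one] using h

/-- Job XA. Independence of the edge `i` and the rest. -/
theorem mecke {i : ι} {h : Finset ι → ℝ} (hh : DepOn h (univ.erase i)) :
    EV p (fun S => (if i ∈ S then 1 else 0) * h S) = p i * EV p h := by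
  have h1 : DepOn (fun S : Finset ι => if i ∈ S then (1 : ℝ) else 0) {i} := by
    intro T T' h
    have h1 : i ∈ T ↔ i ∈ T' := by
      have h2 := congrArg (fun S : Finset ι => i ∈ S) h
      simpa using h2
    simp only [h1]
  have h2 : Disjoint ({i} : Finset ι) (univ.erase i) :=
    Finset.disjoint_singleton_left.2 (Finset.notMem_erase i univ)
  show ev univ p _ = _
  rw [ev_indep h1 hh h2, ev_mem (Finset.mem_univ i)]

/-- Job XA. -/
theorem ev_nonneg (hp : ∀ i, 0 ≤ p i ∧ p i ≤ 1) {f : Finset ι → ℝ} (h : ∀ S, 0 ≤ f S) :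
    0 ≤ EV p f := by
  have h1 := ev_mono (A := (univ : Finset ι)) (p := p) (fun i _ => hp i) (f := fun _ => (0 : ℝ)) (g := f)
    (fun T _ => h T)
  rwa [ev_const] at h1

/-- Job XA. The events `S ∩ K = {j}`, `j ∈ K`, are disjoint, and independent of functions of `S \ K`:
`E f ≥ ∑ j ∈ K, P(S ∩ K = {j}) E (h j)` if `f ≥ h j` on the event `S ∩ K = {j}` and `f ≥ 0`.
Write `univ = (univ \ K) ∪ K`, `ev_union`; for `S ⊆ univ \ K`, `T ⊆ K`:
`f (S ∪ T) ≥ ∑ j ∈ K, [T = {j}] * h j S`, and `P(T = {j}) = p j * ∏ k ∈ K.erase j, (1 - p k) ≥ q * p j`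
(`ev_pattern`). -/
theorem ev_single (hp : ∀ i, 0 ≤ p i ∧ p i ≤ 1) {K : Finset ι} {f : Finset ι → ℝ}
    {h : ι → Finset ι → ℝ} {q : ℝ} (hq : ∀ j ∈ K, q ≤ ∏ k ∈ K.erase j, (1 - p k))
    (hf : ∀ S, 0 ≤ f S) (hh0 : ∀ j ∈ K, ∀ S, 0 ≤ h j S) (hh : ∀ j ∈ K, DepOn (h j) (univ \ K))
    (hfh : ∀ j ∈ K, ∀ S, S ∩ K = {j} → h j S ≤ f S) :
    q * ∑ j ∈ K, p j * EV p (h j) ≤ EV p f := by
  classical
  have h1 : EV p (fun S => ∑ j ∈ K, (if S ∩ K = {j} then (1 : ℝ) else 0) * h j S) ≤ EV p f := by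
    apply ev_mono fun i _ => hp i
    intro S _
    by_cases hex : ∃ j ∈ K, S ∩ K = {j}
    · obtain ⟨j, hj, hS⟩ := hex
      rw [Finset.sum_eq_single j]
      · rw [if_pos hS, one_mul]
        exact hfh j hj S hS
      · intro k _ hk
        rw [if_neg, zero_mul]
        rw [hS]
        intro h2
        exact hk (Finset.singleton_injective h2).symm
      · intro h2
        exact absurd hj h2
    · rw [Finset.sum_eq_zero]
      · exact hf S
      · intro j hj
        rw [if_neg, zero_mul]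
        exact fun h2 => hex ⟨j, hj, h2⟩
  refine le_trans ?_ h1
  show _ ≤ ev univ p _
  rw [ev_sum, Finset.mul_sum]
  refine Finset.sum_le_sum fun j hj => ?_
  have h2 : DepOn (fun S : Finset ι => if S ∩ K = {j} then (1 : ℝ) else 0) K := by
    intro T T' hT
    simp only [hT]
  have h3 : Disjoint K (univ \ K) := Finset.disjoint_sdiff
  have h4 : ev univ p (fun S => (if S ∩ K = {j} then (1 : ℝ) else 0) * h j S) =
      ev univ p (fun S => if S ∩ K = {j} then (1 : ℝ) else 0) * ev univ p (h j) :=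
    ev_indep h2 (hh j hj) h3
  have h5 : ev univ p (fun S => if S ∩ K = {j} then (1 : ℝ) else 0) =
      p j * ∏ k ∈ K.erase j, (1 - p k) := by
    have h6 := ev_pattern (A := (univ : Finset ι)) (B := {j}) (C := K.erase j) (Finset.subset_univ _)
      (Finset.subset_univ _) (Finset.disjoint_singleton_left.2 (Finset.notMem_erase j K)) p
    rw [Finset.prod_singleton] at h6
    rw [← h6]
    apply ev_congr
    intro S _
    have h7 : (S ∩ K = {j}) ↔ ({j} ⊆ S ∧ Disjoint (K.erase j) S) := by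
      constructor
      · intro h8
        have h9 : j ∈ S ∩ K := by rw [h8]; exact Finset.mem_singleton_self j
        refine ⟨Finset.singleton_subset_iff.2 (Finset.mem_inter.1 h9).1, ?_⟩
        rw [Finset.disjoint_left]
        intro k hk hkS
        have h10 : k ∈ S ∩ K := Finset.mem_inter.2 ⟨hkS, Finset.mem_of_mem_erase hk⟩
        rw [h8, Finset.mem_singleton] at h10
        exact Finset.ne_of_mem_erase hk h10
      · rintro ⟨h8, h9⟩
        ext k
        rw [Finset.mem_inter, Finset.mem_singleton]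
        constructor
        · rintro ⟨h10, h11⟩
          by_contra h12
          exact Finset.disjoint_left.1 h9 (Finset.mem_erase.2 ⟨h12, h11⟩) h10
        · rintro rfl
          exact ⟨Finset.singleton_subset_iff.1 h8, hj⟩
    simp only [h7]
  rw [h4, h5]
  have h6 := ev_nonneg hp (hh0 j hj)
  have h7 := hq j hj
  have h8 := (hp j).1
  calc q * (p j * EV p (h j)) = (q * (p j * EV p (h j))) := rfl
    _ ≤ (∏ k ∈ K.erase j, (1 - p k)) * (p j * EV p (h j)) :=
        mul_le_mul_of_nonneg_right h7 (mul_nonneg h8 h6)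
    _ = p j * (∏ k ∈ K.erase j, (1 - p k)) * ev univ p (h j) := by ring

end Pool.Agent.Lib.MP_7470b6_lc.Bip
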