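import Pool.Agent.Lib.MP_7470b6_lc.Bip.BD

/-!
# Counting levels, products of small probabilities
-/

open Finset

namespace Pool.Agent.Lib.MP_7470b6_lc.Bip

open Pool.Agent.Lib.MP_7470b6_lc.Crs

/-- Job XB. Number of levels `r < w` with `D ≤ r`. -/
theorem cnt1 (w : ℕ) (D : ℤ) (hD : 0 ≤ D) :
    ∑ r ∈ range w, (if D ≤ (r : ℤ) then (1 : ℝ) else 0) = ((max 0 ((w : ℤ) - D) : ℤ) : ℝ) := by
  induction w with
  | zero =>
    have h : max 0 (((0 : ℕ) : ℤ) - D) = 0 := by omega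
    rw [h]
    simp
  | succ w ih =>
    rw [sum_range_succ, ih]
    split_ifs with h
    · have h1 : max 0 (((w + 1 : ℕ) : ℤ) - D) = max 0 ((w : ℤ) - D) + 1 := by omega
      rw [h1]
      push_cast
      ring
    · have h1 : max 0 (((w + 1 : ℕ) : ℤ) - D) = max 0 ((w : ℤ) - D) := by omega
      rw [h1]
      ring

theorem xb_cnt (N : ℕ) (z : ℤ) :
    ∑ s ∈ range N, (if (s : ℤ) < z then (1 : ℝ) else 0) = ((max 0 (min (N : ℤ) z) : ℤ) : ℝ) := by
  induction N with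
  | zero =>
    have h : max 0 (min ((0 : ℕ) : ℤ) z) = 0 := by omega
    rw [h]
    simp
  | succ w ih =>
    rw [sum_range_succ, ih]
    split_ifs with h
    · have h1 : max 0 (min ((w + 1 : ℕ) : ℤ) z) = max 0 (min (w : ℤ) z) + 1 := by omega
      rw [h1]
      push_cast
      ring
    · have h1 : max 0 (min ((w + 1 : ℕ) : ℤ) z) = max 0 (min (w : ℤ) z) := by omega
      rw [h1]
      ring

/-- Job XB. Number of levels `s` with `D + s < w`. -/
theorem cnt2 (w N : ℕ) (D : ℤ) (hD : 0 ≤ D) (hN : w ≤ N) :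
    ∑ s ∈ range N, (if D + (s : ℤ) < (w : ℤ) then (1 : ℝ) else 0) =
      ((max 0 ((w : ℤ) - D) : ℤ) : ℝ) := by
  have h := xb_cnt N ((w : ℤ) - D)
  have h1 : max 0 (min (N : ℤ) ((w : ℤ) - D)) = max 0 ((w : ℤ) - D) := by omega
  rw [h1] at h
  rw [← h]
  refine sum_congr rfl fun s _ => ?_
  by_cases hc : D + (s : ℤ) < (w : ℤ)
  · rw [if_pos hc, if_pos (by omega)]
  · rw [if_neg hc, if_neg (by omega)]

/-- Job XB. Number of levels satisfying both conditions. -/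
theorem cnt3 (w w' N : ℕ) (D D' : ℤ) (hD : 0 ≤ D) (hD' : 0 ≤ D') (hN : w ≤ N) (hN' : w' ≤ N) :
    ∑ s ∈ range N, ((if D + (s : ℤ) < (w : ℤ) then (1 : ℝ) else 0) *
      (if D' + (s : ℤ) < (w' : ℤ) then (1 : ℝ) else 0)) =
      ((max 0 (min ((w : ℤ) - D) ((w' : ℤ) - D')) : ℤ) : ℝ) := by
  have h := xb_cnt N (min ((w : ℤ) - D) ((w' : ℤ) - D'))
  have h1 : max 0 (min (N : ℤ) (min ((w : ℤ) - D) ((w' : ℤ) - D'))) =
      max 0 (min ((w : ℤ) - D) ((w' : ℤ) - D')) := by omega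
  rw [h1] at h
  rw [← h]
  refine sum_congr rfl fun s _ => ?_
  by_cases hc : D + (s : ℤ) < (w : ℤ)
  · by_cases hc' : D' + (s : ℤ) < (w' : ℤ)
    · rw [if_pos hc, if_pos hc', if_pos (lt_min (by omega) (by omega))]
      ring
    · have h2 : ¬ (s : ℤ) < min ((w : ℤ) - D) ((w' : ℤ) - D') := fun h2 => by
        have := (lt_min_iff.1 h2).2
        exact hc' (by omega)
      rw [if_neg hc', mul_zero, if_neg h2]
  · have h2 : ¬ (s : ℤ) < min ((w : ℤ) - D) ((w' : ℤ) - D') := fun h2 => by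
      have := (lt_min_iff.1 h2).1
      exact hc (by omega)
    rw [if_neg hc, zero_mul, if_neg h2]

/-- Job XB. Only the levels `s < w` matter. -/
theorem cnt4 (w N : ℕ) (f : ℕ → ℝ) (hN : w ≤ N) :
    ∑ s ∈ range N, (if s < w then f s else 0) = ∑ s ∈ range w, f s := by
  rw [← sum_filter]
  refine sum_congr ?_ fun _ _ => rfl
  ext s
  simp only [mem_filter, mem_range]
  omega

/-- Job XB. AM-GM over the levels: for the levels `s < min w w'` use `x y ≤ (x² + y²) / 2`, all other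
terms on the right are nonnegative; `Finset.sum_range_reflect`. -/
theorem cnt5 (w w' N : ℕ) (x y : ℕ → ℝ) (hN : w ≤ N) (hN' : w' ≤ N) :
    ∑ s ∈ range N, (if s < w ∧ s < w' then x (w - 1 - s) * y (w' - 1 - s) else 0) ≤
      (1 / 2) * ∑ r ∈ range w, (x r) ^ 2 + (1 / 2) * ∑ r ∈ range w', (y r) ^ 2 := by
  have h1 : ∑ r ∈ range w, (x r) ^ 2 = ∑ s ∈ range N, (if s < w then (x (w - 1 - s)) ^ 2 else 0) := by
    rw [cnt4 w N (fun s => (x (w - 1 - s)) ^ 2) hN]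
    exact (sum_range_reflect (fun r => (x r) ^ 2) w).symm
  have h2 : ∑ r ∈ range w', (y r) ^ 2 = ∑ s ∈ range N, (if s < w' then (y (w' - 1 - s)) ^ 2 else 0) := by
    rw [cnt4 w' N (fun s => (y (w' - 1 - s)) ^ 2) hN']
    exact (sum_range_reflect (fun r => (y r) ^ 2) w').symm
  rw [h1, h2, mul_sum, mul_sum, ← sum_add_distrib]
  refine sum_le_sum fun s _ => ?_
  by_cases ha : s < w
  · by_cases hb : s < w'
    · rw [if_pos ⟨ha, hb⟩, if_pos ha, if_pos hb]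
      nlinarith [sq_nonneg (x (w - 1 - s) - y (w' - 1 - s))]
    · rw [if_neg (fun h => hb h.2), if_pos ha, if_neg hb]
      positivity
  · rw [if_neg (fun h => ha h.1), if_neg ha]
    split_ifs <;> positivity

/-- Job XB. Monotonicity of `z ↦ max 0 (z + d) - max 0 z`. -/
theorem cap_mono (A B d : ℤ) (hd : 0 ≤ d) :
    max 0 (min (A + d) (B + d)) - max 0 (min A B) ≤ max 0 (A + d) - max 0 A := by
  omega

/-- Job XB. -/
theorem cap_le (A B d : ℤ) (hd : 0 ≤ d) :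
    max 0 (min (A + d) (B + d)) - max 0 (min A B) ≤
      max 0 (A + d) - max 0 (A + d - (max 0 (B + d) - max 0 B)) := by
  omega

/-- Job XB. -/
theorem cap_nonneg (A B d : ℤ) (hd : 0 ≤ d) :
    0 ≤ max 0 (min (A + d) (B + d)) - max 0 (min A B) := by
  omega

theorem xb_one_sub {x : ℝ} (h0 : 0 ≤ x) (h1 : x ≤ 1 / 2) : Real.exp (-(x + x ^ 2)) ≤ 1 - x := by
  have hy : 0 ≤ x + x ^ 2 := by positivity
  have h2 := Real.quadratic_le_exp_of_nonneg hy
  rw [Real.exp_neg]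
  have hpos : 0 < Real.exp (x + x ^ 2) := Real.exp_pos _
  rw [inv_le_iff_one_le_mul₀ hpos]
  have h3 : 1 ≤ (1 - x) * (1 + (x + x ^ 2) + (x + x ^ 2) ^ 2 / 2) := by
    have e : (1 - x) * (1 + (x + x ^ 2) + (x + x ^ 2) ^ 2 / 2) =
        1 + x ^ 2 / 2 * (1 - x - x ^ 2 - x ^ 3) := by ring
    rw [e]
    have h4 : 0 ≤ 1 - x - x ^ 2 - x ^ 3 := by
      have h5 : x ^ 2 ≤ 1 / 4 := by nlinarith
      have h6 : x ^ 3 ≤ 1 / 8 := by
        have : x ^ 3 = x * x ^ 2 := by ring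
        rw [this]; nlinarith [sq_nonneg x]
      linarith
    have h7 : 0 ≤ x ^ 2 / 2 * (1 - x - x ^ 2 - x ^ 3) := mul_nonneg (by positivity) h4
    linarith
  calc (1 : ℝ) ≤ (1 - x) * (1 + (x + x ^ 2) + (x + x ^ 2) ^ 2 / 2) := h3
    _ ≤ (1 - x) * Real.exp (x + x ^ 2) := mul_le_mul_of_nonneg_left h2 (by linarith)

/-- Job XB. Products of factors `1 - p i` with small `p i` and `∑ p i ≤ L ≤ 1`:
`1 - x ≥ exp (-x - x²)` for `0 ≤ x ≤ 1/2`, `∑ p i² ≤ eps * ∑ p i ≤ eps`, `exp (-eps) ≥ 1 - eps`. -/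
theorem prod_ge {κ : Type} (K : Finset κ) (p : κ → ℝ) {eps L : ℝ} (hp : ∀ i ∈ K, 0 ≤ p i)
    (hs : ∀ i ∈ K, p i ≤ eps) (he0 : 0 ≤ eps) (he : eps ≤ 1 / 2) (hL : ∑ i ∈ K, p i ≤ L) (hL1 : L ≤ 1) :
    Real.exp (-L) * (1 - eps) ≤ ∏ i ∈ K, (1 - p i) := by
  have h1 : ∏ i ∈ K, Real.exp (-(p i + (p i) ^ 2)) ≤ ∏ i ∈ K, (1 - p i) :=
    prod_le_prod (fun i _ => (Real.exp_pos _).le)
      (fun i hi => xb_one_sub (hp i hi) ((hs i hi).trans he))
  rw [← Real.exp_sum] at h1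
  have h2 : ∑ i ∈ K, (p i) ^ 2 ≤ eps * ∑ i ∈ K, p i := by
    rw [mul_sum]
    refine sum_le_sum fun i hi => ?_
    have e : (p i) ^ 2 = p i * p i := by ring
    rw [e]
    exact mul_le_mul_of_nonneg_right (hs i hi) (hp i hi)
  have h3 : eps * ∑ i ∈ K, p i ≤ eps := by
    have : ∑ i ∈ K, p i ≤ 1 := hL.trans hL1
    nlinarith
  have h4 : -L + -eps ≤ ∑ i ∈ K, -(p i + (p i) ^ 2) := by
    rw [sum_neg_distrib, sum_add_distrib]
    linarith
  have h5 : 1 - eps ≤ Real.exp (-eps) := by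
    have := Real.add_one_le_exp (-eps)
    linarith
  calc Real.exp (-L) * (1 - eps) ≤ Real.exp (-L) * Real.exp (-eps) :=
        mul_le_mul_of_nonneg_left h5 (Real.exp_pos _).le
    _ = Real.exp (-L + -eps) := (Real.exp_add _ _).symm
    _ ≤ Real.exp (∑ i ∈ K, -(p i + (p i) ^ 2)) := Real.exp_le_exp.2 h4
    _ ≤ _ := h1

/-- Job XB. `1 - x ≤ exp (-x)`. -/
theorem prod_le {κ : Type} (K : Finset κ) (p : κ → ℝ) (hp : ∀ i ∈ K, 0 ≤ p i ∧ p i ≤ 1) :
    ∏ i ∈ K, (1 - p i) ≤ Real.exp (-∑ i ∈ K, p i) := by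
  rw [← sum_neg_distrib, Real.exp_sum]
  refine prod_le_prod (fun i hi => by linarith [(hp i hi).2]) fun i _ => ?_
  have := Real.add_one_le_exp (-(p i))
  linarith

/-- Job XB. `exp (-1) * (1 - 0.0002) > 0.3678` and `prod_ge`. -/
theorem prod_ge_c0 {κ : Type} (K : Finset κ) (p : κ → ℝ) {eps : ℝ} (hp : ∀ i ∈ K, 0 ≤ p i)
    (hs : ∀ i ∈ K, p i ≤ eps) (he : eps ≤ 0.0002) (hL : ∑ i ∈ K, p i ≤ 1) :
    c0 ≤ ∏ i ∈ K, (1 - p i) := by
  have h1 := prod_ge K p (eps := 0.0002) (L := 1) hp (fun i hi => (hs i hi).trans he)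
    (by norm_num) (by norm_num) hL le_rfl
  have h2 : (0.36787944116 : ℝ) < Real.exp (-1) := Real.exp_neg_one_gt_d9
  have h3 : c0 ≤ Real.exp (-1) * (1 - 0.0002) := by
    unfold c0
    nlinarith
  exact h3.trans h1

end Pool.Agent.Lib.MP_7470b6_lc.Bip
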