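import Pool.Agent.Lib.MP_7470b6_lc.Bip.XB
import Pool.Agent.Lib.MP_7470b6_lc.Bip.BB

/-!
# Bounds for th
-/

open Finset

namespace Pool.Agent.Lib.MP_7470b6_lc.Bip

open Pool.Agent.Lib.MP_7470b6_lc.Crs

variable {V ι : Type} [Fintype V] [DecidableEq V] [Fintype ι] [DecidableEq ι] {g : MG V ι}
  {c : V → Bool} {p : ι → ℝ} {eps : ℝ}

/-- Job XK. -/
theorem p01 (hp : LoadOk g p eps) (he : eps ≤ 0.0002) (i : ι) : 0 ≤ p i ∧ p i ≤ 1 := by
  refine ⟨hp.nonneg i, ?_⟩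
  have := hp.small i
  have h2 : (0.0002 : ℝ) ≤ 1 := by norm_num
  linarith

theorem xk_ind (P : Prop) [Decidable P] : (0 : ℝ) ≤ (if P then (1 : ℝ) else 0) ∧
    (if P then (1 : ℝ) else 0) ≤ 1 := by
  split_ifs <;> norm_num

/-- Job XK. -/
theorem th_le_one (hp : LoadOk g p eps) (he : eps ≤ 0.0002) (F : Finset ι) (v : V) (r : ℕ)
    (S : Finset ι) : g.th p F v r S ≤ 1 := by
  unfold MG.th
  refine prod_le_one (fun j _ => ?_) (fun j _ => ?_)
  · have h1 := p01 hp he j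
    have h2 := xk_ind (g.D (g.ot j v) ((S ∩ F) \ g.E v) + (r : ℤ) < (g.w j : ℤ))
    have h3 := mul_le_one₀ h1.2 h2.1 h2.2
    linarith
  · have h1 := p01 hp he j
    have h2 := xk_ind (g.D (g.ot j v) ((S ∩ F) \ g.E v) + (r : ℤ) < (g.w j : ℤ))
    have h3 := mul_nonneg h1.1 h2.1
    linarith

/-- Job XK. `prod_ge_c0` for the set of the `j ∈ E v ∩ F` satisfying the condition. -/
theorem c0_le_th (hp : LoadOk g p eps) (he : eps ≤ 0.0002) (F : Finset ι) (v : V) (r : ℕ)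
    (S : Finset ι) : c0 ≤ g.th p F v r S := by
  unfold MG.th
  have hb : ∀ j, p j * (if g.D (g.ot j v) ((S ∩ F) \ g.E v) + (r : ℤ) < (g.w j : ℤ) then (1 : ℝ) else 0)
      ≤ p j := fun j => by
    have h1 := p01 hp he j
    have h2 := xk_ind (g.D (g.ot j v) ((S ∩ F) \ g.E v) + (r : ℤ) < (g.w j : ℤ))
    exact mul_le_of_le_one_right h1.1 h2.2
  refine prod_ge_c0 (g.E v ∩ F)
    (fun j => p j * (if g.D (g.ot j v) ((S ∩ F) \ g.E v) + (r : ℤ) < (g.w j : ℤ) then (1 : ℝ) else 0))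
    (fun j _ => ?_) (fun j _ => ?_) he ?_
  · have h1 := p01 hp he j
    have h2 := xk_ind (g.D (g.ot j v) ((S ∩ F) \ g.E v) + (r : ℤ) < (g.w j : ℤ))
    exact mul_nonneg h1.1 h2.1
  · exact (hb j).trans (hp.small j)
  · calc ∑ j ∈ g.E v ∩ F, p j * (if g.D (g.ot j v) ((S ∩ F) \ g.E v) + (r : ℤ) < (g.w j : ℤ)
          then (1 : ℝ) else 0) ≤ ∑ j ∈ g.E v ∩ F, p j := sum_le_sum fun j _ => hb j
      _ ≤ ∑ j ∈ g.E v, p j :=
        sum_le_sum_of_subset_of_nonneg inter_subset_left fun j _ _ => hp.nonneg j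
      _ ≤ 1 := hp.load v

/-- Job XK. The factors `j ∈ E b \ E u` (`b = ot i u`) are compared by `M2` for `u` and `ot j b ≠ u` of the
same colour: `D (ot j b) (S \ E b) ≤ D (ot j b) ((S \ E b) \ E u)`. Note `E b ∩ FM = E b ∩ FA = E b \ E u`,
`(S ∩ FM) \ E b = S \ E b`, `(S ∩ FA) \ E b = (S \ E b) \ E u`. -/
theorem thM_le_thA (hB : TwoCol g c) (hp : LoadOk g p eps) (he : eps ≤ 0.0002) {u : V} {i : ι}
    (hi : i ∈ g.E u) (r : ℕ) (S : Finset ι) :
    g.th p (g.FM u i) (g.ot i u) r S ≤ g.th p (g.FA u i) (g.ot i u) r S := by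
  set b := g.ot i u with hb
  have e1 : g.E b ∩ g.FM u i = g.E b \ g.E u := by
    ext j
    simp only [MG.FM, mem_inter, mem_sdiff, mem_univ, true_and, ← hb]
    tauto
  have e2 : g.E b ∩ g.FA u i = g.E b \ g.E u := by
    ext j
    simp only [MG.FA, mem_inter, mem_sdiff, mem_univ, true_and]
  have e3 : (S ∩ g.FM u i) \ g.E b = S \ g.E b := by
    ext j
    simp only [MG.FM, mem_inter, mem_sdiff, mem_univ, true_and, ← hb]
    tauto
  have e4 : (S ∩ g.FA u i) \ g.E b = (S \ g.E b) \ g.E u := by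
    ext j
    simp only [MG.FA, mem_inter, mem_sdiff, mem_univ, true_and]
    tauto
  unfold MG.th
  rw [e1, e2, e3, e4]
  refine prod_le_prod (fun j _ => ?_) (fun j hj => ?_)
  · have h1 := p01 hp he j
    have h2 := xk_ind (g.D (g.ot j b) (S \ g.E b) + (r : ℤ) < (g.w j : ℤ))
    have h3 := mul_le_one₀ h1.2 h2.1 h2.2
    linarith
  · have hjb : j ∈ g.E b := (mem_sdiff.1 hj).1
    have hju : j ∉ g.E u := (mem_sdiff.1 hj).2
    have hne : u ≠ g.ot j b := fun h => hju (by rw [h]; exact mem_ot hjb)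
    have hc1 : c b ≠ c u := by rw [hb]; exact col_ot hB hi
    have hc2 : c (g.ot j b) ≠ c b := col_ot hB hjb
    have hc3 : c u = c (g.ot j b) := by
      cases h1 : c u <;> cases h2 : c b <;> cases h3 : c (g.ot j b) <;> simp_all
    have hM := M2 hB hc3 hne (S \ g.E b)
    have hp0 := hp.nonneg j
    by_cases h1 : g.D (g.ot j b) ((S \ g.E b) \ g.E u) + (r : ℤ) < (g.w j : ℤ)
    · rw [if_pos h1, if_pos (by omega)]
    · rw [if_neg h1]
      have h2 := xk_ind (g.D (g.ot j b) (S \ g.E b) + (r : ℤ) < (g.w j : ℤ))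
      have h3 := mul_nonneg hp0 h2.1
      linarith

/-- Job XK. `th` at the centre `u`, split into the edges not parallel to `i` and the edges parallel to
`i`: `th univ u s S = th (FM) u s S * ∏ j ∈ E u ∩ E (ot i u), (1 - p j * gd u s j S)`. -/
theorem th_split {u : V} {i : ι} (hi : i ∈ g.E u) (s : ℕ) (S : Finset ι) :
    g.th p univ u s S = g.th p (univ \ (g.E u ∩ g.E (g.ot i u))) u s S *
      ∏ j ∈ g.E u ∩ g.E (g.ot i u), (1 - p j * g.gd u s j S) := by
  set b := g.ot i u with hb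
  have e1 : g.E u ∩ (univ \ (g.E u ∩ g.E b)) = g.E u \ (g.E u ∩ g.E b) := by
    ext j
    simp only [mem_inter, mem_sdiff, mem_univ, true_and]
  have e2 : (S ∩ (univ \ (g.E u ∩ g.E b))) \ g.E u = S \ g.E u := by
    ext j
    simp only [mem_inter, mem_sdiff, mem_univ, true_and]
    tauto
  have e3 : (S ∩ univ) \ g.E u = S \ g.E u := by rw [inter_univ]
  unfold MG.th MG.gd
  rw [e1, e2, e3, inter_univ]
  exact (prod_sdiff inter_subset_left).symm

end Pool.Agent.Lib.MP_7470b6_lc.Bip
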