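import Pool.Agent.Lib.MP_7470b6_lc.Bip.XA
import Pool.Agent.Lib.MP_7470b6_lc.Bip.XK

/-!
# Sums over the levels
-/

open Finset

namespace Pool.Agent.Lib.MP_7470b6_lc.Bip

open Pool.Agent.Lib.MP_7470b6_lc.Crs

variable {V ι : Type} [Fintype V] [DecidableEq V] [Fintype ι] [DecidableEq ι] {g : MG V ι}
  {c : V → Bool} {p : ι → ℝ} {eps : ℝ}

/-- Job XC. `P1'`, `cnt1`, `ev_sum`. -/
theorem pos_th (F : Finset ι) (v : V) (w : ℕ) :
    ∑ r ∈ range w, EV p (fun S => g.th p F v r S) =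
      EV p (fun S => ((max 0 ((w : ℤ) - g.D v (S ∩ F)) : ℤ) : ℝ)) := by
  have h1 : ∀ r ∈ range w, EV p (fun S => g.th p F v r S) =
      EV p (fun S => if g.D v (S ∩ F) ≤ (r : ℤ) then (1 : ℝ) else 0) := fun r _ => (P1' F v r).symm
  rw [Finset.sum_congr rfl h1, ← ev_sum]
  refine ev_congr fun S _ => ?_
  exact cnt1 w _ (D_nonneg v _)

/-- Job XC. `cnt2` and `pos_th`. (`S ∩ (univ \ E u) = S \ E u`.) -/
theorem lev_gd {u : V} {i : ι} {N : ℕ} (hN : g.w i ≤ N) :
    ∑ s ∈ range N, EV p (fun S => g.gd u s i S) =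
      ∑ r ∈ range (g.w i), EV p (fun S => g.th p (g.FA u i) (g.ot i u) r S) := by
  rw [pos_th, ← ev_sum]
  refine ev_congr fun S _ => ?_
  have h1 : S ∩ g.FA u i = S \ g.E u := by
    unfold MG.FA
    ext x
    simp
  rw [h1]
  exact cnt2 (g.w i) N _ (D_nonneg _ _) hN

/-- Job XC. -/
theorem lev_gd' {u : V} {i : ι} :
    ∑ s ∈ range (g.w i), EV p (fun S => g.gd u s i S) =
      ∑ r ∈ range (g.w i), EV p (fun S => g.th p (g.FA u i) (g.ot i u) r S) := by
  exact lev_gd le_rfl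

/-- Job XC. Expand `m` and use `lev_gd`. -/
theorem sum_m {N : ℕ} (hN : ∀ i, g.w i ≤ N) :
    ∑ u, ∑ s ∈ range N, EV p (fun S => g.m p u s S) = g.SS p g.FA 1 := by
  unfold MG.SS
  refine Finset.sum_congr rfl fun u _ => ?_
  have h1 : ∀ s ∈ range N, EV p (fun S => g.m p u s S) =
      ∑ i ∈ g.E u, p i * EV p (fun S => g.gd u s i S) := by
    intro s _
    exact (ev_sum univ p (g.E u) (fun i S => p i * g.gd u s i S)).trans
      (Finset.sum_congr rfl fun i _ => ev_const_mul _ _ _ _)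
  rw [Finset.sum_congr rfl h1, Finset.sum_comm]
  refine Finset.sum_congr rfl fun i _ => ?_
  rw [← Finset.mul_sum, lev_gd (hN i)]
  simp only [pow_one]

/-- Job XC. Expand `dl`, `cnt4`, and `sum_dir`. -/
theorem sum_dl (hB : TwoCol g c) {N : ℕ} (hN : ∀ i, g.w i ≤ N) (k : ℕ) :
    ∑ u, ∑ s ∈ range N, g.dl p u s * EV p (fun S => (g.th p univ u s S) ^ k) = g.SS p g.FZ k := by
  have h1 : g.SS p g.FZ k = ∑ u, ∑ i ∈ g.E u, p i * ∑ r ∈ range (g.w i),
      EV p (fun S => (g.th p univ u r S) ^ k) := by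
    unfold MG.SS MG.FZ
    exact (sum_dir hB (fun u i => p i * ∑ r ∈ range (g.w i),
      EV p (fun S => (g.th p univ u r S) ^ k))).symm
  rw [h1]
  refine Finset.sum_congr rfl fun u _ => ?_
  have h2 : ∀ s ∈ range N, g.dl p u s * EV p (fun S => (g.th p univ u s S) ^ k) =
      ∑ i ∈ g.E u, (if s < g.w i then p i * EV p (fun S => (g.th p univ u s S) ^ k) else 0) := by
    intro s _
    unfold MG.dl
    rw [Finset.sum_mul]
    refine Finset.sum_congr rfl fun i _ => ?_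
    split_ifs
    · rfl
    · exact zero_mul _
  rw [Finset.sum_congr rfl h2, Finset.sum_comm]
  refine Finset.sum_congr rfl fun i _ => ?_
  rw [cnt4 (g.w i) N (fun s => p i * EV p (fun S => (g.th p univ u s S) ^ k)) (hN i),
    Finset.mul_sum]

/-- Job XC. `sum_two`. -/
theorem sum_dl_one (hB : TwoCol g c) {N : ℕ} (hN : ∀ i, g.w i ≤ N) :
    ∑ u, ∑ s ∈ range N, g.dl p u s = 2 * ∑ i, p i * (g.w i : ℝ) := by
  have h1 : ∀ u : V, ∑ s ∈ range N, g.dl p u s = ∑ i ∈ g.E u, p i * (g.w i : ℝ) := by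
    intro u
    unfold MG.dl
    rw [Finset.sum_comm]
    refine Finset.sum_congr rfl fun i _ => ?_
    rw [cnt4 (g.w i) N (fun _ => p i) (hN i), Finset.sum_const, Finset.card_range, nsmul_eq_mul,
      mul_comm]
  rw [Finset.sum_congr rfl fun u _ => h1 u]
  exact sum_two hB fun i => p i * (g.w i : ℝ)

/-- Job XC. `SS` with the sets at the centre `u` (`sum_dir`; `ot i (ot i u) = u`). -/
theorem SS_swap (hB : TwoCol g c) (F : V → ι → Finset ι) (k : ℕ) :
    g.SS p F k = ∑ u, ∑ i ∈ g.E u, p i * ∑ r ∈ range (g.w i),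
      EV p (fun S => (g.th p (F (g.ot i u) i) u r S) ^ k) := by
  rw [sum_dir hB (fun u i => p i * ∑ r ∈ range (g.w i),
      EV p (fun S => (g.th p (F (g.ot i u) i) u r S) ^ k))]
  unfold MG.SS
  refine Finset.sum_congr rfl fun u _ => Finset.sum_congr rfl fun i hi => ?_
  rw [ot_ot hi]

end Pool.Agent.Lib.MP_7470b6_lc.Bip
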