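import Pool.Agent.Lib.MP_7470b6_lc.Bip.XC
import Pool.Agent.Lib.MP_7470b6_lc.Bip.BE

/-!
# Lower bound for the expected weight
-/

open Finset

namespace Pool.Agent.Lib.MP_7470b6_lc.Bip

open Pool.Agent.Lib.MP_7470b6_lc.Crs

variable {V ι : Type} [Fintype V] [DecidableEq V] [Fintype ι] [DecidableEq ι] {g : MG V ι}
  {c : V → Bool} {p : ι → ℝ} {eps : ℝ}

/-- Job XD. `al i u` only depends on `S \ E u`, so on `S.erase i`: `mecke`, and `pos_th` with
`S ∩ (univ \ E u) = S \ E u`. -/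
theorem ev_al {u : V} {i : ι} (hi : i ∈ g.E u) :
    EV p (fun S => (if i ∈ S then 1 else 0) * (g.al i u S : ℝ)) =
      p i * ∑ r ∈ range (g.w i), EV p (fun S => g.th p (g.FA u i) (g.ot i u) r S) := by
  have hdep : DepOn (fun S => (g.al i u S : ℝ)) (univ.erase i) := by
    intro T T' h
    have h1 : T \ g.E u = T' \ g.E u := by
      ext k
      have h2 : k ∈ T ∩ univ.erase i ↔ k ∈ T' ∩ univ.erase i := by rw [h]
      simp only [Finset.mem_inter, Finset.mem_erase, Finset.mem_univ, and_true] at h2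
      simp only [Finset.mem_sdiff]
      constructor
      · rintro ⟨h3, h4⟩
        exact ⟨(h2.1 ⟨h3, fun h5 => h4 (h5 ▸ hi)⟩).1, h4⟩
      · rintro ⟨h3, h4⟩
        exact ⟨(h2.2 ⟨h3, fun h5 => h4 (h5 ▸ hi)⟩).1, h4⟩
    simp only [MG.al, h1]
  rw [mecke hdep, pos_th]
  congr 1
  refine ev_congr fun S _ => ?_
  have h3 : S ∩ g.FA u i = S \ g.E u := by
    ext k
    simp only [MG.FA, Finset.mem_inter, Finset.mem_sdiff, Finset.mem_univ, true_and]
  rw [h3]
  rfl

/-- Job XD. `be i u` only depends on `S.erase i`: `mecke`; `D b (S.erase i) ≤ D b S` (`D_erase_le`), so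
`be i u S ≥ max 0 (w i - D b S)`; `pos_th` with `F = univ`. -/
theorem ev_be (hp : ∀ i, 0 ≤ p i ∧ p i ≤ 1) {u : V} {i : ι} (hi : i ∈ g.E u) :
    p i * ∑ r ∈ range (g.w i), EV p (fun S => g.th p (g.FZ u i) (g.ot i u) r S) ≤
      EV p (fun S => (if i ∈ S then 1 else 0) * (g.be i u S : ℝ)) := by
  have hdep : DepOn (fun S => (g.be i u S : ℝ)) (univ.erase i) := by
    intro T T' h
    have h1 : T.erase i = T'.erase i := by
      ext k
      have h2 : k ∈ T ∩ univ.erase i ↔ k ∈ T' ∩ univ.erase i := by rw [h]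
      simp only [Finset.mem_inter, Finset.mem_erase, Finset.mem_univ, and_true] at h2
      simp only [Finset.mem_erase]
      tauto
    simp only [MG.be, h1]
  rw [mecke hdep, pos_th]
  refine mul_le_mul_of_nonneg_left ?_ (hp i).1
  refine ev_mono (fun i _ => hp i) fun S _ => ?_
  have h3 : S ∩ g.FZ u i = S := by
    simp only [MG.FZ, Finset.inter_univ]
  rw [h3]
  have h4 := D_erase_le (g := g) (mem_ot hi) S
  have h5 : max 0 ((g.w i : ℤ) - g.D (g.ot i u) S) ≤ g.be i u S := by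
    unfold MG.be
    exact max_le_max le_rfl (by linarith)
  exact_mod_cast h5

/-- Job XD. Take expectations in `det_main`. -/
theorem nu_lower (hB : TwoCol g c) (hp : ∀ i, 0 ≤ p i ∧ p i ≤ 1) (N : ℕ) :
    2 * ∑ u, ∑ s ∈ range N, EV p (fun S => ((min (g.cnt u s S) 2 : ℕ) : ℝ)) -
      (g.SS p g.FA 1 - g.SS p g.FZ 1) ≤ 4 * EV p (fun S => (g.nu S : ℝ)) := by
  have hdet : ∀ S : Finset ι, 2 * ∑ u, ∑ s ∈ range N, ((min (g.cnt u s S) 2 : ℕ) : ℝ) ≤
      4 * (g.nu S : ℝ) + ∑ u, ∑ i ∈ g.E u, ((if i ∈ S then 1 else 0) * (g.al i u S : ℝ) -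
        (if i ∈ S then 1 else 0) * (g.be i u S : ℝ)) := by
    intro S
    have h1 := det_main hB S N
    have h2 : ∑ u, ∑ i ∈ S ∩ g.E u, ((g.al i u S : ℝ) - (g.be i u S : ℝ)) =
        ∑ u, ∑ i ∈ g.E u, ((if i ∈ S then 1 else 0) * (g.al i u S : ℝ) -
        (if i ∈ S then 1 else 0) * (g.be i u S : ℝ)) := by
      refine Finset.sum_congr rfl fun u _ => ?_
      rw [Finset.inter_comm, ← Finset.filter_mem_eq_inter, Finset.sum_filter]
      refine Finset.sum_congr rfl fun i _ => ?_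
      split_ifs <;> ring
    rw [← h2]
    exact_mod_cast h1
  have h3 : EV p (fun S => 2 * ∑ u, ∑ s ∈ range N, ((min (g.cnt u s S) 2 : ℕ) : ℝ)) ≤
      EV p (fun S => 4 * (g.nu S : ℝ) + ∑ u, ∑ i ∈ g.E u,
        ((if i ∈ S then 1 else 0) * (g.al i u S : ℝ) -
          (if i ∈ S then 1 else 0) * (g.be i u S : ℝ))) :=
    ev_mono (fun i _ => hp i) fun S _ => hdet S
  have h4 : EV p (fun S => 2 * ∑ u, ∑ s ∈ range N, ((min (g.cnt u s S) 2 : ℕ) : ℝ)) =
      2 * ∑ u, ∑ s ∈ range N, EV p (fun S => ((min (g.cnt u s S) 2 : ℕ) : ℝ)) := by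
    rw [EV, ev_const_mul, ev_sum]
    congr 1
    refine Finset.sum_congr rfl fun u _ => ?_
    rw [ev_sum]
  have h5 : EV p (fun S => 4 * (g.nu S : ℝ) + ∑ u, ∑ i ∈ g.E u,
        ((if i ∈ S then 1 else 0) * (g.al i u S : ℝ) -
          (if i ∈ S then 1 else 0) * (g.be i u S : ℝ))) =
      4 * EV p (fun S => (g.nu S : ℝ)) + ∑ u, ∑ i ∈ g.E u,
        (EV p (fun S => (if i ∈ S then 1 else 0) * (g.al i u S : ℝ)) -
          EV p (fun S => (if i ∈ S then 1 else 0) * (g.be i u S : ℝ))) := by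
    rw [EV, ev_add, ev_const_mul, ev_sum]
    congr 1
    refine Finset.sum_congr rfl fun u _ => ?_
    rw [ev_sum]
    refine Finset.sum_congr rfl fun i _ => ?_
    rw [ev_sub]
  rw [h4, h5] at h3
  have h6 : ∑ u, ∑ i ∈ g.E u,
        (EV p (fun S => (if i ∈ S then 1 else 0) * (g.al i u S : ℝ)) -
          EV p (fun S => (if i ∈ S then 1 else 0) * (g.be i u S : ℝ))) ≤
      g.SS p g.FA 1 - g.SS p g.FZ 1 := by
    unfold MG.SS
    rw [← Finset.sum_sub_distrib]
    refine Finset.sum_le_sum fun u _ => ?_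
    rw [← Finset.sum_sub_distrib]
    refine Finset.sum_le_sum fun i hi => ?_
    have h7 := ev_al (p := p) hi
    have h8 := ev_be hp hi
    simp only [pow_one]
    rw [h7]
    linarith
  linarith

end Pool.Agent.Lib.MP_7470b6_lc.Bip
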