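import Pool.Agent.Lib.MP_7470b6_lc.Bip.XC

/-!
# Pairs of edges with different other ends
-/

open Finset

namespace Pool.Agent.Lib.MP_7470b6_lc.Bip

open Pool.Agent.Lib.MP_7470b6_lc.Crs

variable {V ι : Type} [Fintype V] [DecidableEq V] [Fintype ι] [DecidableEq ι] {g : MG V ι}
  {c : V → Bool} {p : ι → ℝ} {eps : ℝ}

/-- All edges except those at `u` and those at the other end of `j`. -/
def FB (g : MG V ι) (u : V) (j : ι) : Finset ι := (univ \ g.E u) \ g.E (g.ot j u)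

omit [Fintype V] in
private theorem XF_FA (u : V) (i : ι) (S : Finset ι) : S ∩ g.FA u i = S \ g.E u := by
  ext k
  simp [MG.FA]

omit [Fintype V] in
private theorem XF_FB (u : V) (j : ι) (S : Finset ι) :
    S ∩ FB g u j = (S \ g.E u) \ g.E (g.ot j u) := by
  ext k
  simp only [FB, Finset.mem_inter, Finset.mem_sdiff, Finset.mem_univ, true_and]
  tauto

private theorem XF_col (hB : TwoCol g c) {u : V} {i j : ι} (hi : i ∈ g.E u) (hj : j ∈ g.E u) :
    c (g.ot j u) = c (g.ot i u) := by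
  have h1 := col_ot hB hi
  have h2 := col_ot hB hj
  cases h3 : c (g.ot i u) <;> cases h4 : c (g.ot j u) <;> cases h5 : c u <;> simp_all

/-- Job XF. Let `T = S \ E u`, `b = ot i u`, `b' = ot j u`, `X = D b (T \ E b')`, `Y = D b' (T \ E b)`.
By `swap` `X - D b T = Y - D b' T =: d`, `d ≥ 0` by `M2` (`b ≠ b'` have the same colour).
Then `c2 = max 0 (min (A + d) (B + d)) - max 0 (min A B)` with `A = w i - X`, `B = w j - Y`
(`cap_nonneg`, `cap_mono`). -/
theorem c2_bounds (hB : TwoCol g c) {u : V} {i j : ι} (hi : i ∈ g.E u) (hj : j ∈ g.E u)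
    (hne : g.ot j u ≠ g.ot i u) (S : Finset ι) :
    0 ≤ g.c2 u i j S ∧
      g.c2 u i j S ≤ max 0 ((g.w i : ℤ) - g.D (g.ot i u) (S ∩ (g.FA u i))) -
        max 0 ((g.w i : ℤ) - g.D (g.ot i u) (S ∩ (FB g u j))) ∧
      g.c2 u i j S ≤ max 0 ((g.w j : ℤ) - g.D (g.ot j u) (S ∩ (g.FA u j))) -
        max 0 ((g.w j : ℤ) - g.D (g.ot j u) (S ∩ (FB g u i))) := by
  rw [XF_FA, XF_FA, XF_FB, XF_FB]
  unfold MG.c2
  obtain ⟨T, hT⟩ : ∃ T, T = S \ g.E u := ⟨_, rfl⟩
  rw [← hT]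
  have hcol := XF_col hB hi hj
  have hsw := swap (g := g) (g.ot j u) (g.ot i u) T
  have hM := M2 hB hcol hne T
  obtain ⟨d, hd⟩ : ∃ d, d = g.D (g.ot i u) (T \ g.E (g.ot j u)) - g.D (g.ot i u) T := ⟨_, rfl⟩
  obtain ⟨A, hA⟩ : ∃ A, A = (g.w i : ℤ) - g.D (g.ot i u) (T \ g.E (g.ot j u)) := ⟨_, rfl⟩
  obtain ⟨B, hBB⟩ : ∃ B, B = (g.w j : ℤ) - g.D (g.ot j u) (T \ g.E (g.ot i u)) := ⟨_, rfl⟩
  have hd0 : 0 ≤ d := by rw [hd]; linarith
  have e1 : (g.w i : ℤ) - g.D (g.ot i u) T = A + d := by rw [hA, hd]; ring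
  have e2 : (g.w j : ℤ) - g.D (g.ot j u) T = B + d := by rw [hBB, hd]; linarith
  rw [e1, e2, ← hA, ← hBB]
  refine ⟨cap_nonneg A B d hd0, cap_mono A B d hd0, ?_⟩
  rw [min_comm (A + d), min_comm A]
  exact cap_mono B A d hd0

/-- Job XF. `cnt3` for `D b T`, `D b' T` and for `X`, `Y` (see `c2_bounds`), pointwise in `S`; then
`ev_add`, `ev_sum`. -/
theorem pair_split {u : V} {i j : ι} {N : ℕ} (hN : ∀ i, g.w i ≤ N) :
    ∑ s ∈ range N, EV p (fun S => g.gd u s i S * g.gd u s j S) =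
      EV p (fun S => (g.c2 u i j S : ℝ)) +
      ∑ s ∈ range N, EV p (fun S =>
        (if g.D (g.ot i u) (S ∩ FB g u j) + (s : ℤ) < (g.w i : ℤ) then 1 else 0) *
        (if g.D (g.ot j u) (S ∩ FB g u i) + (s : ℤ) < (g.w j : ℤ) then 1 else 0)) := by
  unfold EV
  rw [← ev_sum, ← ev_sum, ← ev_add]
  refine ev_congr fun S _ => ?_
  have h1 : ∑ s ∈ range N, g.gd u s i S * g.gd u s j S =
      ((max 0 (min ((g.w i : ℤ) - g.D (g.ot i u) (S \ g.E u))
        ((g.w j : ℤ) - g.D (g.ot j u) (S \ g.E u))) : ℤ) : ℝ) := by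
    rw [← cnt3 (g.w i) (g.w j) N _ _ (D_nonneg _ _) (D_nonneg _ _) (hN i) (hN j)]
    rfl
  rw [h1]
  rw [cnt3 (g.w i) (g.w j) N _ _ (D_nonneg _ _) (D_nonneg _ _) (hN i) (hN j), XF_FB, XF_FB]
  unfold MG.c2
  push_cast
  ring

omit [Fintype V] in
private theorem XF_th_dep (F C : Finset ι) (v : V) (r : ℕ) (hFC : F ⊆ C) :
    DepOn (fun S => g.th p F v r S) C := by
  intro T T' h
  have h1 : T ∩ F = T' ∩ F := by
    ext k
    have hk := congrArg (fun S : Finset ι => k ∈ S) h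
    simp only [Finset.mem_inter, eq_iff_iff] at hk ⊢
    constructor
    · rintro ⟨a, b⟩; exact ⟨(hk.1 ⟨a, hFC b⟩).1, b⟩
    · rintro ⟨a, b⟩; exact ⟨(hk.2 ⟨a, hFC b⟩).1, b⟩
  simp only [MG.th, h1]

omit [Fintype V] in
private theorem XF_D_dep (F C : Finset ι) (v : V) (r : ℕ) (hFC : F ⊆ C) :
    DepOn (fun S => if g.D v (S ∩ F) ≤ (r : ℤ) then (1 : ℝ) else 0) C := by
  intro T T' h
  have h1 : T ∩ F = T' ∩ F := by
    ext k
    have hk := congrArg (fun S : Finset ι => k ∈ S) h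
    simp only [Finset.mem_inter, eq_iff_iff] at hk ⊢
    constructor
    · rintro ⟨a, b⟩; exact ⟨(hk.1 ⟨a, hFC b⟩).1, b⟩
    · rintro ⟨a, b⟩; exact ⟨(hk.2 ⟨a, hFC b⟩).1, b⟩
  simp only [h1]

omit [Fintype V] in
private theorem XF_sub (u : V) (j : ι) : FB g u j ⊆ univ \ g.E (g.ot j u) := by
  intro k hk
  unfold FB at hk
  rw [Finset.mem_sdiff] at hk ⊢
  exact ⟨Finset.mem_univ _, hk.2⟩

/-- Job XF. `P1` twice: with `b = ot i u`, `b' = ot j u` (same colour, so `E b` and `E b'` are disjoint),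
`[D b' (S ∩ FB u i) ≤ r']` depends on `S \ E b` only, and `th p (FB u j) b r` depends on `S \ E b'` only. -/
theorem pair_indep (hB : TwoCol g c) {u : V} {i j : ι} (hi : i ∈ g.E u) (hj : j ∈ g.E u)
    (hne : g.ot j u ≠ g.ot i u) (r r' : ℕ) :
    EV p (fun S => (if g.D (g.ot i u) (S ∩ FB g u j) ≤ (r : ℤ) then 1 else 0) *
        (if g.D (g.ot j u) (S ∩ FB g u i) ≤ (r' : ℤ) then 1 else 0)) =
      EV p (fun S => g.th p (FB g u j) (g.ot i u) r S * g.th p (FB g u i) (g.ot j u) r' S) := by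
  have _ := hne
  have _ := hB
  have _ := hi
  have _ := hj
  rw [P1 (FB g u j) (g.ot i u) r (XF_D_dep (FB g u i) _ (g.ot j u) r' (XF_sub u i))]
  have h1 := P1 (p := p) (FB g u i) (g.ot j u) r'
    (XF_th_dep (g := g) (p := p) (FB g u j) _ (g.ot i u) r (XF_sub u j))
  have h2 : EV p (fun S => g.th p (FB g u j) (g.ot i u) r S *
        (if g.D (g.ot j u) (S ∩ FB g u i) ≤ (r' : ℤ) then 1 else 0)) =
      EV p (fun S => (if g.D (g.ot j u) (S ∩ FB g u i) ≤ (r' : ℤ) then 1 else 0) *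
        g.th p (FB g u j) (g.ot i u) r S) :=
    ev_congr fun S _ => mul_comm _ _
  have h3 : EV p (fun S => g.th p (FB g u j) (g.ot i u) r S * g.th p (FB g u i) (g.ot j u) r' S) =
      EV p (fun S => g.th p (FB g u i) (g.ot j u) r' S * g.th p (FB g u j) (g.ot i u) r S) :=
    ev_congr fun S _ => mul_comm _ _
  rw [h2, h1, h3]

/-- Job XF. From `pair_indep` and `cnt5` (pointwise in `S`): for `s < w i`
`D + s < w i ↔ D ≤ w i - 1 - s`, for `s ≥ w i` it is false as `D ≥ 0`. -/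
theorem pair_amgm (hB : TwoCol g c) (hp : ∀ i, 0 ≤ p i ∧ p i ≤ 1) {u : V} {i j : ι}
    (hi : i ∈ g.E u) (hj : j ∈ g.E u) (hne : g.ot j u ≠ g.ot i u) {N : ℕ} (hN : ∀ i, g.w i ≤ N) :
    ∑ s ∈ range N, EV p (fun S =>
        (if g.D (g.ot i u) (S ∩ FB g u j) + (s : ℤ) < (g.w i : ℤ) then 1 else 0) *
        (if g.D (g.ot j u) (S ∩ FB g u i) + (s : ℤ) < (g.w j : ℤ) then 1 else 0)) ≤
      (1 / 2) * ∑ r ∈ range (g.w i), EV p (fun S => (g.th p (FB g u j) (g.ot i u) r S) ^ 2) +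
      (1 / 2) * ∑ r ∈ range (g.w j), EV p (fun S => (g.th p (FB g u i) (g.ot j u) r S) ^ 2) := by
  have hs : ∀ s ∈ range N, EV p (fun S =>
        (if g.D (g.ot i u) (S ∩ FB g u j) + (s : ℤ) < (g.w i : ℤ) then 1 else 0) *
        (if g.D (g.ot j u) (S ∩ FB g u i) + (s : ℤ) < (g.w j : ℤ) then 1 else 0)) =
      EV p (fun S => if s < g.w i ∧ s < g.w j then
        g.th p (FB g u j) (g.ot i u) (g.w i - 1 - s) S *
          g.th p (FB g u i) (g.ot j u) (g.w j - 1 - s) S else 0) := by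
    intro s _
    by_cases h : s < g.w i ∧ s < g.w j
    · simp only [if_pos h]
      rw [← pair_indep hB hi hj hne]
      refine ev_congr fun S _ => ?_
      have h1 : (g.D (g.ot i u) (S ∩ FB g u j) + (s : ℤ) < (g.w i : ℤ)) ↔
          (g.D (g.ot i u) (S ∩ FB g u j) ≤ ((g.w i - 1 - s : ℕ) : ℤ)) := by
        have : ((g.w i - 1 - s : ℕ) : ℤ) = (g.w i : ℤ) - 1 - s := by omega
        rw [this]
        constructor
        · intro h; linarith
        · intro h; linarith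
      have h2 : (g.D (g.ot j u) (S ∩ FB g u i) + (s : ℤ) < (g.w j : ℤ)) ↔
          (g.D (g.ot j u) (S ∩ FB g u i) ≤ ((g.w j - 1 - s : ℕ) : ℤ)) := by
        have : ((g.w j - 1 - s : ℕ) : ℤ) = (g.w j : ℤ) - 1 - s := by omega
        rw [this]
        constructor
        · intro h; linarith
        · intro h; linarith
      simp only [h1, h2]
    · simp only [if_neg h]
      refine ev_congr fun S _ => ?_
      have hD1 := D_nonneg (g := g) (g.ot i u) (S ∩ FB g u j)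
      have hD2 := D_nonneg (g := g) (g.ot j u) (S ∩ FB g u i)
      by_cases h1 : s < g.w i
      · have h2 : ¬ s < g.w j := fun h2 => h ⟨h1, h2⟩
        have h3 : ¬ (g.D (g.ot j u) (S ∩ FB g u i) + (s : ℤ) < (g.w j : ℤ)) := by
          intro h3
          apply h2
          have : (s : ℤ) < (g.w j : ℤ) := by linarith
          exact_mod_cast this
        rw [if_neg h3, mul_zero]
      · have h3 : ¬ (g.D (g.ot i u) (S ∩ FB g u j) + (s : ℤ) < (g.w i : ℤ)) := by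
          intro h3
          apply h1
          have : (s : ℤ) < (g.w i : ℤ) := by linarith
          exact_mod_cast this
        rw [if_neg h3, zero_mul]
  rw [Finset.sum_congr rfl hs]
  unfold EV
  rw [← ev_sum, ← ev_sum, ← ev_sum, ← ev_const_mul, ← ev_const_mul, ← ev_add]
  refine ev_mono (fun i _ => hp i) fun S _ => ?_
  exact cnt5 (g.w i) (g.w j) N (fun r => g.th p (FB g u j) (g.ot i u) r S)
    (fun r => g.th p (FB g u i) (g.ot j u) r S) (hN i) (hN j)

/-- Job XF. `M1` for `b' = ot j u` and the ends `ot k b` of the edges `k` at `b = ot i u`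
(different colours): `E b ∩ FB u j = E b ∩ FA = E b \ E u`, and
`D (ot k b) (T \ E b' \ E b) ≤ D (ot k b) (T \ E b)`. -/
theorem thB_le (hB : TwoCol g c) (hp : LoadOk g p eps) (he : eps ≤ 0.0002) {u : V} {i j : ι}
    (hi : i ∈ g.E u) (hj : j ∈ g.E u) (hne : g.ot j u ≠ g.ot i u) (r : ℕ) (S : Finset ι) :
    g.th p (FB g u j) (g.ot i u) r S ≤ g.th p (g.FA u i) (g.ot i u) r S := by
  have hcol := XF_col hB hi hj
  have hdis := E_disj hB hcol hne
  have hE : g.E (g.ot i u) ∩ FB g u j = g.E (g.ot i u) ∩ g.FA u i := by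
    ext k
    simp only [FB, MG.FA, Finset.mem_inter, Finset.mem_sdiff, Finset.mem_univ, true_and]
    constructor
    · rintro ⟨a, b, _⟩; exact ⟨a, b⟩
    · rintro ⟨a, b⟩
      exact ⟨a, b, fun h => Finset.disjoint_left.1 hdis h a⟩
  unfold MG.th
  rw [hE]
  refine Finset.prod_le_prod (fun k _ => ?_) fun k hk => ?_
  · have := p01 hp he k
    split_ifs
    · linarith
    · linarith
  · have hkb : k ∈ g.E (g.ot i u) := (Finset.mem_inter.1 hk).1
    have hS : (S ∩ FB g u j) \ g.E (g.ot i u) =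
        ((S ∩ g.FA u i) \ g.E (g.ot i u)) \ g.E (g.ot j u) := by
      ext l
      simp only [FB, MG.FA, Finset.mem_inter, Finset.mem_sdiff, Finset.mem_univ, true_and]
      tauto
    have hcc : c (g.ot j u) ≠ c (g.ot k (g.ot i u)) := by
      rw [hcol]
      exact (col_ot hB hkb).symm
    have hM := M1 hB hcc ((S ∩ g.FA u i) \ g.E (g.ot i u))
    rw [← hS] at hM
    have hpk := hp.nonneg k
    have hpk := p01 hp he k
    by_cases h : g.D (g.ot k (g.ot i u)) ((S ∩ g.FA u i) \ g.E (g.ot i u)) + (r : ℤ) < (g.w k : ℤ)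
    · have h' : g.D (g.ot k (g.ot i u)) ((S ∩ FB g u j) \ g.E (g.ot i u)) + (r : ℤ) <
          (g.w k : ℤ) := by linarith
      rw [if_pos h, if_pos h']
    · rw [if_neg h]
      split_ifs
      · linarith [hpk.1]
      · exact le_rfl

/-- Job XF. With `x₀ = th (FB u j) ≤ x₁ = th FA`, both `≥ c0`: `x₁² - x₀² ≥ 2 c0 (x₁ - x₀)`, and
`∑ r < w i, E (x₁ - x₀) ≥ E c2` by `pos_th` and `c2_bounds`. -/
theorem sq_gain (hB : TwoCol g c) (hp : LoadOk g p eps) (he : eps ≤ 0.0002) {u : V} {i j : ι}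
    (hi : i ∈ g.E u) (hj : j ∈ g.E u) (hne : g.ot j u ≠ g.ot i u) :
    ∑ r ∈ range (g.w i), EV p (fun S => (g.th p (FB g u j) (g.ot i u) r S) ^ 2) +
      2 * c0 * EV p (fun S => (g.c2 u i j S : ℝ)) ≤
    ∑ r ∈ range (g.w i), EV p (fun S => (g.th p (g.FA u i) (g.ot i u) r S) ^ 2) := by
  have hp01 := p01 hp he
  have hc0 : (0 : ℝ) ≤ c0 := by unfold c0; norm_num
  have h1 := pos_th (g := g) (p := p) (g.FA u i) (g.ot i u) (g.w i)
  have h2 := pos_th (g := g) (p := p) (FB g u j) (g.ot i u) (g.w i)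
  have h3 : EV p (fun S => (g.c2 u i j S : ℝ)) ≤
      EV p (fun S => ((max 0 ((g.w i : ℤ) - g.D (g.ot i u) (S ∩ g.FA u i)) : ℤ) : ℝ)) -
      EV p (fun S => ((max 0 ((g.w i : ℤ) - g.D (g.ot i u) (S ∩ FB g u j)) : ℤ) : ℝ)) := by
    unfold EV
    rw [← ev_sub]
    refine ev_mono (fun i _ => hp01 i) fun S _ => ?_
    have := (c2_bounds hB hi hj hne S).2.1
    exact_mod_cast this
  rw [← h1, ← h2] at h3
  have h4 : ∀ r ∈ range (g.w i), EV p (fun S => (g.th p (FB g u j) (g.ot i u) r S) ^ 2) +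
      2 * c0 * (EV p (fun S => g.th p (g.FA u i) (g.ot i u) r S) -
        EV p (fun S => g.th p (FB g u j) (g.ot i u) r S)) ≤
      EV p (fun S => (g.th p (g.FA u i) (g.ot i u) r S) ^ 2) := by
    intro r _
    unfold EV
    rw [← ev_sub, ← ev_const_mul, ← ev_add]
    refine ev_mono (fun i _ => hp01 i) fun S _ => ?_
    have a1 := thB_le hB hp he hi hj hne r S
    have a2 := c0_le_th hp he (FB g u j) (g.ot i u) r S
    nlinarith
  have h5 := Finset.sum_le_sum h4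
  rw [Finset.sum_add_distrib, ← Finset.mul_sum, Finset.sum_sub_distrib] at h5
  have h6 : 2 * c0 * EV p (fun S => (g.c2 u i j S : ℝ)) ≤
      2 * c0 * (∑ r ∈ range (g.w i), EV p (fun S => g.th p (g.FA u i) (g.ot i u) r S) -
        ∑ r ∈ range (g.w i), EV p (fun S => g.th p (FB g u j) (g.ot i u) r S)) :=
    mul_le_mul_of_nonneg_left h3 (by linarith)
  linarith

omit [Fintype V] in
/-- Job XF. `c2` is symmetric in `i`, `j`. -/
theorem c2_comm (u : V) (i j : ι) (S : Finset ι) : g.c2 u i j S = g.c2 u j i S := by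
  unfold MG.c2
  rw [min_comm ((g.w i : ℤ) - g.D (g.ot i u) (S \ g.E u)),
    min_comm ((g.w i : ℤ) - g.D (g.ot i u) ((S \ g.E u) \ g.E (g.ot j u)))]

/-- Job XF. Combine `pair_split`, `pair_amgm`, and `sq_gain` for `i`, `j` and for `j`, `i`. -/
theorem pair_bound (hB : TwoCol g c) (hp : LoadOk g p eps) (he : eps ≤ 0.0002) {u : V} {i j : ι}
    (hi : i ∈ g.E u) (hj : j ∈ g.E u) (hne : g.ot j u ≠ g.ot i u) {N : ℕ} (hN : ∀ i, g.w i ≤ N) :
    ∑ s ∈ range N, EV p (fun S => g.gd u s i S * g.gd u s j S) ≤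
      (1 / 2) * ∑ r ∈ range (g.w i), EV p (fun S => (g.th p (g.FA u i) (g.ot i u) r S) ^ 2) +
      (1 / 2) * ∑ r ∈ range (g.w j), EV p (fun S => (g.th p (g.FA u j) (g.ot j u) r S) ^ 2) +
      (1 - 2 * c0) * EV p (fun S => (g.c2 u i j S : ℝ)) := by
  have h1 := pair_split (g := g) (p := p) (u := u) (i := i) (j := j) hN
  have h2 := pair_amgm hB (p01 hp he) hi hj hne hN
  have h3 := sq_gain hB hp he hi hj hne
  have h4 := sq_gain hB hp he hj hi hne.symm
  have h5 : EV p (fun S => (g.c2 u j i S : ℝ)) = EV p (fun S => (g.c2 u i j S : ℝ)) :=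
    ev_congr fun S _ => by rw [c2_comm]
  rw [h5] at h4
  rw [h1]
  linarith

end Pool.Agent.Lib.MP_7470b6_lc.Bip
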